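import Pool.Agent.Quad56.Near

/-!
# One pencil: counting

Working file of helper56 for MP_f8fadf_co.
-/

namespace Quad56

open Finset
open scoped InnerProductSpace

variable {n : ℕ} {u : Fin n → E4} {b : Fin n → ℝ}

theorem pm1 (x y p a : Fin n) : ({p, x, y, a} : Finset (Fin n)) = {x, y, p, a} := by
  ext
  simp only [mem_insert, mem_singleton]
  tauto

theorem pm2 (x y p a : Fin n) : ({x, p, y, a} : Finset (Fin n)) = {x, y, p, a} := by
  ext
  simp only [mem_insert, mem_singleton]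
  tauto

theorem pm3 (x y p a : Fin n) : ({x, p, a, y} : Finset (Fin n)) = {x, y, p, a} := by
  ext
  simp only [mem_insert, mem_singleton]
  tauto

open Classical in
/-- The 2-faces `F_x ∩ F_y` with `x` in the pencil and `y` not in the pencil which meet two further
facets of the pencil and are not 4-gons. -/
noncomputable def BandP (u : Fin n → E4) (b : Fin n → ℝ) (L : Finset (Fin n)) :
    Finset (Fin n × Fin n) :=
  univ.filter fun e => e.1 ∈ L ∧ e.2 ∉ L ∧
    (Set.extremePoints ℝ (Two u b e.1 e.2)).ncard ≠ 4 ∧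
    ∃ p ∈ L, ∃ q ∈ L, p ≠ e.1 ∧ q ≠ e.1 ∧ p ≠ q ∧
      (∃ v ∈ Two u b e.1 e.2, ⟪u p, v⟫_ℝ = b p) ∧ ∃ v ∈ Two u b e.1 e.2, ⟪u q, v⟫_ℝ = b q

theorem band_data (h : Simple4 u b) {L : Finset (Fin n)} {x y : Fin n}
    (he : (x, y) ∈ BandP u b L) : x ∈ L ∧ y ∉ L ∧
      ((tets u b).filter fun t => x ∈ t ∧ y ∈ t).card ≠ 4 ∧
      ∃ p ∈ L, ∃ q ∈ L, p ≠ x ∧ q ≠ x ∧ p ≠ q ∧
        (∃ a, {x, y, p, a} ∈ tets u b) ∧ ∃ c, {x, y, q, c} ∈ tets u b := by
  classical
  simp only [BandP, mem_filter, mem_univ, true_and] at he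
  obtain ⟨hx, hy, hdeg, p, hp, q, hq, hpx, hqx, hpq, ⟨v, hv, hvp⟩, v', hv', hvq⟩ := he
  rw [ncard_extreme h] at hdeg
  have key : ∀ {p : Fin n} {v : E4}, p ∈ L → p ≠ x → v ∈ Two u b x y → ⟪u p, v⟫_ℝ = b p →
      ∃ a, {x, y, p, a} ∈ tets u b := by
    intro p v hp hpx hv hvp
    obtain ⟨hvP, hvx, hvy⟩ := hv
    obtain ⟨τ, hτ, hsub⟩ := exists_tet h hvP
    obtain ⟨a, ha⟩ := exists_fourth (mem_tets.mp hτ).1 (fun hc : x = y => hy (hc ▸ hx)) hpx.symm
      (fun hc : y = p => hy (hc.symm ▸ hp)) (hsub (mem_act.mpr hvx)) (hsub (mem_act.mpr hvy))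
      (hsub (mem_act.mpr hvp))
    exact ⟨a, ha ▸ hτ⟩
  exact ⟨hx, hy, hdeg, p, hp, q, hq, hpx, hqx, hpq, key hp hpx hv hvp, key hq hqx hv' hvq⟩

/-- The label of one pencil. -/
noncomputable abbrev lb (L : Finset (Fin n)) : Fin n → Option (Fin 1) := lab fun _ : Fin 1 => L

theorem lb_iff {L : Finset (Fin n)} (h5 : 5 ≤ L.card) {x : Fin n} : lb L x = some 0 ↔ x ∈ L := by
  have h1 := lab_iff (Λ := fun _ : Fin 1 => L) (x := x) (t := 0)
    (fun s t hst => absurd (Subsingleton.elim s t) hst)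
  rw [h1]
  exact ⟨fun h => h.2, fun h => ⟨h5, h⟩⟩

theorem lb_some {L : Finset (Fin n)} {x : Fin n} {i : Fin 1} (h : lb L x = some i) : x ∈ L := by
  have h1 := (lab_iff (Λ := fun _ : Fin 1 => L) (x := x) (t := i)
    (fun s t hst => absurd (Subsingleton.elim s t) hst)).mp h
  exact h1.2

open Classical in
/-- The far pairs. -/
noncomputable def FarS (u : Fin n → E4) (b : Fin n → ℝ) (L : Finset (Fin n))
    (A : (E4 × ℝ) →ₗ[ℝ] ℂ) (w : ℕ) : Finset (Fin n × Fin n) :=
  (Mono (tets u b) (lb L)).biUnion fun q =>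
    (Fr (tets u b) (lb L) (fun _ x => sec u b A w x) q).image (fun e => (q.1, e.1)) ∪
      (Fr (tets u b) (lb L) (fun _ x => sec u b A w x) q).image (fun e => (q.1, e.2))

open Classical in
/-- The near pairs of the first kind. -/
noncomputable def NearF (u : Fin n → E4) (b : Fin n → ℝ) (L : Finset (Fin n))
    (A : (E4 × ℝ) →ₗ[ℝ] ℂ) (B : (E4 × ℝ) →ₗ[ℝ] (Fin 3 → ℝ)) (o : Fin n) (w : ℕ) :
    Finset (Fin n × Fin n) :=
  univ.biUnion fun y : Fin n => (univ.filter fun x : Fin n => ∃ p q a c,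
    Nr u b L A B o x y p q a c ∧ NF u b L B o x y c ∧ sec u b A w c = sec u b A w y).image
      fun x => (x, y)

open Classical in
/-- The near pairs of the second kind. -/
noncomputable def NearG (u : Fin n → E4) (b : Fin n → ℝ) (L : Finset (Fin n))
    (A : (E4 × ℝ) →ₗ[ℝ] ℂ) (B : (E4 × ℝ) →ₗ[ℝ] (Fin 3 → ℝ)) (o : Fin n) (w : ℕ) :
    Finset (Fin n × Fin n) :=
  univ.biUnion fun y : Fin n => (univ.filter fun x : Fin n => ∃ p q a c,
    Nr u b L A B o x y p q a c ∧ NG u b L B o x y a ∧ sec u b A w a = sec u b A w y).image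
      fun x => (x, y)

section

variable (h : Simple4 u b) {L : Finset (Fin n)} (hL : Pencil u b L) (h5 : 5 ≤ L.card)
  {A : (E4 × ℝ) →ₗ[ℝ] ℂ} (hA : Module.finrank ℝ (Sp u b L) = 3 → LinearMap.ker A = Sp u b L)
  {w : ℕ} (hw : 0 < w)

include h hL h5 hA hw

theorem core1 : Core (tets u b) (lb L) (fun _ x => sec u b A w x)
    (XX u b (fun _ : Fin 1 => L) (fun _ => A)) w (n / w + 2) :=
  core (k := 1) (Λ := fun _ => L) h (fun s t hst => absurd (Subsingleton.elim s t) hst)
    (fun _ => hL) (fun _ => A) (fun _ => hA) hw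

theorem mono_card : (Mono (tets u b) (lb L)).card ≤ L.card * 2 := by
  classical
  have C := core1 h hL h5 hA hw
  have h1 : Mono (tets u b) (lb L) ⊆
      L.biUnion fun x => (Nb (tets u b) (lb L) x).image fun y => (x, y) := by
    rintro ⟨x, y⟩ hxy
    have hx : x ∈ L := by
      obtain ⟨-, ⟨i, hi, -⟩, -⟩ := mem_Mono.mp hxy
      exact lb_some hi
    simp only [mem_biUnion, mem_image]
    exact ⟨x, hx, y, by simp [Nb, hxy], rfl⟩
  calc (Mono (tets u b) (lb L)).card ≤ _ := card_le_card h1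
    _ ≤ L.card * 2 := card_biUnion_le_card_mul _ _ _ fun x _ =>
        card_image_le.trans (Nb_card C x)

theorem farS_card : (FarS u b L A w).card ≤ L.card * 2 * ((n / w + 2) + (n / w + 2)) := by
  classical
  have C := core1 h hL h5 hA hw
  unfold FarS
  refine (card_biUnion_le_card_mul _ _ ((n / w + 2) + (n / w + 2)) fun q _ => ?_).trans
    (Nat.mul_le_mul_right _ (mono_card h hL h5 hA hw))
  exact (card_union_le _ _).trans (add_le_add (card_image_le.trans (Fr_card C q))
    (card_image_le.trans (Fr_card C q)))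

variable {B : (E4 × ℝ) →ₗ[ℝ] (Fin 3 → ℝ)} (hB : ∀ v ∈ Sp u b L, B v = 0 → v = 0) {o : Fin n}
  (ho : o ∈ L)

include hB ho

theorem nearF_card : (NearF u b L A B o w).card ≤ n * w := by
  classical
  unfold NearF
  have h0 : (univ : Finset (Fin n)).card = n := by rw [card_univ, Fintype.card_fin]
  refine (card_biUnion_le_card_mul _ _ w fun y _ => card_image_le.trans ?_).trans
    (Nat.mul_le_mul_right _ h0.le)
  refine le_trans ?_ (sec_card (u := u) (b := b) A hw (sec u b A w y))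
  have hch : ∀ x : Fin n, ∃ c, (∃ p q a c, Nr u b L A B o x y p q a c ∧ NF u b L B o x y c ∧
      sec u b A w c = sec u b A w y) → ∃ p q a, Nr u b L A B o x y p q a c ∧
      NF u b L B o x y c ∧ sec u b A w c = sec u b A w y := by
    intro x
    by_cases hx : ∃ p q a c, Nr u b L A B o x y p q a c ∧ NF u b L B o x y c ∧
      sec u b A w c = sec u b A w y
    · obtain ⟨p, q, a, c, h1⟩ := hx
      exact ⟨c, fun _ => ⟨p, q, a, h1⟩⟩
    · exact ⟨x, fun h1 => absurd h1 hx⟩
  choose g hg using hch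
  apply card_le_card_of_injOn g
  · intro x hx
    simp only [coe_filter, mem_univ, true_and, Set.mem_ofPred_eq] at hx ⊢
    obtain ⟨p, q, a, -, -, h1⟩ := hg x hx
    exact h1
  · intro x hx x' hx' hxx
    simp only [coe_filter, mem_univ, true_and, Set.mem_ofPred_eq] at hx hx'
    obtain ⟨p, q, a, H, F, -⟩ := hg x hx
    obtain ⟨p', q', a', H', F', -⟩ := hg x' hx'
    rw [← hxx] at H' F'
    exact nf_unique h hL h5 hA hB ho H F H' F'

theorem nearG_card : (NearG u b L A B o w).card ≤ n * w := by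
  classical
  unfold NearG
  have h0 : (univ : Finset (Fin n)).card = n := by rw [card_univ, Fintype.card_fin]
  refine (card_biUnion_le_card_mul _ _ w fun y _ => card_image_le.trans ?_).trans
    (Nat.mul_le_mul_right _ h0.le)
  refine le_trans ?_ (sec_card (u := u) (b := b) A hw (sec u b A w y))
  have hch : ∀ x : Fin n, ∃ a, (∃ p q a c, Nr u b L A B o x y p q a c ∧ NG u b L B o x y a ∧
      sec u b A w a = sec u b A w y) → ∃ p q c, Nr u b L A B o x y p q a c ∧
      NG u b L B o x y a ∧ sec u b A w a = sec u b A w y := by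
    intro x
    by_cases hx : ∃ p q a c, Nr u b L A B o x y p q a c ∧ NG u b L B o x y a ∧
      sec u b A w a = sec u b A w y
    · obtain ⟨p, q, a, c, h1⟩ := hx
      exact ⟨a, fun _ => ⟨p, q, c, h1⟩⟩
    · exact ⟨x, fun h1 => absurd h1 hx⟩
  choose g hg using hch
  apply card_le_card_of_injOn g
  · intro x hx
    simp only [coe_filter, mem_univ, true_and, Set.mem_ofPred_eq] at hx ⊢
    obtain ⟨p, q, c, -, -, h1⟩ := hg x hx
    exact h1
  · intro x hx x' hx' hxx
    simp only [coe_filter, mem_univ, true_and, Set.mem_ofPred_eq] at hx hx'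
    obtain ⟨p, q, c, H, G, -⟩ := hg x hx
    obtain ⟨p', q', c', H', G', -⟩ := hg x' hx'
    rw [← hxx] at H' G'
    exact ng_unique h hL h5 hA hB ho H G H' G'

open Classical in
/-- The crossing 2-faces which are not 4-gons are exceptional. -/
theorem band_cover {x y : Fin n} (he : (x, y) ∈ BandP u b L) :
    (x, y) ∈ (insert o (Nb (tets u b) (lb L) o)) ×ˢ (univ : Finset (Fin n)) ∪
      (FarS u b L A w ∪ (NearF u b L A B o w ∪ NearG u b L A B o w)) := by
  classical
  obtain ⟨hx, hy, hdeg, p, hp, q, hq, hpx, hqx, hpq, ⟨a, hT⟩, c, hT'⟩ := band_data h he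
  simp only [mem_union, mem_product, mem_univ, and_true, mem_insert]
  by_cases hxo : x = o
  · exact Or.inl (Or.inl hxo)
  by_cases hnb : x ∈ Nb (tets u b) (lb L) o
  · exact Or.inl (Or.inr hnb)
  right
  have mono : ∀ {p z a : Fin n}, p ∈ L → p ≠ x → {x, y, p, a} ∈ tets u b →
      (x, p) ∈ Mono (tets u b) (lb L) := by
    intro p z a hp hpx hT
    rw [mem_Mono]
    refine ⟨hpx.symm, ⟨0, (lb_iff h5).mpr hx, (lb_iff h5).mpr hp⟩, y, a, ?_⟩
    rw [pm2]
    exact hT
  have neo : ∀ {p a : Fin n}, p ∈ L → p ≠ x → {x, y, p, a} ∈ tets u b → p ≠ o := by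
    rintro p a hp hpx hT rfl
    apply hnb
    simp only [Nb, mem_filter, mem_univ, true_and]
    rw [mem_Mono]
    refine ⟨hpx, ⟨0, (lb_iff h5).mpr hp, (lb_iff h5).mpr hx⟩, y, a, ?_⟩
    rw [pm1]
    exact hT
  obtain ⟨a, c, hac, hT, hT', sg⟩ := exists_letters h hL h5 hA hx hp hq hpq hT hT' hdeg
  -- far
  have far : ∀ {p a : Fin n}, p ∈ L → p ≠ x → {x, y, p, a} ∈ tets u b →
      sec u b A w a ≠ sec u b A w y → (x, y) ∈ FarS u b L A w := by
    intro p a hp hpx hT hne
    unfold FarS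
    rw [mem_biUnion]
    refine ⟨(x, p), mono (z := x) hp hpx hT, ?_⟩
    rw [mem_union, mem_image, mem_image]
    rcases lt_or_gt_of_ne hne with h1 | h1
    · right
      refine ⟨(a, y), ?_, rfl⟩
      simp only [Fr, mem_filter, mem_univ, true_and]
      refine ⟨0, (lb_iff h5).mpr hx, (lb_iff h5).mpr hp, h1, ?_⟩
      rw [pm3]
      exact hT
    · left
      refine ⟨(y, a), ?_, rfl⟩
      simp only [Fr, mem_filter, mem_univ, true_and]
      refine ⟨0, (lb_iff h5).mpr hx, (lb_iff h5).mpr hp, h1, ?_⟩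
      rw [pm2]
      exact hT
  by_cases hsa : sec u b A w a = sec u b A w y
  swap
  · exact Or.inl (far hp hpx hT hsa)
  by_cases hsc : sec u b A w c = sec u b A w y
  swap
  · exact Or.inl (far hq hqx hT' hsc)
  right
  -- near
  have near : ∀ {p q a c : Fin n}, p ∈ L → q ∈ L → p ≠ o → q ≠ o → bf u b B o p x →
      bf u b B o x q → {x, y, p, a} ∈ tets u b → {x, y, q, c} ∈ tets u b → a ≠ c →
      0 < om A (vec u b y) (vec u b a) * om A (vec u b y) (vec u b c) →
      sec u b A w a = sec u b A w y → sec u b A w c = sec u b A w y →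
      (x, y) ∈ NearF u b L A B o w ∨ (x, y) ∈ NearG u b L A B o w := by
    intro p q a c hp hq po qo hpx hxq hT hT' hac sg hsa hsc
    have H : Nr u b L A B o x y p q a c := by
      refine ⟨hx, hp, hq, hxo, po, qo, hpx, hxq, ?_, ?_, hac, sg⟩
      · rw [pm1]
        exact hT
      · rw [pm2]
        exact hT'
    rcases nf_or_ng h hL h5 hA hB ho H with hF | hG
    · left
      unfold NearF
      rw [mem_biUnion]
      refine ⟨y, mem_univ _, mem_image.mpr ⟨x, ?_, rfl⟩⟩
      rw [mem_filter]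
      exact ⟨mem_univ _, p, q, a, c, H, hF, hsc⟩
    · right
      unfold NearG
      rw [mem_biUnion]
      refine ⟨y, mem_univ _, mem_image.mpr ⟨x, ?_, rfl⟩⟩
      rw [mem_filter]
      exact ⟨mem_univ _, p, q, a, c, H, hG, hsa⟩
  have po := neo hp hpx hT
  have qo := neo hq hqx hT'
  have tp : ∀ {p a : Fin n}, {x, y, p, a} ∈ tets u b → {p, x, y, a} ∈ tets u b := by
    intro p a hh
    rw [pm1]
    exact hh
  have tq : ∀ {p a : Fin n}, {x, y, p, a} ∈ tets u b → {x, p, y, a} ∈ tets u b := by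
    intro p a hh
    rw [pm2]
    exact hh
  rcases bf_total h hB ho hp hx po hxo hpx with h1 | h1
  · rcases bf_total h hB ho hq hx qo hxo hqx with h2 | h2
    · exfalso
      rcases bf_total h hB ho hp hq po qo hpq with h3 | h3
      · exact no_between h hB ho hL h5 hp hq hx po qo hxo (tp hT) h3 h2
      · exact no_between h hB ho hL h5 hq hp hx qo po hxo (tp hT') h3 h1
    · exact near hp hq po qo h1 h2 hT hT' hac sg hsa hsc
  · rcases bf_total h hB ho hq hx qo hxo hqx with h2 | h2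
    · exact near hq hp qo po h2 h1 hT' hT hac.symm (by rw [mul_comm]; exact sg) hsc hsa
    · exfalso
      rcases bf_total h hB ho hp hq po qo hpq with h3 | h3
      · exact no_between h hB ho hL h5 hx hp hq hxo po qo (tq hT') h1 h3
      · exact no_between h hB ho hL h5 hx hq hp hxo qo po (tq hT) h2 h3

theorem band_card : (BandP u b L).card ≤ 3 * n + (L.card * 2 * ((n / w + 2) + (n / w + 2)) +
    (n * w + n * w)) := by
  classical
  have C := core1 h hL h5 hA hw
  have hsub : BandP u b L ⊆ (insert o (Nb (tets u b) (lb L) o)) ×ˢ (univ : Finset (Fin n)) ∪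
      (FarS u b L A w ∪ (NearF u b L A B o w ∪ NearG u b L A B o w)) := by
    rintro ⟨x, y⟩ he
    exact band_cover h hL h5 hA hw hB ho he
  refine (card_le_card hsub).trans ?_
  refine (card_union_le _ _).trans (add_le_add ?_ ?_)
  · rw [card_product, card_univ, Fintype.card_fin]
    apply Nat.mul_le_mul_right
    exact (card_insert_le _ _).trans (Nat.succ_le_succ (Nb_card C o))
  · refine (card_union_le _ _).trans (add_le_add (farS_card h hL h5 hA hw) ?_)
    exact (card_union_le _ _).trans (add_le_add (nearF_card h hL h5 hA hw hB ho)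
      (nearG_card h hL h5 hA hw hB ho))

end

/-- The theorem. -/
theorem band_main (h : Simple4 u b) {L : Finset (Fin n)} (hL : Pencil u b L) :
    ((BandP u b L).card : ℝ) ≤ 12 * (n * √(L.card : ℝ)) := by
  classical
  obtain ⟨m, hm⟩ : ∃ m, m = L.card := ⟨_, rfl⟩
  rw [← hm]
  have hn0 : (0 : ℝ) ≤ n := Nat.cast_nonneg n
  have hs0 : (0 : ℝ) ≤ √(m : ℝ) := Real.sqrt_nonneg _
  have hss : √(m : ℝ) * √(m : ℝ) = m := Real.mul_self_sqrt (Nat.cast_nonneg m)
  rcases Nat.lt_or_ge m 5 with h5 | h5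
  · -- small sets
    have h1 : (BandP u b L).card ≤ m * n := by
      rw [hm]
      calc (BandP u b L).card ≤ (L ×ˢ (univ : Finset (Fin n))).card := by
            apply card_le_card
            rintro ⟨x, y⟩ he
            rw [mem_product]
            exact ⟨(band_data h he).1, mem_univ _⟩
        _ = L.card * n := by rw [card_product, card_univ, Fintype.card_fin]
    have h2 : ((BandP u b L).card : ℝ) ≤ m * n := by exact_mod_cast h1
    have h3 : √(m : ℝ) ≤ 12 := by
      rw [Real.sqrt_le_iff]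
      constructor
      · norm_num
      · have : (m : ℝ) < 5 := by exact_mod_cast h5
        linarith
    have h4 : (m : ℝ) ≤ 12 * √(m : ℝ) := by
      calc (m : ℝ) = √(m : ℝ) * √(m : ℝ) := hss.symm
        _ ≤ 12 * √(m : ℝ) := mul_le_mul_of_nonneg_right h3 hs0
    have h5' := mul_le_mul_of_nonneg_right h4 hn0
    linarith
  by_cases hne : (BandP u b L) = ∅
  · rw [hne, card_empty, Nat.cast_zero]
    positivity
  obtain ⟨⟨x, y⟩, he⟩ := nonempty_iff_ne_empty.mpr hne
  have h5' : 5 ≤ L.card := hm ▸ h5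
  obtain ⟨hx, hy, hdeg, p, hp, q, hq, hpx, hqx, hpq, ⟨a, hT⟩, -⟩ := band_data h he
  obtain ⟨-, v, hv, hva⟩ := mem_tets.mp hT
  have mx : x ∈ act u b v := by rw [hva]; simp
  have mp : p ∈ act u b v := by rw [hva]; simp
  have kq : q ∉ act u b v := fun hc =>
    le_two h hv hL h5' hpx.symm hqx.symm hpq mx mp hc hx hp hq
  have hf := (span3 h hv hL hpx.symm mx mp kq hx hp hq).2
  obtain ⟨B, hB⟩ := exists_coord u b L hf
  obtain ⟨A, hA⟩ := exists_proj u b L
  set w : ℕ := ⌈√(m : ℝ)⌉₊ with hw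
  have hm' : (5 : ℝ) ≤ m := by exact_mod_cast h5
  have hs2 : 2 ≤ √(m : ℝ) := by
    apply Real.le_sqrt_of_sq_le
    linarith
  have hwr : √(m : ℝ) ≤ w := Nat.le_ceil _
  have hwr' : (w : ℝ) < √(m : ℝ) + 1 := Nat.ceil_lt_add_one hs0
  have hw0 : 0 < w := by
    have : (0 : ℝ) < w := by linarith
    exact_mod_cast this
  have hcard := band_card h hL h5' hA hw0 hB hx
  rw [← hm] at hcard
  have hcard' : ((BandP u b L).card : ℝ) ≤ 3 * n + (m * 2 * (((n / w : ℕ) + 2) +
      ((n / w : ℕ) + 2)) + (n * w + n * w)) := by exact_mod_cast hcard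
  have hmn : (m : ℝ) ≤ n := by
    have : m ≤ n := by
      rw [hm]
      calc L.card ≤ (univ : Finset (Fin n)).card := card_le_card (subset_univ _)
        _ = n := by rw [card_univ, Fintype.card_fin]
    exact_mod_cast this
  have hs1 : (0 : ℝ) < √(m : ℝ) := by linarith
  have hdiv : (m : ℝ) * ((n / w : ℕ) : ℝ) ≤ n * √(m : ℝ) := by
    have e1 : ((n / w : ℕ) : ℝ) ≤ n / √(m : ℝ) := by
      calc ((n / w : ℕ) : ℝ) ≤ (n : ℝ) / w := Nat.cast_div_le
        _ ≤ n / √(m : ℝ) := div_le_div_of_nonneg_left hn0 hs1 hwr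
    calc (m : ℝ) * ((n / w : ℕ) : ℝ) ≤ m * (n / √(m : ℝ)) :=
          mul_le_mul_of_nonneg_left e1 (Nat.cast_nonneg m)
      _ = n * √(m : ℝ) := by
          rw [mul_div_assoc', div_eq_iff hs1.ne']
          calc (m : ℝ) * n = n * (√(m : ℝ) * √(m : ℝ)) := by rw [hss]; ring
            _ = n * √(m : ℝ) * √(m : ℝ) := by ring
  have e2 : (n : ℝ) * w ≤ n * (√(m : ℝ) + 1) := mul_le_mul_of_nonneg_left hwr'.le hn0
  have hs3 : (13 : ℝ) / 6 ≤ √(m : ℝ) := by
    apply Real.le_sqrt_of_sq_le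
    norm_num
    linarith
  have e3 : (n : ℝ) * (13 / 6) ≤ n * √(m : ℝ) := mul_le_mul_of_nonneg_left hs3 hn0
  linarith

end Quad56
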