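import Pool.Agent.Quad56.Core

/-!
# The combinatorial core: counting

Working file of helper56 for MP_f8fadf_co.
-/

namespace Quad56

open Finset

variable {V ι : Type*} [Fintype V] [DecidableEq V] [Fintype ι] [DecidableEq ι]
variable {T : Finset (Finset V)} {f : V → Option ι} {s : ι → V → ℕ} {X : ι → ι → Finset V}
  {w S : ℕ}

/-- The inconsistent triples. -/
def Inc (T : Finset (Finset V)) (f : V → Option ι) (p q r : V) : Prop :=
  ∃ i j p' q', i ≠ j ∧ f p = some i ∧ f q = some j ∧ f p' = some i ∧ f q' = some j ∧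
    {p, q, r, p'} ∈ T ∧ {p, q, r, q'} ∈ T

/-- Every pair whose facets all contain a pair of the same label is of one of five kinds. -/
theorem classify (C : Core T f s X w S) {x y : V} (hxy : x ≠ y) (hT : ∃ a c, {x, y, a, c} ∈ T)
    (hdeg : (T.filter fun t => x ∈ t ∧ y ∈ t).card ≠ 4)
    (hsp : ∀ t ∈ T, x ∈ t → y ∈ t → ∃ p ∈ t, ∃ q ∈ t, p ≠ q ∧ ∃ i, f p = some i ∧ f q = some i) :
    (∃ i, f x = some i ∧ f y = some i) ∨ (∃ z, Inc T f x y z) ∨
    (∃ a c i, f a = some i ∧ f c = some i ∧ {x, y, a, c} ∈ T) ∨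
    (∃ i j, f x = some i ∧ f y = some j ∧ y ∈ X i j) := by
  by_contra hcon
  push Not at hcon
  obtain ⟨hc1, hc2, hc3, hc4⟩ := hcon
  have symm : ∀ a c, {x, y, a, c} ∈ T → {x, y, c, a} ∈ T := by
    intro p q hpq
    rw [show ({x, y, q, p} : Finset V) = {x, y, p, q} by
      ext; simp only [mem_insert, mem_singleton]; tauto]
    exact hpq
  have xayc : ∀ a c, {x, y, a, c} ∈ T → {x, a, y, c} ∈ T := by
    intro a c h
    rw [show ({x, a, y, c} : Finset V) = {x, y, a, c} by
      ext; simp only [mem_insert, mem_singleton]; tauto]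
    exact h
  have yaxc : ∀ a c, {x, y, a, c} ∈ T → {y, a, x, c} ∈ T := by
    intro a c h
    rw [show ({y, a, x, c} : Finset V) = {x, y, a, c} by
      ext; simp only [mem_insert, mem_singleton]; tauto]
    exact h
  have xacy : ∀ a c, {x, y, a, c} ∈ T → {x, a, c, y} ∈ T := by
    intro a c h
    rw [show ({x, a, c, y} : Finset V) = {x, y, a, c} by
      ext; simp only [mem_insert, mem_singleton]; tauto]
    exact h
  have yacx : ∀ a c, {x, y, a, c} ∈ T → {y, a, c, x} ∈ T := by
    intro a c h
    rw [show ({y, a, c, x} : Finset V) = {x, y, a, c} by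
      ext; simp only [mem_insert, mem_singleton]; tauto]
    exact h
  obtain ⟨p, q, hpq⟩ := hT
  have hmain := cyc_main (fun a c => {x, y, a, c} ∈ T)
    (fun a => ∃ i, f x = some i ∧ f a = some i) (fun a => ∃ i, f y = some i ∧ f a = some i)
    symm (fun a c h => C.other x y a c h)
    (by
      intro a c h
      obtain ⟨p, hp, q, hq, hnn, i, hpi, hqi⟩ := hsp _ h (by simp) (by simp)
      simp only [mem_insert, mem_singleton] at hp hq
      rcases hp with rfl | rfl | rfl | rfl <;> rcases hq with rfl | rfl | rfl | rfl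
      · exact absurd rfl hnn
      · exact absurd hqi (hc1 i hpi)
      · exact Or.inl ⟨i, hpi, hqi⟩
      · exact Or.inr (Or.inr (Or.inl ⟨i, hpi, hqi⟩))
      · exact absurd hpi (hc1 i hqi)
      · exact absurd rfl hnn
      · exact Or.inr (Or.inl ⟨i, hpi, hqi⟩)
      · exact Or.inr (Or.inr (Or.inr ⟨i, hpi, hqi⟩))
      · exact Or.inl ⟨i, hqi, hpi⟩
      · exact Or.inr (Or.inl ⟨i, hqi, hpi⟩)
      · exact absurd rfl hnn
      · exact absurd h (hc3 _ _ i hpi hqi)
      · exact Or.inr (Or.inr (Or.inl ⟨i, hqi, hpi⟩))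
      · exact Or.inr (Or.inr (Or.inr ⟨i, hqi, hpi⟩))
      · exact absurd h (hc3 _ _ i hqi hpi)
      · exact absurd rfl hnn)
    (by
      rintro a c h ⟨i, hi, ha⟩ ⟨j, hj, hc⟩
      rw [hi] at hj
      obtain rfl : i = j := Option.some.inj hj
      exact C.two x a c y i (xacy a c h) hi ha hc)
    (by
      rintro a c h ⟨i, hi, ha⟩ ⟨j, hj, hc⟩
      rw [hi] at hj
      obtain rfl : i = j := Option.some.inj hj
      exact C.two y a c x i (yacx a c h) hi ha hc)
    (by
      rintro a c c' h h' - - ⟨i, hi, hc⟩ ⟨j, hj, hc'⟩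
      have hij : i ≠ j := by
        rintro rfl
        exact hc1 i hi hj
      exact hc2 a ⟨i, j, c, c', hij, hi, hj, hc, hc', h, h'⟩)
    (by
      rintro a c d a' c' d' ⟨i, hi, ha⟩ ⟨j, hj, hc⟩ ⟨k, hk, hd⟩ h1 h2 h3
      rw [hi] at hj hk
      obtain rfl : i = j := Option.some.inj hj
      obtain rfl : i = k := Option.some.inj hk
      by_contra hne
      push Not at hne
      exact C.m2 x a c d y a' y c' y d' i hi ha hc hd hne.1 hne.2.1 hne.2.2 (xayc _ _ h1)
        (xayc _ _ h2) (xayc _ _ h3))
    (by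
      rintro a c d a' c' d' ⟨i, hi, ha⟩ ⟨j, hj, hc⟩ ⟨k, hk, hd⟩ h1 h2 h3
      rw [hi] at hj hk
      obtain rfl : i = j := Option.some.inj hj
      obtain rfl : i = k := Option.some.inj hk
      by_contra hne
      push Not at hne
      exact C.m2 y a c d x a' x c' x d' i hi ha hc hd hne.1 hne.2.1 hne.2.2 (yaxc _ _ h1)
        (yaxc _ _ h2) (yaxc _ _ h3))
    hpq
  rcases hmain with ⟨a, c, d, e, had, hce, h1, h2, h3, h4⟩ |
    ⟨x1, o1, x2, y2, o2, y1, ⟨i, hi, hx1⟩, ⟨i', hi', hx2⟩, ⟨j, hj, hy2⟩, ⟨j', hj', hy1⟩, hx12,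
      hy12, hYo, -, h1, h2, h3, h4, h5, h6⟩
  · exact hdeg (deg_four C had hce h1 h2 h3 h4)
  · rw [hi] at hi'
    rw [hj] at hj'
    obtain rfl : i = i' := Option.some.inj hi'
    obtain rfl : j = j' := Option.some.inj hj'
    have ho1 : o1 ≠ y1 := by
      rintro rfl
      exact hYo ⟨j, hj, hy1⟩
    have ho2 : o1 ≠ y2 := by
      rintro rfl
      exact hYo ⟨j, hj, hy2⟩
    exact hc4 i j hi hj (C.six x y x1 o1 x2 y2 o2 y1 i j hi hx1 hx2 hj hy1 hy2 hx12 hy12 ho1 ho2
      h1 h2 h3 h4 h5 h6)

open Classical in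
/-- The ordered pairs with the same label. -/
noncomputable def Mono (T : Finset (Finset V)) (f : V → Option ι) : Finset (V × V) :=
  univ.filter fun q => q.1 ≠ q.2 ∧ (∃ i, f q.1 = some i ∧ f q.2 = some i) ∧
    ∃ c d, {q.1, q.2, c, d} ∈ T

open Classical in
/-- The neighbours with the same label. -/
noncomputable def Nb (T : Finset (Finset V)) (f : V → Option ι) (x : V) : Finset V :=
  univ.filter fun y => (x, y) ∈ Mono T f

theorem mem_Mono {x y : V} : (x, y) ∈ Mono T f ↔
    x ≠ y ∧ (∃ i, f x = some i ∧ f y = some i) ∧ ∃ c d, {x, y, c, d} ∈ T := by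
  classical
  simp [Mono]

theorem Nb_card (C : Core T f s X w S) (x : V) : (Nb T f x).card ≤ 2 := by
  classical
  by_contra hc
  push Not at hc
  obtain ⟨a, ha, b, hb, c, hc', hab, hac, hbc⟩ := two_lt_card.mp hc
  simp only [Nb, mem_filter, mem_univ, true_and, mem_Mono] at ha hb hc'
  obtain ⟨-, ⟨i, hi, hai⟩, c1, d1, h1⟩ := ha
  obtain ⟨-, ⟨j, hj, hbj⟩, c2, d2, h2⟩ := hb
  obtain ⟨-, ⟨k, hk, hck⟩, c3, d3, h3⟩ := hc'
  rw [hi] at hj hk
  obtain rfl : i = j := Option.some.inj hj
  obtain rfl : i = k := Option.some.inj hk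
  exact C.m2 x a b c c1 d1 c2 d2 c3 d3 i hi hai hbj hck hab hac hbc h1 h2 h3

theorem Mono_card (C : Core T f s X w S) : (Mono T f).card ≤ Fintype.card V * 2 := by
  classical
  have h1 : Mono T f ⊆ univ.biUnion fun x => (Nb T f x).image fun y => (x, y) := by
    rintro ⟨x, y⟩ hxy
    simp only [mem_biUnion, mem_univ, true_and, mem_image]
    exact ⟨x, y, by simp [Nb, hxy], rfl⟩
  calc (Mono T f).card ≤ _ := card_le_card h1
    _ ≤ (univ : Finset V).card * 2 := card_biUnion_le_card_mul _ _ _ fun x _ =>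
        card_image_le.trans (Nb_card C x)
    _ = _ := by rw [card_univ]

theorem quad_card (C : Core T f s X w S) (x y z : V) :
    (univ.filter fun d => {x, y, z, d} ∈ T).card ≤ 2 := by
  by_contra hc
  push Not at hc
  obtain ⟨a, ha, b, hb, c, hc', hab, hac, hbc⟩ := two_lt_card.mp hc
  simp only [mem_filter, mem_univ, true_and] at ha hb hc'
  obtain ⟨d', -, -, hu⟩ := C.other x y z a ha
  rcases hu b hb with h1 | h1
  · exact hab h1.symm
  · rcases hu c hc' with h2 | h2
    · exact hac h2.symm
    · exact hbc (h1.trans h2.symm)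

open Classical in
/-- The far pairs over a pair. -/
noncomputable def Fr (T : Finset (Finset V)) (f : V → Option ι) (s : ι → V → ℕ) (q : V × V) :
    Finset (V × V) :=
  univ.filter fun e => ∃ j, f q.1 = some j ∧ f q.2 = some j ∧ s j e.1 < s j e.2 ∧
    {q.1, q.2, e.1, e.2} ∈ T

theorem Fr_card (C : Core T f s X w S) (q : V × V) : (Fr T f s q).card ≤ S := by
  classical
  by_cases h : ∃ j, f q.1 = some j ∧ f q.2 = some j
  · obtain ⟨j, h1, h2⟩ := h
    refine le_trans (card_le_card ?_) (C.far j q.1 q.2 h1 h2)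
    intro e he
    simp only [Fr, mem_filter, mem_univ, true_and] at he ⊢
    obtain ⟨i, hi, -, h3, h4⟩ := he
    rw [h1] at hi
    obtain rfl : j = i := Option.some.inj hi
    exact ⟨h3, h4⟩
  · have : Fr T f s q = ∅ := by
      ext e
      simp only [Fr, mem_filter, mem_univ, true_and, notMem_empty, iff_false]
      rintro ⟨j, h1, h2, -⟩
      exact h ⟨j, h1, h2⟩
    rw [this]
    simp

open Classical in
/-- The exceptional ordered pairs of the first kind (near). -/
noncomputable def B1 (T : Finset (Finset V)) (f : V → Option ι) (s : ι → V → ℕ) :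
    Finset (V × V) :=
  univ.biUnion fun j : ι => univ.biUnion fun r : V =>
    (univ.filter fun p : V => s j p = s j r).biUnion fun p => (Nb T f p).biUnion fun p' =>
      (univ.filter fun q => {p, p', r, q} ∈ T).image fun q => (p, q)

theorem B1_card (C : Core T f s X w S) :
    (B1 T f s).card ≤ Fintype.card ι * (Fintype.card V * (w * (2 * 2))) := by
  classical
  unfold B1
  rw [← card_univ (α := ι), ← card_univ (α := V)]
  refine card_biUnion_le_card_mul _ _ _ fun j _ => ?_
  refine card_biUnion_le_card_mul _ _ _ fun r _ => ?_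
  refine (card_biUnion_le_card_mul _ _ (2 * 2) fun p _ => ?_).trans
    (Nat.mul_le_mul_right _ (C.sec_card j (s j r)))
  refine (card_biUnion_le_card_mul _ _ 2 fun p' _ => ?_).trans
    (Nat.mul_le_mul_right _ (Nb_card C p))
  exact card_image_le.trans (quad_card C _ _ _)

open Classical in
/-- The exceptional ordered pairs of the first kind (far). -/
noncomputable def B2 (T : Finset (Finset V)) (f : V → Option ι) (s : ι → V → ℕ) :
    Finset (V × V) :=
  (Mono T f).biUnion fun q => (Fr T f s q).image (fun e => (e.1, q.1)) ∪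
    (Fr T f s q).image (fun e => (e.2, q.1))

theorem B2_card (C : Core T f s X w S) :
    (B2 T f s).card ≤ Fintype.card V * 2 * (S + S) := by
  classical
  unfold B2
  refine (card_biUnion_le_card_mul _ _ (S + S) fun q _ => ?_).trans
    (Nat.mul_le_mul_right _ (Mono_card C))
  exact (card_union_le _ _).trans (add_le_add (card_image_le.trans (Fr_card C q))
    (card_image_le.trans (Fr_card C q)))

open Classical in
/-- The exceptional ordered pairs of the second kind (near). -/
noncomputable def B3 (s : ι → V → ℕ) : Finset (V × V) :=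
  univ.biUnion fun j : ι => univ.biUnion fun x : V =>
    (univ.filter fun y : V => s j y = s j x).image fun y => (x, y)

theorem B3_card (C : Core T f s X w S) :
    (B3 s).card ≤ Fintype.card ι * (Fintype.card V * w) := by
  classical
  unfold B3
  rw [← card_univ (α := ι), ← card_univ (α := V)]
  refine card_biUnion_le_card_mul _ _ _ fun j _ => ?_
  refine card_biUnion_le_card_mul _ _ _ fun r _ => ?_
  exact card_image_le.trans (C.sec_card j (s j r))

open Classical in
/-- The exceptional ordered pairs of the second kind (far). -/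
noncomputable def B4 (T : Finset (Finset V)) (f : V → Option ι) (s : ι → V → ℕ) :
    Finset (V × V) :=
  (Mono T f).biUnion fun q => (Fr T f s q) ∪ (Fr T f s q).image (fun e => (e.2, e.1))

theorem B4_card (C : Core T f s X w S) :
    (B4 T f s).card ≤ Fintype.card V * 2 * (S + S) := by
  classical
  unfold B4
  refine (card_biUnion_le_card_mul _ _ (S + S) fun q _ => ?_).trans
    (Nat.mul_le_mul_right _ (Mono_card C))
  exact (card_union_le _ _).trans (add_le_add (Fr_card C q)
    (card_image_le.trans (Fr_card C q)))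

open Classical in
/-- The exceptional ordered pairs of the third kind. -/
noncomputable def B5 (f : V → Option ι) (X : ι → ι → Finset V) : Finset (V × V) :=
  univ.biUnion fun x : V => univ.biUnion fun j : ι =>
    (univ.filter fun y : V => ∃ i, f x = some i ∧ y ∈ X i j).image fun y => (x, y)

theorem B5_card (C : Core T f s X w S) :
    (B5 f X).card ≤ Fintype.card V * (Fintype.card ι * 2) := by
  classical
  unfold B5
  rw [← card_univ (α := ι), ← card_univ (α := V)]
  refine card_biUnion_le_card_mul _ _ _ fun x _ => ?_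
  refine card_biUnion_le_card_mul _ _ _ fun j _ => ?_
  refine card_image_le.trans ?_
  by_cases h : ∃ i, f x = some i
  · obtain ⟨i, hi⟩ := h
    refine le_trans (card_le_card ?_) (C.xcard i j)
    intro y hy
    simp only [mem_filter, mem_univ, true_and] at hy
    obtain ⟨i', hi', hy⟩ := hy
    rw [hi] at hi'
    obtain rfl : i = i' := Option.some.inj hi'
    exact hy
  · have : (univ.filter fun y : V => ∃ i, f x = some i ∧ y ∈ X i j) = ∅ := by
      ext y
      simp only [mem_filter, mem_univ, true_and, notMem_empty, iff_false]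
      rintro ⟨i, hi, -⟩
      exact h ⟨i, hi⟩
    rw [this]
    simp

/-- The bad ordered pairs are exceptional. -/
theorem cover (C : Core T f s X w S) {x y : V} (hxy : x ≠ y) (hT : ∃ a c, {x, y, a, c} ∈ T)
    (hdeg : (T.filter fun t => x ∈ t ∧ y ∈ t).card ≠ 4)
    (hsp : ∀ t ∈ T, x ∈ t → y ∈ t → ∃ p ∈ t, ∃ q ∈ t, p ≠ q ∧ ∃ i, f p = some i ∧ f q = some i) :
    (x, y) ∈ Mono T f ∪ (B1 T f s ∪ (B2 T f s ∪ (B3 s ∪ (B4 T f s ∪ B5 f X)))) := by
  classical
  simp only [mem_union]
  rcases classify C hxy hT hdeg hsp with h | h | h | h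
  · left
    rw [mem_Mono]
    exact ⟨hxy, h, hT⟩
  · -- inconsistent triples
    obtain ⟨r, i, j, p', q', hij, hx, hy, hp', hq', h1, h2⟩ := h
    right
    have hd1 := four_ne (C.c4 _ h1)
    have hd2 := four_ne (C.c4 _ h2)
    -- the vertex `{y, q', x, r}`
    have h2' : {y, q', x, r} ∈ T := by
      rw [show ({y, q', x, r} : Finset V) = {x, y, r, q'} by
        ext; simp only [mem_insert, mem_singleton]; tauto]
      exact h2
    have h2'' : {y, q', r, x} ∈ T := by
      rw [show ({y, q', r, x} : Finset V) = {x, y, r, q'} by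
        ext; simp only [mem_insert, mem_singleton]; tauto]
      exact h2
    have hyq : (y, q') ∈ Mono T f := mem_Mono.mpr ⟨hd2.2.2.2.2.1, ⟨j, hy, hq'⟩, x, r, h2'⟩
    rcases lt_trichotomy (s j x) (s j r) with hlt | heq | hgt
    · right; left
      unfold B2
      rw [mem_biUnion]
      refine ⟨(y, q'), hyq, ?_⟩
      rw [mem_union]
      left
      rw [mem_image]
      refine ⟨(x, r), ?_, rfl⟩
      simp only [Fr, mem_filter, mem_univ, true_and]
      exact ⟨j, hy, hq', hlt, h2'⟩
    · left
      unfold B1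
      simp only [mem_biUnion, mem_univ, true_and, mem_image, mem_filter]
      refine ⟨j, r, x, heq, p', ?_, y, ?_, rfl⟩
      · simp only [Nb, mem_filter, mem_univ, true_and, mem_Mono]
        refine ⟨hd1.2.2.1, ⟨i, hx, hp'⟩, y, r, ?_⟩
        rw [show ({x, p', y, r} : Finset V) = {x, y, r, p'} by
          ext; simp only [mem_insert, mem_singleton]; tauto]
        exact h1
      · rw [show ({x, p', r, y} : Finset V) = {x, y, r, p'} by
          ext; simp only [mem_insert, mem_singleton]; tauto]
        exact h1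
    · right; left
      unfold B2
      rw [mem_biUnion]
      refine ⟨(y, q'), hyq, ?_⟩
      rw [mem_union]
      right
      rw [mem_image]
      refine ⟨(r, x), ?_, rfl⟩
      simp only [Fr, mem_filter, mem_univ, true_and]
      exact ⟨j, hy, hq', hgt, h2''⟩
  · -- the link contains a pair with one label
    obtain ⟨a, c, i, ha, hc, h1⟩ := h
    right; right; right
    have hd1 := four_ne (C.c4 _ h1)
    have h1' : {a, c, x, y} ∈ T := by
      rw [show ({a, c, x, y} : Finset V) = {x, y, a, c} by
        ext; simp only [mem_insert, mem_singleton]; tauto]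
      exact h1
    have h1'' : {a, c, y, x} ∈ T := by
      rw [show ({a, c, y, x} : Finset V) = {x, y, a, c} by
        ext; simp only [mem_insert, mem_singleton]; tauto]
      exact h1
    have hac : (a, c) ∈ Mono T f := mem_Mono.mpr ⟨hd1.2.2.2.2.2, ⟨i, ha, hc⟩, x, y, h1'⟩
    rcases lt_trichotomy (s i x) (s i y) with hlt | heq | hgt
    · right; left
      unfold B4
      rw [mem_biUnion]
      refine ⟨(a, c), hac, ?_⟩
      rw [mem_union]
      left
      simp only [Fr, mem_filter, mem_univ, true_and]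
      exact ⟨i, ha, hc, hlt, h1'⟩
    · left
      unfold B3
      simp only [mem_biUnion, mem_univ, true_and, mem_image, mem_filter]
      exact ⟨i, x, y, heq.symm, rfl⟩
    · right; left
      unfold B4
      rw [mem_biUnion]
      refine ⟨(a, c), hac, ?_⟩
      rw [mem_union]
      right
      rw [mem_image]
      refine ⟨(y, x), ?_, rfl⟩
      simp only [Fr, mem_filter, mem_univ, true_and]
      exact ⟨i, ha, hc, hgt, h1''⟩
  · obtain ⟨i, j, hx, -, hX⟩ := h
    right; right; right; right; right
    unfold B5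
    simp only [mem_biUnion, mem_univ, true_and, mem_image, mem_filter]
    exact ⟨x, j, y, ⟨i, hx, hX⟩, rfl⟩

open Classical in
/-- The bad ordered pairs. -/
noncomputable def Bad (T : Finset (Finset V)) (f : V → Option ι) : Finset (V × V) :=
  univ.filter fun e => e.1 ≠ e.2 ∧ (∃ a c, {e.1, e.2, a, c} ∈ T) ∧
    (T.filter fun t => e.1 ∈ t ∧ e.2 ∈ t).card ≠ 4 ∧
    ∀ t ∈ T, e.1 ∈ t → e.2 ∈ t → ∃ p ∈ t, ∃ q ∈ t, p ≠ q ∧ ∃ i, f p = some i ∧ f q = some i

/-- The number of the bad ordered pairs. -/
theorem bad_card (C : Core T f s X w S) :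
    (Bad T f).card ≤ 2 * Fintype.card V + 5 * (Fintype.card ι * Fintype.card V * w) +
      8 * (Fintype.card V * S) + 2 * (Fintype.card ι * Fintype.card V) := by
  classical
  have h1 : Bad T f ⊆ Mono T f ∪ (B1 T f s ∪ (B2 T f s ∪ (B3 s ∪ (B4 T f s ∪ B5 f X)))) := by
    rintro ⟨x, y⟩ he
    simp only [Bad, mem_filter, mem_univ, true_and] at he
    exact cover C he.1 he.2.1 he.2.2.1 he.2.2.2
  have h2 := card_le_card h1
  have c0 := Mono_card C
  have c1 := B1_card C
  have c2 := B2_card C
  have c3 := B3_card C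
  have c4 := B4_card C
  have c5 := B5_card C
  have u1 := card_union_le (Mono T f) (B1 T f s ∪ (B2 T f s ∪ (B3 s ∪ (B4 T f s ∪ B5 f X))))
  have u2 := card_union_le (B1 T f s) (B2 T f s ∪ (B3 s ∪ (B4 T f s ∪ B5 f X)))
  have u3 := card_union_le (B2 T f s) (B3 s ∪ (B4 T f s ∪ B5 f X))
  have u4 := card_union_le (B3 s) (B4 T f s ∪ B5 f X)
  have u5 := card_union_le (B4 T f s) (B5 f X)
  have e1 : Fintype.card ι * (Fintype.card V * (w * (2 * 2))) =
      4 * (Fintype.card ι * Fintype.card V * w) := by ring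
  have e2 : Fintype.card V * 2 * (S + S) = 4 * (Fintype.card V * S) := by ring
  have e3 : Fintype.card ι * (Fintype.card V * w) = Fintype.card ι * Fintype.card V * w := by
    ring
  have e4 : Fintype.card V * (Fintype.card ι * 2) = 2 * (Fintype.card ι * Fintype.card V) := by
    ring
  rw [e1] at c1
  rw [e2] at c2 c4
  rw [e3] at c3
  rw [e4] at c5
  omega

end Quad56
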