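import Pool.Agent.Quad56.Sec
import Pool.Agent.Quad56.Count

/-!
# Assembly

Working file of helper56 for MP_f8fadf_co.
-/

namespace Quad56

open Finset
open scoped InnerProductSpace

variable {n k : ℕ} {u : Fin n → E4} {b : Fin n → ℝ} {Λ : Fin k → Finset (Fin n)}

open Classical in
/-- The label of a facet: its pencil, if that has at least five members. -/
noncomputable def lab (Λ : Fin k → Finset (Fin n)) (x : Fin n) : Option (Fin k) :=
  if h : ∃ t, 5 ≤ (Λ t).card ∧ x ∈ Λ t then some h.choose else none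

theorem lab_iff (hd : ∀ s t, s ≠ t → Disjoint (Λ s) (Λ t)) {x : Fin n} {t : Fin k} :
    lab Λ x = some t ↔ 5 ≤ (Λ t).card ∧ x ∈ Λ t := by
  classical
  unfold lab
  constructor
  · intro h1
    split_ifs at h1 with h2
    have h3 := h2.choose_spec
    rw [Option.some.inj h1] at h3
    exact h3
  · intro h1
    have h2 : ∃ t, 5 ≤ (Λ t).card ∧ x ∈ Λ t := ⟨t, h1⟩
    rw [dif_pos h2]
    congr 1
    by_contra hne
    exact (Finset.disjoint_left.mp (hd _ _ hne)) h2.choose_spec.2 h1.2

open Classical in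
/-- The tangent facets. -/
noncomputable def XX (u : Fin n → E4) (b : Fin n → ℝ) (Λ : Fin k → Finset (Fin n))
    (A : Fin k → (E4 × ℝ) →ₗ[ℝ] ℂ) (i j : Fin k) : Finset (Fin n) :=
  univ.filter fun y => 5 ≤ (Λ j).card ∧ Ext u b (A i) (Λ j) y

theorem core (h : Simple4 u b) (hd : ∀ s t, s ≠ t → Disjoint (Λ s) (Λ t))
    (hp : ∀ t, Pencil u b (Λ t)) (A : Fin k → (E4 × ℝ) →ₗ[ℝ] ℂ)
    (hA : ∀ t, Module.finrank ℝ (Sp u b (Λ t)) = 3 → LinearMap.ker (A t) = Sp u b (Λ t))
    {w : ℕ} (hw : 0 < w) :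
    Core (tets u b) (lab Λ) (fun t x => sec u b (A t) w x) (XX u b Λ A) w (n / w + 2) where
  c4 t ht := (mem_tets.mp ht).1
  other x y z d hT := tet_other h hT
  conn x y P hP a0 c0 a1 c1 h0 hT0 hT1 := tet_conn h P hP h0 hT0 hT1
  two x y z d i hT hx hy hz := by
    obtain ⟨h5, hx⟩ := (lab_iff hd).mp hx
    obtain ⟨-, hy⟩ := (lab_iff hd).mp hy
    obtain ⟨-, hz⟩ := (lab_iff hd).mp hz
    have hdd := tet_distinct hT
    obtain ⟨-, p, hpP, hpa⟩ := mem_tets.mp hT
    exact le_two h hpP (hp i) h5 hdd.1 hdd.2.1 hdd.2.2.2.1 (by rw [hpa]; simp)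
      (by rw [hpa]; simp) (by rw [hpa]; simp) hx hy hz
  m2 y y1 y2 y3 c1 d1 c2 d2 c3 d3 i hy hy1 hy2 hy3 h12 h13 h23 hT1 hT2 hT3 := by
    obtain ⟨h5, hy⟩ := (lab_iff hd).mp hy
    obtain ⟨-, hy1⟩ := (lab_iff hd).mp hy1
    obtain ⟨-, hy2⟩ := (lab_iff hd).mp hy2
    obtain ⟨-, hy3⟩ := (lab_iff hd).mp hy3
    exact Quad56.m2 h (hp i) h5 hy hy1 hy2 hy3 h12 h13 h23 hT1 hT2 hT3
  sec_card i c := sec_card (A i) hw c
  far i x y hx hy := by
    obtain ⟨h5, hx⟩ := (lab_iff hd).mp hx
    obtain ⟨-, hy⟩ := (lab_iff hd).mp hy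
    exact sector h (hp i) h5 (hA i) hx hy
  xcard i j := by
    classical
    by_contra hc
    push Not at hc
    obtain ⟨a, ha, c, hc', e, he, hac, hae, hce⟩ := two_lt_card.mp hc
    simp only [XX, mem_filter, mem_univ, true_and] at ha hc' he
    exact ext_two h (hp j) ha.1 ha.2 hc'.2 he.2 hac hae hce
  six x y x1 o1 x2 y2 o2 y1 i j hx hx1 hx2 hy hy1 hy2 hx12 hy12 ho1 ho2 h1 h2 h3 h4 h5 h6 := by
    obtain ⟨hi5, hx⟩ := (lab_iff hd).mp hx
    obtain ⟨-, hx1⟩ := (lab_iff hd).mp hx1
    obtain ⟨-, hx2⟩ := (lab_iff hd).mp hx2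
    obtain ⟨hj5, hy⟩ := (lab_iff hd).mp hy
    obtain ⟨-, hy1⟩ := (lab_iff hd).mp hy1
    obtain ⟨-, hy2⟩ := (lab_iff hd).mp hy2
    simp only [XX, mem_filter, mem_univ, true_and]
    refine ⟨hj5, hy, y1, hy1, y2, hy2, hy12, ⟨x, x1, ?_⟩, ⟨x, x2, ?_⟩, ?_⟩
    · rw [show ({y, y1, x, x1} : Finset (Fin n)) = {x, y, y1, x1} by
        ext; simp only [mem_insert, mem_singleton]; tauto]
      exact h6
    · rw [show ({y, y2, x, x2} : Finset (Fin n)) = {x, y, x2, y2} by
        ext; simp only [mem_insert, mem_singleton]; tauto]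
      exact h3
    · have t1 : {x, x1, y, o1} ∈ tets u b := by
        rw [show ({x, x1, y, o1} : Finset (Fin n)) = {x, y, x1, o1} by
          ext; simp only [mem_insert, mem_singleton]; tauto]
        exact h1
      have t2 : {x, x1, y, y1} ∈ tets u b := by
        rw [show ({x, x1, y, y1} : Finset (Fin n)) = {x, y, y1, x1} by
          ext; simp only [mem_insert, mem_singleton]; tauto]
        exact h6
      have t3 : {x, x2, y, o1} ∈ tets u b := by
        rw [show ({x, x2, y, o1} : Finset (Fin n)) = {x, y, o1, x2} by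
          ext; simp only [mem_insert, mem_singleton]; tauto]
        exact h2
      have t4 : {x, x2, y, y2} ∈ tets u b := by
        rw [show ({x, x2, y, y2} : Finset (Fin n)) = {x, y, x2, y2} by
          ext; simp only [mem_insert, mem_singleton]; tauto]
        exact h3
      have s1 := w3 h (hp i) hi5 (hA i) hx hx1 t1 t2 ho1
      have s2 := w3 h (hp i) hi5 (hA i) hx hx2 t3 t4 ho2
      have s3 := mul_pos_of_neg_of_neg s1 s2
      by_contra hneg
      push Not at hneg
      have s4 := mul_nonpos_of_nonneg_of_nonpos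
        (mul_self_nonneg (om (A i) (vec u b y) (vec u b o1))) hneg
      nlinarith [s3, s4]

/-! ### the vertices of a 2-face -/

/-- The number of the vertices over a pair. -/
theorem over_card (h : Simple4 u b) (s : Finset (Fin n)) (hs : s.card = 2) :
    ((tets u b).filter fun t => s ⊆ t).card ≤ n := by
  classical
  obtain ⟨x, y, hxy, rfl⟩ := card_eq_two.mp hs
  have key := card_mul_le_card_mul (s := (tets u b).filter fun t => {x, y} ⊆ t)
    (t := (univ : Finset (Fin n)))
    (fun (t : Finset (Fin n)) (z : Fin n) => z ∈ t ∧ z ≠ x ∧ z ≠ y) (m := 2) (n := 2) ?_ ?_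
  · rw [card_univ, Fintype.card_fin] at key
    omega
  · intro t ht
    obtain ⟨htT, hts⟩ := mem_filter.mp ht
    have hx : x ∈ t := hts (by simp)
    have hy : y ∈ t := hts (by simp)
    obtain ⟨p, q, rfl⟩ := exists_pair (mem_tets.mp htT).1 hx hy hxy
    have hd := tet_distinct htT
    have h1 : ({p, q} : Finset (Fin n)) ⊆
        bipartiteAbove (fun (t : Finset (Fin n)) (z : Fin n) => z ∈ t ∧ z ≠ x ∧ z ≠ y) univ
          {x, y, p, q} := by
      intro z hz
      simp only [mem_insert, mem_singleton] at hz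
      rw [mem_bipartiteAbove]
      rcases hz with rfl | rfl
      · exact ⟨mem_univ _, by simp, hd.2.1.symm, hd.2.2.2.1.symm⟩
      · exact ⟨mem_univ _, by simp, hd.2.2.1.symm, hd.2.2.2.2.1.symm⟩
    calc 2 = ({p, q} : Finset (Fin n)).card := (card_pair hd.2.2.2.2.2).symm
      _ ≤ _ := card_le_card h1
  · intro z _
    by_contra hc
    push Not at hc
    obtain ⟨t1, ht1, t2, ht2, t3, ht3, h12, h13, h23⟩ := two_lt_card.mp hc
    rw [mem_bipartiteBelow] at ht1 ht2 ht3
    -- each of the three is `{x, y, z, p}`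
    have hform : ∀ t, t ∈ (tets u b).filter (fun t => {x, y} ⊆ t) →
        z ∈ t ∧ z ≠ x ∧ z ≠ y → ∃ p, {x, y, z, p} ∈ tets u b ∧ t = {x, y, z, p} := by
      intro t ht hz
      obtain ⟨htT, hts⟩ := mem_filter.mp ht
      have hx : x ∈ t := hts (by simp)
      have hy : y ∈ t := hts (by simp)
      obtain ⟨p, q, rfl⟩ := exists_pair (mem_tets.mp htT).1 hx hy hxy
      have hzz := hz.1
      simp only [mem_insert, mem_singleton] at hzz
      rcases hzz with h1 | h1 | h1 | h1
      · exact absurd h1 hz.2.1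
      · exact absurd h1 hz.2.2
      · exact ⟨q, by rw [h1]; exact htT, by rw [h1]⟩
      · refine ⟨p, ?_, ?_⟩
        · rw [h1, show ({x, y, q, p} : Finset (Fin n)) = {x, y, p, q} by
            ext; simp only [mem_insert, mem_singleton]; tauto]
          exact htT
        · rw [h1]
          ext; simp only [mem_insert, mem_singleton]; tauto
    obtain ⟨p1, hp1, rfl⟩ := hform t1 ht1.1 ht1.2
    obtain ⟨p2, hp2, rfl⟩ := hform t2 ht2.1 ht2.2
    obtain ⟨p3, hp3, rfl⟩ := hform t3 ht3.1 ht3.2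
    obtain ⟨d', -, -, hu⟩ := tet_other h hp1
    rcases hu p2 hp2 with e2 | e2
    · exact h12 (by rw [e2])
    · rcases hu p3 hp3 with e3 | e3
      · exact h13 (by rw [e3])
      · exact h23 (by rw [e2, e3])

/-- A nonempty intersection of two facets has a vertex. -/
theorem exists_vertex (h : Simple4 u b) {x y : Fin n} (hne : (Two u b x y).Nonempty) :
    (Set.extremePoints ℝ (Two u b x y)).Nonempty := by
  have hbd : Bornology.IsBounded (Two u b x y) := h.bdd.subset fun p hp => hp.1
  have hcl : IsClosed (Two u b x y) := by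
    have h1 : Two u b x y = (⋂ i, {p : E4 | ⟪u i, p⟫_ℝ ≤ b i}) ∩
        ({p : E4 | ⟪u x, p⟫_ℝ = b x} ∩ {p : E4 | ⟪u y, p⟫_ℝ = b y}) := by
      ext p
      simp only [Set.mem_inter_iff, Set.mem_iInter]
      rfl
    rw [h1]
    refine IsClosed.inter (isClosed_iInter fun i => isClosed_le (by fun_prop) continuous_const)
      (IsClosed.inter (isClosed_eq (by fun_prop) continuous_const)
        (isClosed_eq (by fun_prop) continuous_const))
  exact (Metric.isCompact_of_isClosed_isBounded hcl hbd).extremePoints_nonempty hne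

/-! ### the bad 2-faces -/

/-- The point `v` lies on two facets of one of the sets. -/
def Spc (u : Fin n → E4) (b : Fin n → ℝ) (Λ : Fin k → Finset (Fin n)) (v : E4) : Prop :=
  ∃ t, ∃ p ∈ Λ t, ∃ q ∈ Λ t, p ≠ q ∧ ⟪u p, v⟫_ℝ = b p ∧ ⟪u q, v⟫_ℝ = b q

open Classical in
/-- The 2-faces which are not 4-gons and whose vertices lie on two facets of one of the sets. -/
noncomputable def BadP (u : Fin n → E4) (b : Fin n → ℝ) (Λ : Fin k → Finset (Fin n)) :
    Finset (Fin n × Fin n) :=
  univ.filter fun e => e.1 < e.2 ∧ (Two u b e.1 e.2).Nonempty ∧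
    (Set.extremePoints ℝ (Two u b e.1 e.2)).ncard ≠ 4 ∧
    ∀ v ∈ Set.extremePoints ℝ (Two u b e.1 e.2), Spc u b Λ v

open Classical in
/-- The pairs of facets at a vertex on two facets of a small set. -/
noncomputable def Sml (u : Fin n → E4) (b : Fin n → ℝ) (Λ : Fin k → Finset (Fin n)) :
    Finset (Finset (Fin n)) :=
  univ.biUnion fun t => (if 5 ≤ (Λ t).card then ∅ else (Λ t).powersetCard 2).biUnion fun s =>
    ((tets u b).filter fun τ => s ⊆ τ).biUnion fun τ => τ.powersetCard 2

theorem sml_card (h : Simple4 u b) : (Sml u b Λ).card ≤ k * (6 * (n * 6)) := by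
  classical
  unfold Sml
  calc _ ≤ (univ : Finset (Fin k)).card * (6 * (n * 6)) := by
        refine card_biUnion_le_card_mul _ _ _ fun t _ => ?_
        by_cases h5 : 5 ≤ (Λ t).card
        · rw [if_pos h5]
          simp
        · rw [if_neg h5]
          refine (card_biUnion_le_card_mul _ _ (n * 6) fun s hs => ?_).trans
            (Nat.mul_le_mul_right _ ?_)
          · refine (card_biUnion_le_card_mul _ _ 6 fun τ hτ => ?_).trans
              (Nat.mul_le_mul_right _ (over_card h s (mem_powersetCard.mp hs).2))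
            rw [card_powersetCard, (mem_tets.mp (mem_filter.mp hτ).1).1]
            decide
          · rw [card_powersetCard]
            calc ((Λ t).card).choose 2 ≤ (4 : ℕ).choose 2 := Nat.choose_le_choose 2 (by omega)
              _ = 6 := by decide
    _ = _ := by rw [card_univ, Fintype.card_fin]

/-- A bad 2-face is a bad pair of the core or comes from a small set. -/
theorem badP_cover (h : Simple4 u b) (hd : ∀ s t, s ≠ t → Disjoint (Λ s) (Λ t))
    {e : Fin n × Fin n} (he : e ∈ BadP u b Λ) :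
    ({e.1, e.2} : Finset (Fin n)) ∈ Sml u b Λ ∨
      (e ∈ Bad (tets u b) (lab Λ) ∧ (e.2, e.1) ∈ Bad (tets u b) (lab Λ)) := by
  classical
  by_cases hsm : ({e.1, e.2} : Finset (Fin n)) ∈ Sml u b Λ
  · exact Or.inl hsm
  right
  obtain ⟨x, y⟩ := e
  simp only [BadP, mem_filter, mem_univ, true_and] at he hsm ⊢
  obtain ⟨hlt, hne, hdeg, hsp⟩ := he
  have hxy : x ≠ y := hlt.ne
  obtain ⟨v0, hv0⟩ := exists_vertex h hne
  have hv0' := (extreme_iff h).mp hv0
  have hex : ∃ a c, {x, y, a, c} ∈ tets u b := by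
    obtain ⟨p, q, hpq⟩ := exists_pair hv0'.2.1 hv0'.2.2.1 hv0'.2.2.2 hxy
    exact ⟨p, q, mem_tets.mpr ⟨by rw [← hpq]; exact hv0'.2.1, v0, hv0'.1, hpq⟩⟩
  rw [ncard_extreme h] at hdeg
  have hall : ∀ t ∈ tets u b, x ∈ t → y ∈ t →
      ∃ p ∈ t, ∃ q ∈ t, p ≠ q ∧ ∃ i, lab Λ p = some i ∧ lab Λ q = some i := by
    intro t ht hx hy
    obtain ⟨h4, v, hv, hva⟩ := mem_tets.mp ht
    have hve : v ∈ Set.extremePoints ℝ (Two u b x y) :=
      (extreme_iff h).mpr ⟨hv, by rw [hva, h4], by rw [hva]; exact hx, by rw [hva]; exact hy⟩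
    obtain ⟨i, p, hp, q, hq, hpq, hpv, hqv⟩ := hsp v hve
    have hpt : p ∈ t := by rw [← hva, mem_act]; exact hpv
    have hqt : q ∈ t := by rw [← hva, mem_act]; exact hqv
    by_cases h5 : 5 ≤ (Λ i).card
    · exact ⟨p, hpt, q, hqt, hpq, i, (lab_iff hd).mpr ⟨h5, hp⟩, (lab_iff hd).mpr ⟨h5, hq⟩⟩
    · exfalso
      apply hsm
      unfold Sml
      simp only [mem_biUnion, mem_univ, true_and]
      refine ⟨i, {p, q}, ?_, t, ?_, ?_⟩
      · rw [if_neg h5, mem_powersetCard]
        refine ⟨?_, card_pair hpq⟩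
        intro z hz
        simp only [mem_insert, mem_singleton] at hz
        rcases hz with rfl | rfl
        · exact hp
        · exact hq
      · rw [mem_filter]
        refine ⟨ht, ?_⟩
        intro z hz
        simp only [mem_insert, mem_singleton] at hz
        rcases hz with rfl | rfl
        · exact hpt
        · exact hqt
      · rw [mem_powersetCard]
        refine ⟨?_, card_pair hxy⟩
        intro z hz
        simp only [mem_insert, mem_singleton] at hz
        rcases hz with rfl | rfl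
        · exact hx
        · exact hy
  simp only [Bad, mem_filter, mem_univ, true_and]
  refine ⟨⟨hxy, hex, hdeg, hall⟩, hxy.symm, ?_, ?_, fun t ht h1 h2 => hall t ht h2 h1⟩
  · obtain ⟨a, c, hac⟩ := hex
    refine ⟨a, c, ?_⟩
    rw [show ({y, x, a, c} : Finset (Fin n)) = {x, y, a, c} by
      ext; simp only [mem_insert, mem_singleton]; tauto]
    exact hac
  · have : ((tets u b).filter fun t => y ∈ t ∧ x ∈ t) =
        (tets u b).filter fun t => x ∈ t ∧ y ∈ t := by
      ext t
      simp only [mem_filter]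
      tauto
    rw [this]
    exact hdeg

theorem pair_inj {e e' : Fin n × Fin n} (h1 : e.1 < e.2) (h2 : e'.1 < e'.2)
    (h : ({e.1, e.2} : Finset (Fin n)) = {e'.1, e'.2}) : e = e' := by
  obtain ⟨x, y⟩ := e
  obtain ⟨x', y'⟩ := e'
  simp only at h1 h2 h
  have hx : x ∈ ({x', y'} : Finset (Fin n)) := by rw [← h]; simp
  have hy : y ∈ ({x', y'} : Finset (Fin n)) := by rw [← h]; simp
  simp only [mem_insert, mem_singleton] at hx hy
  rcases hx with rfl | rfl <;> rcases hy with rfl | rfl
  · exact absurd h1 (lt_irrefl _)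
  · rfl
  · exact absurd (h1.trans h2) (lt_irrefl _)
  · exact absurd h1 (lt_irrefl _)

/-- The count in natural numbers. -/
theorem badP_card (h : Simple4 u b) (hd : ∀ s t, s ≠ t → Disjoint (Λ s) (Λ t))
    (hp : ∀ t, Pencil u b (Λ t)) {w : ℕ} (hw : 0 < w) :
    2 * (BadP u b Λ).card ≤ 72 * (k * n) + (2 * n + 5 * (k * n * w) +
      8 * (n * (n / w + 2)) + 2 * (k * n)) := by
  classical
  choose A hA using fun t => exists_proj u b (Λ t)
  have hC := core h hd hp A hA hw
  have hbad := bad_card hC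
  rw [Fintype.card_fin, Fintype.card_fin] at hbad
  set P1 := (BadP u b Λ).filter fun e => ({e.1, e.2} : Finset (Fin n)) ∈ Sml u b Λ with hP1
  set P2 := (BadP u b Λ).filter fun e => ¬ ({e.1, e.2} : Finset (Fin n)) ∈ Sml u b Λ with hP2
  have hsplit : P1.card + P2.card = (BadP u b Λ).card := card_filter_add_card_filter_not _
  have hlt : ∀ e ∈ BadP u b Λ, e.1 < e.2 := by
    intro e he
    simp only [BadP, mem_filter, mem_univ, true_and] at he
    exact he.1
  have h1 : P1.card ≤ k * (6 * (n * 6)) := by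
    refine le_trans ?_ (sml_card (Λ := Λ) h)
    apply card_le_card_of_injOn (fun e : Fin n × Fin n => ({e.1, e.2} : Finset (Fin n)))
    · intro e he
      exact (mem_filter.mp he).2
    · intro e he e' he' hee
      exact pair_inj (hlt e (mem_filter.mp he).1) (hlt e' (mem_filter.mp he').1) hee
  have h2 : 2 * P2.card ≤ (Bad (tets u b) (lab Λ)).card := by
    have hsub : P2 ∪ P2.image Prod.swap ⊆ Bad (tets u b) (lab Λ) := by
      intro e he
      rw [mem_union, mem_image] at he
      rcases he with he | ⟨e', he', rfl⟩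
      · obtain ⟨ha, hb⟩ := mem_filter.mp he
        rcases badP_cover h hd ha with h3 | h3
        · exact absurd h3 hb
        · exact h3.1
      · obtain ⟨ha, hb⟩ := mem_filter.mp he'
        rcases badP_cover h hd ha with h3 | h3
        · exact absurd h3 hb
        · exact h3.2
    have hdis : Disjoint P2 (P2.image Prod.swap) := by
      rw [Finset.disjoint_left]
      intro e he he'
      obtain ⟨e'', he'', rfl⟩ := mem_image.mp he'
      have a1 := hlt _ (mem_filter.mp he).1
      have a2 := hlt _ (mem_filter.mp he'').1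
      exact absurd (a1.trans a2) (lt_irrefl _)
    have hc := card_le_card hsub
    rw [card_union_of_disjoint hdis, card_image_of_injective _ Prod.swap_injective] at hc
    omega
  have e1 : k * (6 * (n * 6)) = 36 * (k * n) := by ring
  rw [e1] at h1
  omega

/-- The theorem. -/
theorem main (h : Simple4 u b) (hd : ∀ s t, s ≠ t → Disjoint (Λ s) (Λ t))
    (hp : ∀ t, Pencil u b (Λ t)) :
    ((BadP u b Λ).card : ℝ) ≤ 55 * √((k : ℝ) * (n : ℝ) ^ 3) := by
  classical
  have hR : (0 : ℝ) ≤ √((k : ℝ) * (n : ℝ) ^ 3) := Real.sqrt_nonneg _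
  rcases Nat.eq_zero_or_pos k with hk0 | hk
  · -- no sets: a 2-face has a vertex
    have : BadP u b Λ = ∅ := by
      rw [Finset.eq_empty_iff_forall_notMem]
      intro e he
      simp only [BadP, mem_filter, mem_univ, true_and] at he
      obtain ⟨-, hne, -, hsp⟩ := he
      obtain ⟨v, hv⟩ := exists_vertex h hne
      obtain ⟨t, -⟩ := hsp v hv
      subst hk0
      exact t.elim0
    rw [this, card_empty, Nat.cast_zero]
    positivity
  rcases Nat.eq_zero_or_pos n with hn0 | hn
  · subst hn0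
    have : BadP u b Λ = ∅ := by
      rw [Finset.eq_empty_iff_forall_notMem]
      intro e
      exact e.1.elim0
    rw [this, card_empty, Nat.cast_zero]
    positivity
  have hk' : (1 : ℝ) ≤ k := by exact_mod_cast hk
  have hn' : (1 : ℝ) ≤ n := by exact_mod_cast hn
  rcases Nat.lt_or_ge n k with hnk | hkn
  · -- more pencils than facets
    have h1 : (BadP u b Λ).card ≤ n * n := by
      calc (BadP u b Λ).card ≤ (univ : Finset (Fin n × Fin n)).card := card_le_card (subset_univ _)
        _ = n * n := by rw [card_univ, Fintype.card_prod, Fintype.card_fin]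
    have h2 : ((BadP u b Λ).card : ℝ) ≤ (n : ℝ) * n := by exact_mod_cast h1
    have h3 : (n : ℝ) * n ≤ √((k : ℝ) * (n : ℝ) ^ 3) := by
      apply Real.le_sqrt_of_sq_le
      have h4 : (n : ℝ) ≤ k := by exact_mod_cast hnk.le
      calc ((n : ℝ) * n) ^ 2 = n * (n : ℝ) ^ 3 := by ring
        _ ≤ k * (n : ℝ) ^ 3 := mul_le_mul_of_nonneg_right h4 (by positivity)
    linarith
  have hkn' : (k : ℝ) ≤ n := by exact_mod_cast hkn
  set r : ℝ := √((n : ℝ) / k) with hr
  have hk0 : (0 : ℝ) < k := by linarith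
  have hn0 : (0 : ℝ) < n := by linarith
  have hr1 : 1 ≤ r := by
    rw [hr]
    apply Real.one_le_sqrt.mpr
    rw [le_div_iff₀ hk0]
    linarith
  have hrr : r * r = n / k := Real.mul_self_sqrt (by positivity)
  set w : ℕ := ⌈r⌉₊ with hw
  have hwr : r ≤ w := Nat.le_ceil r
  have hwr' : (w : ℝ) < r + 1 := Nat.ceil_lt_add_one (by linarith)
  have hw0 : 0 < w := by
    have : (0 : ℝ) < w := by linarith
    exact_mod_cast this
  have hcard := badP_card h hd hp hw0
  set Q : ℝ := √((k : ℝ) * (n : ℝ) ^ 3) with hQ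
  have hQ1 : Q = k * n * r := by
    rw [hQ, Real.sqrt_eq_iff_mul_self_eq (by positivity) (by positivity)]
    symm
    calc (k * n * r) * (k * n * r) = k * k * n * n * (r * r) := by ring
      _ = k * n ^ 3 := by
        rw [hrr]
        field_simp
  have hdiv : ((n / w : ℕ) : ℝ) ≤ k * r := by
    calc ((n / w : ℕ) : ℝ) ≤ (n : ℝ) / w := Nat.cast_div_le
      _ ≤ n / r := div_le_div_of_nonneg_left hn0.le (by linarith) hwr
      _ = k * r := by
        rw [div_eq_iff (by linarith)]
        calc (n : ℝ) = k * (n / k) := by field_simp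
          _ = k * r * r := by rw [← hrr]; ring
  have hcard' : (2 : ℝ) * (BadP u b Λ).card ≤ 72 * (k * n) + (2 * n + 5 * (k * n * w) +
      8 * (n * ((n / w : ℕ) + 2)) + 2 * (k * n)) := by exact_mod_cast hcard
  have hkn0 : (0 : ℝ) ≤ k * n := by positivity
  have e1 : (k : ℝ) * n * w ≤ k * n * (r + 1) := mul_le_mul_of_nonneg_left hwr'.le hkn0
  have e2 : (n : ℝ) * ((n / w : ℕ) + 2) ≤ n * (k * r + 2) :=
    mul_le_mul_of_nonneg_left (by linarith) hn0.le
  have e3 : (k : ℝ) * n ≤ k * n * r := le_mul_of_one_le_right hkn0 hr1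
  have e4 : (n : ℝ) ≤ k * n := le_mul_of_one_le_left hn0.le hk'
  rw [hQ1]
  nlinarith

end Quad56
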