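import Pool.Agent.Quad56.Asm

/-!
# One pencil: the cyclic order

Working file of helper56 for MP_f8fadf_co.
-/

namespace Quad56

open Finset
open scoped InnerProductSpace

variable {n : ℕ} {u : Fin n → E4} {b : Fin n → ℝ}

/-- Three vectors with zero determinant are dependent. -/
theorem dep3 (x y z : Fin 3 → ℝ) (h : x 0 * (y 1 * z 2 - y 2 * z 1) -
    x 1 * (y 0 * z 2 - y 2 * z 0) + x 2 * (y 0 * z 1 - y 1 * z 0) = 0) :
    ∃ α β γ : ℝ, (α ≠ 0 ∨ β ≠ 0 ∨ γ ≠ 0) ∧ ∀ m, α * x m + β * y m + γ * z m = 0 := by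
  have h1 : (Matrix.of ![x, y, z]).det = 0 := by
    rw [Matrix.det_fin_three]
    simp only [Matrix.of_apply, Matrix.cons_val_zero, Matrix.cons_val_one, Matrix.cons_val]
    linarith
  obtain ⟨v, hv, h2⟩ := Matrix.exists_vecMul_eq_zero_iff.mpr h1
  refine ⟨v 0, v 1, v 2, ?_, fun m => ?_⟩
  · by_contra hc
    push Not at hc
    apply hv
    funext i
    fin_cases i
    · exact hc.1
    · exact hc.2.1
    · exact hc.2.2
  · have h3 := congrFun h2 m
    rw [Matrix.vecMul, dotProduct, Fin.sum_univ_three] at h3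
    exact h3

/-- The determinant of three vectors in coordinates `B`. -/
noncomputable def Dt (B : (E4 × ℝ) →ₗ[ℝ] (Fin 3 → ℝ)) (x y z : E4 × ℝ) : ℝ :=
  B x 0 * (B y 1 * B z 2 - B y 2 * B z 1) - B x 1 * (B y 0 * B z 2 - B y 2 * B z 0) +
    B x 2 * (B y 0 * B z 1 - B y 1 * B z 0)

/-- Coordinates on the span of a pencil. -/
theorem exists_coord (u : Fin n → E4) (b : Fin n → ℝ) (L : Finset (Fin n))
    (hf : Module.finrank ℝ (Sp u b L) = 3) :
    ∃ B : (E4 × ℝ) →ₗ[ℝ] (Fin 3 → ℝ), ∀ w ∈ Sp u b L, B w = 0 → w = 0 := by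
  have h1 : Module.finrank ℝ (Sp u b L) = Module.finrank ℝ (Fin 3 → ℝ) := by
    rw [hf, Module.finrank_fin_fun]
  obtain ⟨g, hg⟩ := LinearMap.exists_extend (LinearEquiv.ofFinrankEq _ _ h1).toLinearMap
  refine ⟨g, fun w hw h0 => ?_⟩
  have h2 := LinearMap.congr_fun hg ⟨w, hw⟩
  have h3 : g w = (LinearEquiv.ofFinrankEq _ _ h1) ⟨w, hw⟩ := h2
  rw [h0] at h3
  have h4 := (LinearEquiv.map_eq_zero_iff _).mp h3.symm
  exact congrArg Subtype.val h4

section Order

variable {L : Finset (Fin n)} {B : (E4 × ℝ) →ₗ[ℝ] (Fin 3 → ℝ)}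
  (hB : ∀ w ∈ Sp u b L, B w = 0 → w = 0)

include hB

/-- The linear relation between four vectors of the span. -/
theorem rel4 {x y z w : E4 × ℝ} (hx : x ∈ Sp u b L) (hy : y ∈ Sp u b L) (hz : z ∈ Sp u b L)
    (hw : w ∈ Sp u b L) :
    Dt B y z w • x - Dt B x z w • y + Dt B x y w • z - Dt B x y z • w = 0 := by
  apply hB
  · exact Submodule.sub_mem _ (Submodule.add_mem _ (Submodule.sub_mem _
      (Submodule.smul_mem _ _ hx) (Submodule.smul_mem _ _ hy)) (Submodule.smul_mem _ _ hz))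
      (Submodule.smul_mem _ _ hw)
  · rw [map_sub, map_add, map_sub, map_smul, map_smul, map_smul, map_smul]
    ext i
    fin_cases i
    · simp only [Pi.sub_apply, Pi.add_apply, Pi.smul_apply, smul_eq_mul, Pi.zero_apply,
        Fin.zero_eta]
      unfold Dt
      ring
    · simp only [Pi.sub_apply, Pi.add_apply, Pi.smul_apply, smul_eq_mul, Pi.zero_apply,
        Fin.mk_one]
      unfold Dt
      ring
    · simp only [Pi.sub_apply, Pi.add_apply, Pi.smul_apply, smul_eq_mul, Pi.zero_apply,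
        Fin.reduceFinMk]
      unfold Dt
      ring

/-- The relation evaluated at a linear functional. -/
theorem rel4_ev (φ : (E4 × ℝ) →ₗ[ℝ] ℝ) {x y z w : E4 × ℝ} (hx : x ∈ Sp u b L)
    (hy : y ∈ Sp u b L) (hz : z ∈ Sp u b L) (hw : w ∈ Sp u b L) :
    Dt B y z w * φ x - Dt B x z w * φ y + Dt B x y w * φ z - Dt B x y z * φ w = 0 := by
  have h := congrArg φ (rel4 hB hx hy hz hw)
  rw [map_sub, map_add, map_sub, map_smul, map_smul, map_smul, map_smul, map_zero] at h
  simpa only [smul_eq_mul] using h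

end Order

/-- `i` comes before `j` in the cyclic order which starts at `o`. -/
def bf (u : Fin n → E4) (b : Fin n → ℝ) (B : (E4 × ℝ) →ₗ[ℝ] (Fin 3 → ℝ)) (o i j : Fin n) : Prop :=
  0 < Dt B (vec u b o) (vec u b i) (vec u b j)

theorem Dt_swap (B : (E4 × ℝ) →ₗ[ℝ] (Fin 3 → ℝ)) (x y z : E4 × ℝ) :
    Dt B x z y = - Dt B x y z := by
  unfold Dt; ring

theorem Dt_self (B : (E4 × ℝ) →ₗ[ℝ] (Fin 3 → ℝ)) (x y : E4 × ℝ) : Dt B x y y = 0 := by
  unfold Dt; ring

section Chain

variable (h : Simple4 u b) {L : Finset (Fin n)} {B : (E4 × ℝ) →ₗ[ℝ] (Fin 3 → ℝ)}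
  (hB : ∀ w ∈ Sp u b L, B w = 0 → w = 0) {o : Fin n} (ho : o ∈ L)

include h hB ho

theorem bf_irrefl {i : Fin n} : ¬ bf u b B o i i := by
  unfold bf
  rw [Dt_self]
  exact lt_irrefl _

theorem bf_asymm {i j : Fin n} (h1 : bf u b B o i j) : ¬ bf u b B o j i := by
  unfold bf at *
  rw [Dt_swap]
  linarith

theorem bf_trans {i j k : Fin n} (hi : i ∈ L) (hj : j ∈ L) (hk : k ∈ L) (hjo : j ≠ o)
    (h1 : bf u b B o i j) (h2 : bf u b B o j k) : bf u b B o i k := by
  obtain ⟨p, hp, hpa⟩ := h.facet o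
  have hr := rel4_ev hB (ev p) (vec_mem (b := b) (u := u) ho) (vec_mem hi) (vec_mem hj)
    (vec_mem hk)
  have e0 : ev p (vec u b o) = 0 := ev_zero.mpr (by rw [hpa]; simp)
  have ej : 0 < ev p (vec u b j) := ev_pos hp (by rw [hpa]; simpa using hjo)
  have ei := ev_nonneg (u := u) (b := b) hp i
  have ek := ev_nonneg (u := u) (b := b) hp k
  unfold bf at *
  rw [e0, mul_zero, zero_sub] at hr
  -- `D(o,i,k) ev j = D(o,j,k) ev i + D(o,i,j) ev k`
  have h3 : Dt B (vec u b o) (vec u b i) (vec u b k) * ev p (vec u b j) =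
      Dt B (vec u b o) (vec u b j) (vec u b k) * ev p (vec u b i) +
        Dt B (vec u b o) (vec u b i) (vec u b j) * ev p (vec u b k) := by linarith
  by_cases hio : i = o
  · exfalso
    rw [hio] at h1
    have : Dt B (vec u b o) (vec u b o) (vec u b j) = 0 := by unfold Dt; ring
    linarith
  have ei' : 0 < ev p (vec u b i) := ev_pos hp (by rw [hpa]; simpa using hio)
  have h4 : 0 < Dt B (vec u b o) (vec u b i) (vec u b k) * ev p (vec u b j) := by
    rw [h3]
    exact add_pos_of_pos_of_nonneg (mul_pos h2 ei') (mul_nonneg h1.le ek)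
  exact (mul_pos_iff_of_pos_right ej).mp h4

theorem bf_total {i j : Fin n} (hi : i ∈ L) (hj : j ∈ L) (hio : i ≠ o) (hjo : j ≠ o)
    (hij : i ≠ j) : bf u b B o i j ∨ bf u b B o j i := by
  rcases lt_trichotomy (Dt B (vec u b o) (vec u b i) (vec u b j)) 0 with h1 | h1 | h1
  · right
    unfold bf
    rw [Dt_swap]
    linarith
  · exfalso
    -- `o, i, j` are dependent
    obtain ⟨p, hp, hpa⟩ := h.facet i
    obtain ⟨q, hq, hqa⟩ := h.facet j
    obtain ⟨r, hr, hra⟩ := h.facet o
    have pi0 : ev p (vec u b i) = 0 := ev_zero.mpr (by rw [hpa]; simp)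
    have pj : 0 < ev p (vec u b j) := ev_pos hp (by rw [hpa]; simpa using hij.symm)
    have po : 0 < ev p (vec u b o) := ev_pos hp (by rw [hpa]; simpa using hio.symm)
    have qj0 : ev q (vec u b j) = 0 := ev_zero.mpr (by rw [hqa]; simp)
    have qi : 0 < ev q (vec u b i) := ev_pos hq (by rw [hqa]; simpa using hij)
    have qo : 0 < ev q (vec u b o) := ev_pos hq (by rw [hqa]; simpa using hjo.symm)
    have ro0 : ev r (vec u b o) = 0 := ev_zero.mpr (by rw [hra]; simp)
    have ri : 0 < ev r (vec u b i) := ev_pos hr (by rw [hra]; simpa using hio)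
    have rj : 0 < ev r (vec u b j) := ev_pos hr (by rw [hra]; simpa using hjo)
    have hdep : ∃ α β γ : ℝ, (α ≠ 0 ∨ β ≠ 0 ∨ γ ≠ 0) ∧
        α • vec u b o + β • vec u b i + γ • vec u b j = 0 := by
      obtain ⟨α, β, γ, hne, h8⟩ := dep3 (B (vec u b o)) (B (vec u b i)) (B (vec u b j)) h1
      refine ⟨α, β, γ, hne, hB _ ?_ ?_⟩
      · exact Submodule.add_mem _ (Submodule.add_mem _
          (Submodule.smul_mem _ _ (vec_mem ho)) (Submodule.smul_mem _ _ (vec_mem hi)))
          (Submodule.smul_mem _ _ (vec_mem hj))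
      · rw [map_add, map_add, map_smul, map_smul, map_smul]
        ext m
        exact h8 m
    obtain ⟨α, β, γ, hne, hdep⟩ := hdep
    have e1 := congrArg (ev p) hdep
    have e2 := congrArg (ev q) hdep
    have e3 := congrArg (ev r) hdep
    rw [map_add, map_add, map_smul, map_smul, map_smul, map_zero, pi0, smul_zero, add_zero,
      smul_eq_mul, smul_eq_mul] at e1
    rw [map_add, map_add, map_smul, map_smul, map_smul, map_zero, qj0, smul_zero, add_zero,
      smul_eq_mul, smul_eq_mul] at e2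
    rw [map_add, map_add, map_smul, map_smul, map_smul, map_zero, ro0, smul_zero, zero_add,
      smul_eq_mul, smul_eq_mul] at e3
    -- `α po = -γ pj`, `α qo = -β qi`, `β ri = -γ rj`
    rcases lt_trichotomy α 0 with ha | ha | ha
    · have hγ : 0 < γ := by
        by_contra hc
        push Not at hc
        nlinarith [mul_neg_of_neg_of_pos ha po, mul_nonpos_of_nonpos_of_nonneg hc pj.le]
      have hβ : 0 < β := by
        by_contra hc
        push Not at hc
        nlinarith [mul_neg_of_neg_of_pos ha qo, mul_nonpos_of_nonpos_of_nonneg hc qi.le]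
      nlinarith [mul_pos hβ ri, mul_pos hγ rj]
    · rw [ha, zero_mul, zero_add] at e1 e2
      have hγ : γ = 0 := (mul_eq_zero.mp e1).resolve_right pj.ne'
      have hβ : β = 0 := (mul_eq_zero.mp e2).resolve_right qi.ne'
      rcases hne with h9 | h9 | h9
      · exact h9 ha
      · exact h9 hβ
      · exact h9 hγ
    · have hγ : γ < 0 := by
        by_contra hc
        push Not at hc
        nlinarith [mul_pos ha po, mul_nonneg hc pj.le]
      have hβ : β < 0 := by
        by_contra hc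
        push Not at hc
        nlinarith [mul_pos ha qo, mul_nonneg hc qi.le]
      nlinarith [mul_neg_of_neg_of_pos hβ ri, mul_neg_of_neg_of_pos hγ rj]
  · left
    exact h1

/-- Three facets in order have a positive determinant. -/
theorem bf_pos {i j k : Fin n} (hi : i ∈ L) (hj : j ∈ L) (hk : k ∈ L) (hjo : j ≠ o)
    (h1 : bf u b B o i j) (h2 : bf u b B o j k) :
    0 < Dt B (vec u b i) (vec u b j) (vec u b k) := by
  obtain ⟨p, hp, hpa⟩ := h.facet j
  have hr := rel4_ev hB (ev p) (vec_mem (b := b) (u := u) ho) (vec_mem hi) (vec_mem hj)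
    (vec_mem hk)
  have ej : ev p (vec u b j) = 0 := ev_zero.mpr (by rw [hpa]; simp)
  have eo : 0 < ev p (vec u b o) := ev_pos hp (by rw [hpa]; simpa using hjo.symm)
  have hij : i ≠ j := fun hc => by
    rw [hc] at h1
    exact bf_irrefl h hB ho h1
  have ei : 0 < ev p (vec u b i) := ev_pos hp (by rw [hpa]; simpa using hij)
  have ek := ev_nonneg (u := u) (b := b) hp k
  unfold bf at *
  rw [ej, mul_zero, add_zero] at hr
  have h3 : 0 < Dt B (vec u b i) (vec u b j) (vec u b k) * ev p (vec u b o) := by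
    have := add_pos_of_pos_of_nonneg (mul_pos h2 ei) (mul_nonneg h1.le ek)
    linarith
  exact (mul_pos_iff_of_pos_right eo).mp h3

/-- Adjacent facets of the pencil are consecutive in the order. -/
theorem no_between (hL : Pencil u b L) (h5 : 5 ≤ L.card) {i j k c d : Fin n} (hi : i ∈ L)
    (hj : j ∈ L) (hk : k ∈ L) (hio : i ≠ o) (hjo : j ≠ o) (hko : k ≠ o)
    (hT : {i, k, c, d} ∈ tets u b) (h1 : bf u b B o i j) (h2 : bf u b B o j k) : False := by
  obtain ⟨-, v, hv, hva⟩ := mem_tets.mp hT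
  have hd := tet_distinct hT
  have mi : i ∈ act u b v := by rw [hva]; simp
  have mk : k ∈ act u b v := by rw [hva]; simp
  have hij : i ≠ j := fun hc => by
    rw [hc] at h1
    exact bf_irrefl h hB ho h1
  have hjk : j ≠ k := fun hc => by
    rw [hc] at h2
    exact bf_irrefl h hB ho h2
  have hr := rel4_ev hB (ev v) (vec_mem (b := b) (u := u) ho) (vec_mem hi) (vec_mem hj)
    (vec_mem hk)
  have ej : 0 < ev v (vec u b j) := ev_pos hv fun hc =>
    le_two h hv hL h5 hd.1 hij hjk.symm mi mk hc hi hk hj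
  have eo : 0 < ev v (vec u b o) := ev_pos hv fun hc =>
    le_two h hv hL h5 hd.1 hio hko mi mk hc hi hk ho
  rw [ev_zero.mpr mi, ev_zero.mpr mk, mul_zero, mul_zero, sub_zero, sub_zero] at hr
  have h3 := bf_pos h hB ho hi hj hk hjo h1 h2
  have h4 : 0 < Dt B (vec u b o) (vec u b i) (vec u b k) :=
    bf_trans h hB ho hi hj hk hjo h1 h2
  nlinarith [mul_pos h3 eo, mul_pos h4 ej]

end Chain

end Quad56
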