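import Pool.Agent.Quad56.Fve

/-!
# The number of pentagons of the example

Working file of helper56 for MP_f8fadf_co.
-/

namespace Quad56

open Finset
open scoped InnerProductSpace

variable {q N M G1 G2 n : ℕ}

/-- The height of the last vertex of a cut column. -/
def hgt (q i0 : ℕ) : ℕ := Nat.sqrt ((10 * q) ^ 2 - 1 - i0 ^ 2)

theorem hgt_spec {i0 : ℕ} (h8 : 8 * q ≤ i0) (h10 : i0 < 10 * q) :
    hgt q i0 < 10 * q ∧ i0 ^ 2 + hgt q i0 ^ 2 < (10 * q) ^ 2 ∧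
      (10 * q) ^ 2 ≤ (i0 + 1) ^ 2 + hgt q i0 ^ 2 ∧
      (10 * q) ^ 2 ≤ i0 ^ 2 + (hgt q i0 + 1) ^ 2 := by
  have h1 : i0 ^ 2 + 1 ≤ (10 * q) ^ 2 := by
    have : (i0 + 1) ^ 2 ≤ (10 * q) ^ 2 := Nat.pow_le_pow_left h10 2
    nlinarith
  obtain ⟨d, hd⟩ : ∃ d, (10 * q) ^ 2 = i0 ^ 2 + 1 + d := Nat.exists_eq_add_of_le h1
  have hd' : (10 * q) ^ 2 - 1 - i0 ^ 2 = d := by omega
  have hA : hgt q i0 ^ 2 ≤ d := by
    unfold hgt
    rw [hd']
    exact Nat.sqrt_le' d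
  have hB : d < (hgt q i0 + 1) ^ 2 := by
    unfold hgt
    rw [hd']
    exact Nat.lt_succ_sqrt' d
  have h64 : 64 * q ^ 2 ≤ i0 ^ 2 := by
    have : (8 * q) ^ 2 ≤ i0 ^ 2 := Nat.pow_le_pow_left h8 2
    nlinarith
  have hle : hgt q i0 ≤ i0 := by
    by_contra hc
    push Not at hc
    have : (8 * q) ^ 2 ≤ (hgt q i0) ^ 2 := Nat.pow_le_pow_left (by omega) 2
    nlinarith
  refine ⟨by omega, by omega, ?_, by omega⟩
  nlinarith

theorem idx_lt {G t i0 : ℕ} (ht : t < G) (hN : (20 * q + 3) * G ≤ N) (hi : i0 < 10 * q) :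
    cen q t + i0 < N + 1 := by
  have := cen_le ht hN
  omega

/-- The pentagons. -/
noncomputable def pf (A : Adm q N M G1 G2) (e : Idx N M G1 G2 ≃ Fin n)
    (z : (Fin G1 × Fin G2) × Fin (2 * q)) : Fin n × Fin n :=
  (e (.inl ⟨cen q z.1.1 + (8 * q + z.2), idx_lt z.1.1.2 A.hN (by omega)⟩),
    e (.inr (.inl ⟨cen q z.1.2 + hgt q (8 * q + z.2), idx_lt z.1.2.2 A.hM
      (hgt_spec (by omega) (by omega)).1⟩)))

theorem cen_inj {t t' r r' : ℕ} (hr : r < 2 * q) (hr' : r' < 2 * q)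
    (h : cen q t + (8 * q + r) = cen q t' + (8 * q + r')) : t = t' ∧ r = r' := by
  unfold cen at h
  rcases lt_trichotomy t t' with h1 | h1 | h1
  · exfalso
    have := Nat.mul_le_mul_left (20 * q + 3) (show t + 1 ≤ t' from h1)
    rw [Nat.mul_add] at this
    omega
  · subst h1
    exact ⟨rfl, by omega⟩
  · exfalso
    have := Nat.mul_le_mul_left (20 * q + 3) (show t' + 1 ≤ t from h1)
    rw [Nat.mul_add] at this
    omega

theorem cen_inj' {t t' : ℕ} (h : cen q t = cen q t') : t = t' := by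
  unfold cen at h
  rcases lt_trichotomy t t' with h1 | h1 | h1
  · exfalso
    have := Nat.mul_le_mul_left (20 * q + 3) (show t + 1 ≤ t' from h1)
    rw [Nat.mul_add] at this
    omega
  · exact h1
  · exfalso
    have := Nat.mul_le_mul_left (20 * q + 3) (show t' + 1 ≤ t from h1)
    rw [Nat.mul_add] at this
    omega

theorem pf_inj (A : Adm q N M G1 G2) (e : Idx N M G1 G2 ≃ Fin n) :
    Function.Injective (pf A e) := by
  rintro ⟨⟨t1, t2⟩, r⟩ ⟨⟨t1', t2'⟩, r'⟩ h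
  unfold pf at h
  have h1 := e.injective (Prod.mk.inj h).1
  have h2 := e.injective (Prod.mk.inj h).2
  have h1' := Fin.mk.inj (Sum.inl.inj h1)
  have h2' := Fin.mk.inj (Sum.inl.inj (Sum.inr.inj h2))
  simp only at h1' h2'
  obtain ⟨k1, k2⟩ := cen_inj r.2 r'.2 h1'
  rw [k2] at h2'
  have k3 := cen_inj' (Nat.add_right_cancel h2')
  rw [Fin.ext k1, Fin.ext k2, Fin.ext k3]

/-- The two pencils of the example. -/
noncomputable def L0 (e : Idx N M G1 G2 ≃ Fin n) : Finset (Fin n) :=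
  univ.image fun k : Fin (N + 1) => e (.inl k)

noncomputable def L1 (e : Idx N M G1 G2 ≃ Fin n) : Finset (Fin n) :=
  univ.image fun k : Fin (M + 1) => e (.inr (.inl k))

theorem mem_L0 (e : Idx N M G1 G2 ≃ Fin n) (k : Fin (N + 1)) : e (.inl k) ∈ L0 e :=
  mem_image_of_mem _ (mem_univ k)

theorem mem_L1 (e : Idx N M G1 G2 ≃ Fin n) (k : Fin (M + 1)) : e (.inr (.inl k)) ∈ L1 e :=
  mem_image_of_mem _ (mem_univ k)

theorem L0_card (e : Idx N M G1 G2 ≃ Fin n) : (L0 e).card = N + 1 := by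
  unfold L0
  rw [card_image_of_injective _ (show Function.Injective (fun k : Fin (N + 1) => e (.inl k)) from
    fun x y h => Sum.inl_injective (e.injective h)), card_univ, Fintype.card_fin]

theorem L1_card (e : Idx N M G1 G2 ≃ Fin n) : (L1 e).card = M + 1 := by
  unfold L1
  rw [card_image_of_injective _ (show Function.Injective
    (fun k : Fin (M + 1) => e (.inr (.inl k))) from fun x y h =>
    Sum.inl_injective (Sum.inr_injective (e.injective h))), card_univ, Fintype.card_fin]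

theorem L_disj (e : Idx N M G1 G2 ≃ Fin n) : Disjoint (L0 e) (L1 e) := by
  rw [Finset.disjoint_left]
  intro x hx hx'
  obtain ⟨k, -, rfl⟩ := mem_image.mp hx
  obtain ⟨l, -, hl⟩ := mem_image.mp hx'
  exact absurd (e.injective hl) (by simp)

theorem pencil_of {u : Fin n → E4} {b : Fin n → ℝ} {L : Finset (Fin n)} (v : Fin 3 → E4 × ℝ)
    (hL : ∀ i ∈ L, ∃ α β γ : ℝ, vec u b i = α • v 0 + β • v 1 + γ • v 2) : Pencil u b L := by
  have h1 : Sp u b L ≤ Submodule.span ℝ (Set.range v) := by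
    unfold Sp
    rw [Submodule.span_le]
    rintro _ ⟨i, hi, rfl⟩
    obtain ⟨α, β, γ, h⟩ := hL i hi
    rw [h]
    exact Submodule.add_mem _ (Submodule.add_mem _
      (Submodule.smul_mem _ _ (Submodule.subset_span ⟨0, rfl⟩))
      (Submodule.smul_mem _ _ (Submodule.subset_span ⟨1, rfl⟩)))
      (Submodule.smul_mem _ _ (Submodule.subset_span ⟨2, rfl⟩))
  have h2 := Submodule.finrank_mono h1
  have h3 := finrank_range_le_card (R := ℝ) v
  rw [Fintype.card_fin] at h3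
  exact h2.trans h3

theorem pencil0 (e : Idx N M G1 G2 ≃ Fin n) : Pencil (ue q e) (be q e) (L0 e) := by
  refine pencil_of ![(!₂[1, 0, 0, 0], 0), (!₂[0, 1, 0, 0], 0), (!₂[0, 0, 0, 0], 1)] ?_
  intro i hi
  obtain ⟨k, -, rfl⟩ := mem_image.mp hi
  refine ⟨(nrm N k).1, (nrm N k).2, rhs N k, ?_⟩
  unfold vec ue be
  rw [Equiv.symm_apply_apply]
  refine Prod.ext ?_ ?_
  · change (!₂[(nrm N k).1, (nrm N k).2, 0, 0] : E4) = (nrm N k).1 • !₂[1, 0, 0, 0] +
      (nrm N k).2 • !₂[0, 1, 0, 0] + rhs N k • !₂[0, 0, 0, 0]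
    ext j
    fin_cases j <;> simp
  · change rhs N k = (nrm N k).1 * 0 + (nrm N k).2 * 0 + rhs N k * 1
    ring

theorem pencil1 (e : Idx N M G1 G2 ≃ Fin n) : Pencil (ue q e) (be q e) (L1 e) := by
  refine pencil_of ![(!₂[0, 0, 1, 0], 0), (!₂[0, 0, 0, 1], 0), (!₂[0, 0, 0, 0], 1)] ?_
  intro i hi
  obtain ⟨k, -, rfl⟩ := mem_image.mp hi
  refine ⟨(nrm M k).1, (nrm M k).2, rhs M k, ?_⟩
  unfold vec ue be
  rw [Equiv.symm_apply_apply]
  refine Prod.ext ?_ ?_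
  · change (!₂[0, 0, (nrm M k).1, (nrm M k).2] : E4) = (nrm M k).1 • !₂[0, 0, 1, 0] +
      (nrm M k).2 • !₂[0, 0, 0, 1] + rhs M k • !₂[0, 0, 0, 0]
    ext j
    fin_cases j <;> simp
  · change rhs M k = (nrm M k).1 * 0 + (nrm M k).2 * 0 + rhs M k * 1
    ring

/-- Every vertex lies on two facets of one of the pencils. -/
theorem vert_spc (A : Adm q N M G1 G2) (e : Idx N M G1 G2 ≃ Fin n) {v : E4}
    (hv : v ∈ Poly (ue q e) (be q e)) (h4 : (act (ue q e) (be q e) v).card = 4) :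
    Spc (ue q e) (be q e) ![L0 e, L1 e] v := by
  obtain ⟨H1, H2, -⟩ := (mem_poly' e).mp hv
  have c3 := cc_card A H1 H2
  have hact := act_eq (q := q) e v
  have hmem : ∀ i : Idx N M G1 G2, i ∈ AI q v →
      ⟪ue q e (e i), v⟫_ℝ = be q e (e i) := by
    intro i hi
    rw [← mem_act, hact, mem_map_equiv, Equiv.symm_apply_apply]
    exact hi
  rw [hact, card_map] at h4
  unfold AI at h4
  rw [card_disjSum, card_disjSum] at h4
  rcases Nat.lt_or_ge 1 (Ac N (v 0) (v 1)).card with h1 | h1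
  · obtain ⟨k, hk, l, hl, hkl⟩ := one_lt_card.mp h1
    refine ⟨0, e (.inl k), mem_L0 e k, e (.inl l), mem_L0 e l,
      fun hc => hkl (Sum.inl_injective (e.injective hc)), hmem _ ?_, hmem _ ?_⟩
    · unfold AI
      rw [inl_mem_disjSum]
      exact hk
    · unfold AI
      rw [inl_mem_disjSum]
      exact hl
  · have h2 : 1 < (Ac M (v 2) (v 3)).card := by omega
    obtain ⟨k, hk, l, hl, hkl⟩ := one_lt_card.mp h2
    refine ⟨1, e (.inr (.inl k)), mem_L1 e k, e (.inr (.inl l)), mem_L1 e l,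
      fun hc => hkl (Sum.inl_injective (Sum.inr_injective (e.injective hc))), hmem _ ?_,
      hmem _ ?_⟩
    · unfold AI
      rw [inr_mem_disjSum, inl_mem_disjSum]
      exact hk
    · unfold AI
      rw [inr_mem_disjSum, inl_mem_disjSum]
      exact hl

/-- The pentagons of the example. -/
theorem exa_card (A : Adm q N M G1 G2) (e : Idx N M G1 G2 ≃ Fin n) :
    ∃ Q : Finset (Fin n × Fin n), Q.card = G1 * G2 * (2 * q) ∧ ∀ z ∈ Q, z.1 ∈ L0 e ∧
      z.2 ∈ L1 e ∧ (∃ k ∈ L0 e, k ≠ z.1 ∧ ∃ l ∈ L0 e, l ≠ z.1 ∧ k ≠ l ∧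
        (∃ τ ∈ tets (ue q e) (be q e), z.1 ∈ τ ∧ z.2 ∈ τ ∧ k ∈ τ) ∧
        (∃ τ ∈ tets (ue q e) (be q e), z.1 ∈ τ ∧ z.2 ∈ τ ∧ l ∈ τ)) ∧
      5 ≤ ((tets (ue q e) (be q e)).filter fun τ => z.1 ∈ τ ∧ z.2 ∈ τ).card := by
  refine ⟨univ.image (pf A e), ?_, ?_⟩
  · rw [card_image_of_injective _ (pf_inj A e), card_univ, Fintype.card_prod, Fintype.card_prod,
      Fintype.card_fin, Fintype.card_fin, Fintype.card_fin]
  · intro z hz
    obtain ⟨⟨t, r⟩, -, rfl⟩ := mem_image.mp hz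
    have hr := r.2
    obtain ⟨s1, s2, s3, s4⟩ := hgt_spec (q := q) (i0 := 8 * q + r) (by omega) (by omega)
    obtain ⟨⟨k, hk, l, hl, hkl, ht1, ht2⟩, h5⟩ := five A e t (i0 := 8 * q + r)
      (h0 := hgt q (8 * q + r)) (by omega) s1 s2 s3 s4 rfl rfl
      (idx_lt t.1.2 A.hN (by omega)) (idx_lt t.2.2 A.hM s1)
    refine ⟨mem_L0 e _, mem_L1 e _, ⟨e (.inl k), mem_L0 e k, fun hc => hk ?_, e (.inl l),
      mem_L0 e l, fun hc => hl ?_, fun hc => hkl ?_, ht1, ht2⟩, h5⟩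
    · exact Sum.inl_injective (e.injective hc)
    · exact Sum.inl_injective (e.injective hc)
    · exact Sum.inl_injective (e.injective hc)

end Quad56
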