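import Mathlib

/-!
# The combinatorial core

Working file of helper56 for MP_f8fadf_co.
-/

namespace Quad56

open Finset

/-! ### the link cycle -/

section Cycle

variable {V : Type*}

/-- The case of a link cycle through an `X` vertex with a neighbour of the third kind. -/
theorem cyc_aux (R : V → V → Prop) (X Y : V → Prop)
    (symm : ∀ a c, R a c → R c a)
    (other : ∀ a c, R a c → ∃ c', c' ≠ c ∧ R a c' ∧ ∀ e, R a e → e = c ∨ e = c')
    (cover : ∀ a c, R a c → X a ∨ Y a ∨ X c ∨ Y c)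
    (hXX : ∀ a c, R a c → X a → ¬ X c) (hYY : ∀ a c, R a c → Y a → ¬ Y c)
    (hinc : ∀ a c c', R a c → R a c' → ¬ X a → ¬ Y a → X c → Y c' → False)
    (hX2 : ∀ a c d a' c' d', X a → X c → X d → R a a' → R c c' → R d d' →
      a = c ∨ a = d ∨ c = d)
    (hY2 : ∀ a c d a' c' d', Y a → Y c → Y d → R a a' → R c c' → R d d' →
      a = c ∨ a = d ∨ c = d)
    {x1 a a' : V} (hx1 : X x1) (ha : R x1 a) (ha' : R x1 a') (haa : a' ≠ a)
    (hnb : ∀ e, R x1 e → e = a ∨ e = a') (hXa : ¬ X a) (hYa : ¬ Y a) :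
    (∃ a c d e, a ≠ d ∧ c ≠ e ∧ R a c ∧ R c d ∧ R d e ∧ R e a) ∨
    (∃ x1 o1 x2 y2 o2 y1, X x1 ∧ X x2 ∧ Y y2 ∧ Y y1 ∧ x1 ≠ x2 ∧ y1 ≠ y2 ∧ ¬ Y o1 ∧ ¬ X o2 ∧
      R x1 o1 ∧ R o1 x2 ∧ R x2 y2 ∧ R y2 o2 ∧ R o2 y1 ∧ R y1 x1) := by
  -- the other neighbour of `a`
  obtain ⟨x2, hx21, hax2, -⟩ := other a x1 (symm _ _ ha)
  have hXx2 : X x2 := by
    rcases cover a x2 hax2 with h | h | h | h
    · exact absurd h hXa
    · exact absurd h hYa
    · exact h
    · exact (hinc a x1 x2 (symm _ _ ha) hax2 hXa hYa hx1 h).elim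
  have hXa' : ¬ X a' := hXX _ _ ha' hx1
  by_cases hYa' : Y a'
  · -- `a'` is a `Y` vertex
    obtain ⟨c, hca, hx2c, hnb2⟩ := other x2 a (symm _ _ hax2)
    by_cases hcc : c = a'
    · left
      refine ⟨x1, a, x2, a', hx21.symm, haa.symm, ha, hax2, ?_, symm _ _ ha'⟩
      rw [← hcc]
      exact hx2c
    have hXc : ¬ X c := hXX _ _ hx2c hXx2
    have hYc : Y c := by
      by_contra hYc
      obtain ⟨x3, hx32, hcx3, -⟩ := other c x2 (symm _ _ hx2c)
      have hXx3 : X x3 := by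
        rcases cover c x3 hcx3 with h | h | h | h
        · exact absurd h hXc
        · exact absurd h hYc
        · exact h
        · exact (hinc c x2 x3 (symm _ _ hx2c) hcx3 hXc hYc hXx2 h).elim
      rcases hX2 x1 x2 x3 _ _ _ hx1 hXx2 hXx3 ha hx2c (symm _ _ hcx3) with h | h | h
      · exact hx21 h.symm
      · rcases hnb c (h ▸ symm _ _ hcx3) with h' | h'
        · exact hca h'
        · exact hcc h'
      · exact hx32 h.symm
    obtain ⟨d, hdx, ha'd, -⟩ := other a' x1 (symm _ _ ha')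
    have hYd : ¬ Y d := hYY _ _ ha'd hYa'
    have hXd : ¬ X d := by
      intro hXd
      rcases hX2 x1 x2 d _ _ _ hx1 hXx2 hXd ha hx2c (symm _ _ ha'd) with h | h | h
      · exact hx21 h.symm
      · exact hdx h.symm
      · rcases hnb2 a' (h ▸ symm _ _ ha'd) with h' | h'
        · exact haa h'
        · exact hcc h'.symm
    obtain ⟨y, hya, hdy, -⟩ := other d a' (symm _ _ ha'd)
    have hYy : Y y := by
      rcases cover d y hdy with h | h | h | h
      · exact absurd h hXd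
      · exact absurd h hYd
      · exact (hinc d y a' hdy (symm _ _ ha'd) hXd hYd h hYa').elim
      · exact h
    have hyc : y = c := by
      rcases hY2 a' c y _ _ _ hYa' hYc hYy ha'd (symm _ _ hx2c) (symm _ _ hdy) with h | h | h
      · exact (hcc h.symm).elim
      · exact (hya h.symm).elim
      · exact h.symm
    right
    rw [hyc] at hdy
    exact ⟨x1, a, x2, c, d, a', hx1, hXx2, hYc, hYa', hx21.symm, fun h => hcc h.symm, hYa, hXd,
      ha, hax2, hx2c, symm _ _ hdy, symm _ _ ha'd, symm _ _ ha'⟩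
  · -- both neighbours are of the third kind
    left
    obtain ⟨x3, hx31, hax3, -⟩ := other a' x1 (symm _ _ ha')
    have hXx3 : X x3 := by
      rcases cover a' x3 hax3 with h | h | h | h
      · exact absurd h hXa'
      · exact absurd h hYa'
      · exact h
      · exact (hinc a' x1 x3 (symm _ _ ha') hax3 hXa' hYa' hx1 h).elim
    have h23 : x3 = x2 := by
      rcases hX2 x1 x2 x3 _ _ _ hx1 hXx2 hXx3 ha (symm _ _ hax2) (symm _ _ hax3) with h | h | h
      · exact (hx21 h.symm).elim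
      · exact (hx31 h.symm).elim
      · exact h.symm
    rw [h23] at hax3
    exact ⟨x1, a, x2, a', hx21.symm, haa.symm, ha, hax2, symm _ _ hax3, symm _ _ ha'⟩

/-- The case of a link cycle through an `X` vertex. -/
theorem cyc_X (R : V → V → Prop) (X Y : V → Prop)
    (symm : ∀ a c, R a c → R c a)
    (other : ∀ a c, R a c → ∃ c', c' ≠ c ∧ R a c' ∧ ∀ e, R a e → e = c ∨ e = c')
    (cover : ∀ a c, R a c → X a ∨ Y a ∨ X c ∨ Y c)
    (hXX : ∀ a c, R a c → X a → ¬ X c) (hYY : ∀ a c, R a c → Y a → ¬ Y c)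
    (hinc : ∀ a c c', R a c → R a c' → ¬ X a → ¬ Y a → X c → Y c' → False)
    (hX2 : ∀ a c d a' c' d', X a → X c → X d → R a a' → R c c' → R d d' →
      a = c ∨ a = d ∨ c = d)
    (hY2 : ∀ a c d a' c' d', Y a → Y c → Y d → R a a' → R c c' → R d d' →
      a = c ∨ a = d ∨ c = d)
    {x1 a : V} (hx1 : X x1) (ha : R x1 a) :
    (∃ a c d e, a ≠ d ∧ c ≠ e ∧ R a c ∧ R c d ∧ R d e ∧ R e a) ∨
    (∃ x1 o1 x2 y2 o2 y1, X x1 ∧ X x2 ∧ Y y2 ∧ Y y1 ∧ x1 ≠ x2 ∧ y1 ≠ y2 ∧ ¬ Y o1 ∧ ¬ X o2 ∧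
      R x1 o1 ∧ R o1 x2 ∧ R x2 y2 ∧ R y2 o2 ∧ R o2 y1 ∧ R y1 x1) := by
  obtain ⟨a', haa, ha', hnb⟩ := other x1 a ha
  have hXa : ¬ X a := hXX _ _ ha hx1
  have hXa' : ¬ X a' := hXX _ _ ha' hx1
  by_cases hYa : Y a
  · by_cases hYa' : Y a'
    · -- both are `Y` vertices
      left
      obtain ⟨c, hcx, hac, -⟩ := other a x1 (symm _ _ ha)
      have hYc : ¬ Y c := hYY _ _ hac hYa
      have hgoal : R c a' := by
        by_cases hXc : X c
        · obtain ⟨d, hda, hcd, -⟩ := other c a (symm _ _ hac)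
          have hXd : ¬ X d := hXX _ _ hcd hXc
          by_cases hYd : Y d
          · rcases hY2 a a' d _ _ _ hYa hYa' hYd (symm _ _ ha) (symm _ _ ha')
              (symm _ _ hcd) with h | h | h
            · exact (haa h.symm).elim
            · exact (hda h.symm).elim
            · rw [h]; exact hcd
          · exfalso
            obtain ⟨x3, hx3c, hdx3, -⟩ := other d c (symm _ _ hcd)
            have hXx3 : X x3 := by
              rcases cover d x3 hdx3 with h | h | h | h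
              · exact absurd h hXd
              · exact absurd h hYd
              · exact h
              · exact (hinc d c x3 (symm _ _ hcd) hdx3 hXd hYd hXc h).elim
            rcases hX2 x1 c x3 _ _ _ hx1 hXc hXx3 ha hcd (symm _ _ hdx3) with h | h | h
            · exact hcx h.symm
            · rcases hnb d (h ▸ symm _ _ hdx3) with h' | h'
              · exact hYd (h' ▸ hYa)
              · exact hYd (h' ▸ hYa')
            · exact hx3c h.symm
        · obtain ⟨y, hya, hcy, -⟩ := other c a (symm _ _ hac)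
          have hYy : Y y := by
            rcases cover c y hcy with h | h | h | h
            · exact absurd h hXc
            · exact absurd h hYc
            · exact (hinc c y a hcy (symm _ _ hac) hXc hYc h hYa).elim
            · exact h
          rcases hY2 a a' y _ _ _ hYa hYa' hYy (symm _ _ ha) (symm _ _ ha')
            (symm _ _ hcy) with h | h | h
          · exact (haa h.symm).elim
          · exact (hya h.symm).elim
          · rw [h]; exact hcy
      exact ⟨x1, a, c, a', hcx.symm, haa.symm, ha, hac, hgoal, symm _ _ ha'⟩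
    · exact cyc_aux R X Y symm other cover hXX hYY hinc hX2 hY2 hx1 ha' ha haa.symm
        (fun e he => (hnb e he).symm) hXa' hYa'
  · exact cyc_aux R X Y symm other cover hXX hYY hinc hX2 hY2 hx1 ha ha' haa hnb hXa hYa

/-- The shape of a link cycle without inconsistent vertices. -/
theorem cyc_main (R : V → V → Prop) (X Y : V → Prop)
    (symm : ∀ a c, R a c → R c a)
    (other : ∀ a c, R a c → ∃ c', c' ≠ c ∧ R a c' ∧ ∀ e, R a e → e = c ∨ e = c')
    (cover : ∀ a c, R a c → X a ∨ Y a ∨ X c ∨ Y c)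
    (hXX : ∀ a c, R a c → X a → ¬ X c) (hYY : ∀ a c, R a c → Y a → ¬ Y c)
    (hinc : ∀ a c c', R a c → R a c' → ¬ X a → ¬ Y a → X c → Y c' → False)
    (hX2 : ∀ a c d a' c' d', X a → X c → X d → R a a' → R c c' → R d d' →
      a = c ∨ a = d ∨ c = d)
    (hY2 : ∀ a c d a' c' d', Y a → Y c → Y d → R a a' → R c c' → R d d' →
      a = c ∨ a = d ∨ c = d)
    {p q : V} (hpq : R p q) :
    (∃ a c d e, a ≠ d ∧ c ≠ e ∧ R a c ∧ R c d ∧ R d e ∧ R e a) ∨
    (∃ x1 o1 x2 y2 o2 y1, X x1 ∧ X x2 ∧ Y y2 ∧ Y y1 ∧ x1 ≠ x2 ∧ y1 ≠ y2 ∧ ¬ Y o1 ∧ ¬ X o2 ∧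
      R x1 o1 ∧ R o1 x2 ∧ R x2 y2 ∧ R y2 o2 ∧ R o2 y1 ∧ R y1 x1) := by
  have keyY : ∀ {y a : V}, Y y → R y a →
      (∃ a c d e, a ≠ d ∧ c ≠ e ∧ R a c ∧ R c d ∧ R d e ∧ R e a) ∨
      (∃ x1 o1 x2 y2 o2 y1, X x1 ∧ X x2 ∧ Y y2 ∧ Y y1 ∧ x1 ≠ x2 ∧ y1 ≠ y2 ∧ ¬ Y o1 ∧ ¬ X o2 ∧
        R x1 o1 ∧ R o1 x2 ∧ R x2 y2 ∧ R y2 o2 ∧ R o2 y1 ∧ R y1 x1) := by
    intro y a hy hya
    rcases cyc_X R Y X symm other
      (fun a c h => by rcases cover a c h with h | h | h | h <;> simp [h]) hYY hXX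
      (fun a c c' h1 h2 h3 h4 h5 h6 => hinc a c' c h2 h1 h4 h3 h6 h5) hY2 hX2 hy hya with h | h
    · exact Or.inl h
    · obtain ⟨y1, o1, y2, x2, o2, x1, h1, h2, h3, h4, h5, h6, k1, k2, r1, r2, r3, r4, r5, r6⟩ := h
      right
      exact ⟨x2, o2, x1, y1, o1, y2, h3, h4, h1, h2, h6.symm, h5.symm, k2, k1, r4, r5, r6, r1,
        r2, r3⟩
  rcases cover p q hpq with h | h | h | h
  · exact cyc_X R X Y symm other cover hXX hYY hinc hX2 hY2 h hpq
  · exact keyY h hpq
  · exact cyc_X R X Y symm other cover hXX hYY hinc hX2 hY2 h (symm _ _ hpq)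
  · exact keyY h (symm _ _ hpq)

end Cycle

/-! ### the abstract setting -/

variable {V ι : Type*} [Fintype V] [DecidableEq V] [Fintype ι] [DecidableEq ι]

/-- The combinatorial facts about a simple 4-polytope whose facets are labelled by pencils. -/
structure Core (T : Finset (Finset V)) (f : V → Option ι) (s : ι → V → ℕ)
    (X : ι → ι → Finset V) (w S : ℕ) : Prop where
  c4 : ∀ t ∈ T, t.card = 4
  other : ∀ x y z d, {x, y, z, d} ∈ T →
    ∃ d', d' ≠ d ∧ {x, y, z, d'} ∈ T ∧ ∀ e, {x, y, z, e} ∈ T → e = d ∨ e = d'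
  conn : ∀ x y (P : V → Prop), (∀ a c, P a → {x, y, a, c} ∈ T → P c) →
    ∀ a0 c0 a1 c1, P a0 → {x, y, a0, c0} ∈ T → {x, y, a1, c1} ∈ T → P a1
  two : ∀ x y z d i, {x, y, z, d} ∈ T → f x = some i → f y = some i → f z = some i → False
  m2 : ∀ y y1 y2 y3 c1 d1 c2 d2 c3 d3 i, f y = some i → f y1 = some i → f y2 = some i →
    f y3 = some i → y1 ≠ y2 → y1 ≠ y3 → y2 ≠ y3 → {y, y1, c1, d1} ∈ T → {y, y2, c2, d2} ∈ T →
    {y, y3, c3, d3} ∈ T → False
  sec_card : ∀ i c, (univ.filter fun x => s i x = c).card ≤ w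
  far : ∀ i x y, f x = some i → f y = some i →
    (univ.filter fun q : V × V => s i q.1 < s i q.2 ∧ {x, y, q.1, q.2} ∈ T).card ≤ S
  xcard : ∀ i j, (X i j).card ≤ 2
  six : ∀ x y x1 o1 x2 y2 o2 y1 i j, f x = some i → f x1 = some i → f x2 = some i →
    f y = some j → f y1 = some j → f y2 = some j → x1 ≠ x2 → y1 ≠ y2 → o1 ≠ y1 → o1 ≠ y2 →
    {x, y, x1, o1} ∈ T → {x, y, o1, x2} ∈ T → {x, y, x2, y2} ∈ T → {x, y, y2, o2} ∈ T →
    {x, y, o2, y1} ∈ T → {x, y, y1, x1} ∈ T → y ∈ X i j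

variable {T : Finset (Finset V)} {f : V → Option ι} {s : ι → V → ℕ} {X : ι → ι → Finset V}
  {w S : ℕ}

theorem four_ne {a b c d : V} (h : ({a, b, c, d} : Finset V).card = 4) :
    a ≠ b ∧ a ≠ c ∧ a ≠ d ∧ b ≠ c ∧ b ≠ d ∧ c ≠ d := by
  have key : ∀ x y z : V, ({x, y, z} : Finset V).card ≤ 3 := fun x y z => card_le_three
  have key2 : ∀ t : Finset V, ({a, b, c, d} : Finset V) = t → t.card ≤ 3 → False := by
    intro t ht h3
    rw [← ht] at h3
    omega
  refine ⟨?_, ?_, ?_, ?_, ?_, ?_⟩ <;> rintro rfl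
  · exact key2 {a, c, d} (by ext; simp only [mem_insert, mem_singleton]; tauto) (key _ _ _)
  · exact key2 {a, b, d} (by ext; simp only [mem_insert, mem_singleton]; tauto) (key _ _ _)
  · exact key2 {a, b, c} (by ext; simp only [mem_insert, mem_singleton]; tauto) (key _ _ _)
  · exact key2 {a, b, d} (by ext; simp only [mem_insert, mem_singleton]; tauto) (key _ _ _)
  · exact key2 {a, b, c} (by ext; simp only [mem_insert, mem_singleton]; tauto) (key _ _ _)
  · exact key2 {a, b, c} (by ext; simp only [mem_insert, mem_singleton]; tauto) (key _ _ _)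

theorem four_card' {α : Type*} [DecidableEq α] {a b c d : α}
    (h : a ≠ b ∧ a ≠ c ∧ a ≠ d ∧ b ≠ c ∧ b ≠ d ∧ c ≠ d) :
    ({a, b, c, d} : Finset α).card = 4 := by
  obtain ⟨h1, h2, h3, h4, h5, h6⟩ := h
  rw [card_insert_of_notMem (by simp [h1, h2, h3]), card_insert_of_notMem (by simp [h4, h5]),
    card_insert_of_notMem (by simpa using h6), card_singleton]

theorem exists_pair {t : Finset V} (h4 : t.card = 4) {x y : V} (hx : x ∈ t) (hy : y ∈ t)
    (hxy : x ≠ y) : ∃ p q, t = {x, y, p, q} := by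
  have h1 : ((t.erase x).erase y).card = 2 := by
    rw [card_erase_of_mem (mem_erase.mpr ⟨hxy.symm, hy⟩), card_erase_of_mem hx, h4]
  obtain ⟨p, q, -, hpq⟩ := card_eq_two.mp h1
  refine ⟨p, q, ?_⟩
  rw [← hpq, insert_erase (mem_erase.mpr ⟨hxy.symm, hy⟩), insert_erase hx]

/-- A four-cycle in the link is the whole link. -/
theorem deg_four (C : Core T f s X w S) {x y a c d e : V} (had : a ≠ d) (hce : c ≠ e)
    (h1 : {x, y, a, c} ∈ T) (h2 : {x, y, c, d} ∈ T) (h3 : {x, y, d, e} ∈ T)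
    (h4 : {x, y, e, a} ∈ T) : (T.filter fun t => x ∈ t ∧ y ∈ t).card = 4 := by
  have symm : ∀ {p q : V}, {x, y, p, q} ∈ T → {x, y, q, p} ∈ T := by
    intro p q hpq
    rw [show ({x, y, q, p} : Finset V) = {x, y, p, q} by
      ext; simp only [mem_insert, mem_singleton]; tauto]
    exact hpq
  have nb : ∀ {p q r : V}, {x, y, p, q} ∈ T → {x, y, p, r} ∈ T → q ≠ r →
      ∀ v, {x, y, p, v} ∈ T → v = q ∨ v = r := by
    intro p q r hq hr hqr v hv
    obtain ⟨q', hq', hT', huniq⟩ := C.other x y p q hq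
    rcases huniq r hr with h | h
    · exact (hqr h.symm).elim
    · rcases huniq v hv with h' | h'
      · exact Or.inl h'
      · exact Or.inr (h'.trans h.symm)
  have na := nb h1 (symm h4) hce
  have nc := nb (symm h1) h2 had
  have nd := nb (symm h2) h3 hce
  have ne' := nb (symm h3) h4 had.symm
  have hall : ∀ p q, {x, y, p, q} ∈ T → p = a ∨ p = c ∨ p = d ∨ p = e := by
    intro p q hpq
    refine C.conn x y (fun v => v = a ∨ v = c ∨ v = d ∨ v = e) ?_ a c p q (Or.inl rfl) h1 hpq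
    intro v v' hv hvv
    rcases hv with rfl | rfl | rfl | rfl
    · rcases na v' hvv with rfl | rfl <;> simp
    · rcases nc v' hvv with rfl | rfl <;> simp
    · rcases nd v' hvv with rfl | rfl <;> simp
    · rcases ne' v' hvv with rfl | rfl <;> simp
  have d1 := four_ne (C.c4 _ h1)
  have d2 := four_ne (C.c4 _ h2)
  have d3 := four_ne (C.c4 _ h3)
  have d4 := four_ne (C.c4 _ h4)
  have hset : (T.filter fun t => x ∈ t ∧ y ∈ t) =
      {{x, y, a, c}, {x, y, c, d}, {x, y, d, e}, {x, y, e, a}} := by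
    ext t
    simp only [mem_filter, mem_insert, mem_singleton]
    constructor
    · rintro ⟨ht, hx, hy⟩
      obtain ⟨p, q, rfl⟩ := exists_pair (C.c4 t ht) hx hy d1.1
      rcases hall p q ht with rfl | rfl | rfl | rfl
      · rcases na q ht with rfl | rfl
        · simp
        · right; right; right
          ext; simp only [mem_insert, mem_singleton]; tauto
      · rcases nc q ht with rfl | rfl
        · left
          ext; simp only [mem_insert, mem_singleton]; tauto
        · simp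
      · rcases nd q ht with rfl | rfl
        · right; left
          ext; simp only [mem_insert, mem_singleton]; tauto
        · simp
      · rcases ne' q ht with rfl | rfl
        · right; right; left
          ext; simp only [mem_insert, mem_singleton]; tauto
        · simp
    · rintro (rfl | rfl | rfl | rfl)
      · exact ⟨h1, by simp, by simp⟩
      · exact ⟨h2, by simp, by simp⟩
      · exact ⟨h3, by simp, by simp⟩
      · exact ⟨h4, by simp, by simp⟩
  rw [hset]
  apply four_card'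
  have hmem : ∀ {t t' : Finset V} (v : V), v ∈ t → v ∉ t' → t ≠ t' := by
    rintro t t' v hv hv' rfl
    exact hv' hv
  refine ⟨?_, ?_, ?_, ?_, ?_, ?_⟩
  · exact hmem a (by simp) (by simp [d1.2.1.symm, d1.2.2.2.1.symm, d1.2.2.2.2.2, had])
  · exact hmem a (by simp) (by simp [d1.2.1.symm, d1.2.2.2.1.symm, had, d4.2.2.2.2.2.symm])
  · exact hmem c (by simp) (by simp [d1.2.2.1.symm, d1.2.2.2.2.1.symm, hce, d1.2.2.2.2.2.symm])
  · exact hmem c (by simp) (by simp [d1.2.2.1.symm, d1.2.2.2.2.1.symm, hce, d2.2.2.2.2.2])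
  · exact hmem c (by simp) (by simp [d1.2.2.1.symm, d1.2.2.2.2.1.symm, hce, d1.2.2.2.2.2.symm])
  · exact hmem d (by simp) (by simp [d2.2.2.1.symm, d2.2.2.2.2.1.symm, d3.2.2.2.2.2, had.symm])

end Quad56
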