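import Pool.Agent.Quad56.Band

/-!
# One pencil: the crossing lemma

Working file of helper56 for MP_f8fadf_co.
-/

namespace Quad56

open Finset
open scoped InnerProductSpace

variable {n : ℕ} {u : Fin n → E4} {b : Fin n → ℝ}

theorem cross (h : Simple4 u b) {L : Finset (Fin n)} (hL : Pencil u b L) (h5 : 5 ≤ L.card)
    {A : (E4 × ℝ) →ₗ[ℝ] ℂ} (hA : Module.finrank ℝ (Sp u b L) = 3 → LinearMap.ker A = Sp u b L)
    {B : (E4 × ℝ) →ₗ[ℝ] (Fin 3 → ℝ)} (hB : ∀ w ∈ Sp u b L, B w = 0 → w = 0) {o : Fin n}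
    (ho : o ∈ L) {x y p q a c s s' t t' : Fin n} (hx : x ∈ L) (hp : p ∈ L) (hq : q ∈ L)
    (hs : s ∈ L) (hs' : s' ∈ L) (ht : t ∈ L) (ht' : t' ∈ L) (xo : x ≠ o) (po : p ≠ o)
    (qo : q ≠ o) (so : s ≠ o) (tno : t ≠ o) (hpx : bf u b B o p x) (hxq : bf u b B o x q)
    (ta : {p, x, y, a} ∈ tets u b) (tc : {x, q, y, c} ∈ tets u b) (hac : a ≠ c)
    (sg : 0 < om A (vec u b y) (vec u b a) * om A (vec u b y) (vec u b c))
    (hsx : bf u b B o s x) (hsx' : bf u b B o s' x) (ts : {s, s', y, c} ∈ tets u b)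
    (hxt : bf u b B o x t) (hxt' : bf u b B o x t') (tt : {t, t', y, a} ∈ tets u b) : False := by
  have ne_of : ∀ {i j : Fin n}, bf u b B o i j → i ≠ j := fun hij hc =>
    bf_irrefl h hB ho (hc ▸ hij)
  have d1 := tet_distinct ta
  have d2 := tet_distinct tc
  have d3 := tet_distinct ts
  have d4 := tet_distinct tt
  obtain ⟨-, v1, hv1, ha1⟩ := mem_tets.mp ta
  obtain ⟨-, v2, hv2, ha2⟩ := mem_tets.mp tc
  obtain ⟨-, v3, hv3, ha3⟩ := mem_tets.mp ts
  obtain ⟨-, v4, hv4, ha4⟩ := mem_tets.mp tt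
  have hpq : bf u b B o p q := bf_trans h hB ho hp hx hq xo hpx hxq
  have npq := ne_of hpq
  -- active facets
  have m1p : p ∈ act u b v1 := by rw [ha1]; simp
  have m1x : x ∈ act u b v1 := by rw [ha1]; simp
  have m1y : y ∈ act u b v1 := by rw [ha1]; simp
  have m1a : a ∈ act u b v1 := by rw [ha1]; simp
  have m2x : x ∈ act u b v2 := by rw [ha2]; simp
  have m2q : q ∈ act u b v2 := by rw [ha2]; simp
  have m2y : y ∈ act u b v2 := by rw [ha2]; simp
  have m2c : c ∈ act u b v2 := by rw [ha2]; simp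
  have m3s : s ∈ act u b v3 := by rw [ha3]; simp
  have m3s' : s' ∈ act u b v3 := by rw [ha3]; simp
  have m3y : y ∈ act u b v3 := by rw [ha3]; simp
  have m3c : c ∈ act u b v3 := by rw [ha3]; simp
  have m4t : t ∈ act u b v4 := by rw [ha4]; simp
  have m4t' : t' ∈ act u b v4 := by rw [ha4]; simp
  have m4y : y ∈ act u b v4 := by rw [ha4]; simp
  have m4a : a ∈ act u b v4 := by rw [ha4]; simp
  -- inactive facets
  have k1q : q ∉ act u b v1 := fun hc =>
    le_two h hv1 hL h5 (ne_of hpx) npq (ne_of hxq) m1p m1x hc hp hx hq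
  have k2p : p ∉ act u b v2 := fun hc =>
    le_two h hv2 hL h5 (ne_of hxq) (ne_of hpx).symm npq.symm m2x m2q hc hx hq hp
  have k3x : x ∉ act u b v3 := fun hc =>
    le_two h hv3 hL h5 d3.1 (ne_of hsx) (ne_of hsx') m3s m3s' hc hs hs' hx
  have k4x : x ∉ act u b v4 := fun hc =>
    le_two h hv4 hL h5 d4.1 (ne_of hxt).symm (ne_of hxt').symm m4t m4t' hc ht ht' hx
  have nst : ∀ {i j : Fin n}, bf u b B o i x → bf u b B o x j → i ≠ j := by
    rintro i j h1 h2 rfl
    exact bf_asymm h hB ho h1 h2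
  have k4s : s ∉ act u b v4 := fun hc =>
    le_two h hv4 hL h5 d4.1 (nst hsx hxt).symm (nst hsx hxt').symm m4t m4t' hc ht ht' hs
  have k3t : t ∉ act u b v3 := fun hc =>
    le_two h hv3 hL h5 d3.1 (nst hsx hxt) (nst hsx' hxt) m3s m3s' hc hs hs' ht
  have k2a : a ∉ act u b v2 := by
    rw [ha2]
    simp only [mem_insert, mem_singleton]
    rintro (hh | hh | hh | hh)
    · exact d1.2.2.2.2.1 hh.symm
    · exact k1q (hh ▸ m1a)
    · exact d1.2.2.2.2.2 hh.symm
    · exact hac hh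
  have k1c : c ∉ act u b v1 := by
    rw [ha1]
    simp only [mem_insert, mem_singleton]
    rintro (hh | hh | hh | hh)
    · exact k2p (hh ▸ m2c)
    · exact d2.2.2.1 hh.symm
    · exact d2.2.2.2.2.2 hh.symm
    · exact hac hh.symm
  set α : ℝ := ev v4 (vec u b x) with hα
  set δ : ℝ := ev v3 (vec u b x) with hδ
  have hα0 : 0 < α := ev_pos hv4 k4x
  have hδ0 : 0 < δ := ev_pos hv3 k3x
  set f : (E4 × ℝ) →ₗ[ℝ] ℝ := α • ev v3 - δ • ev v4 with hf
  have hfe : ∀ w, f w = α * ev v3 w - δ * ev v4 w := fun w => rfl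
  have fx : f (vec u b x) = 0 := by rw [hfe]; ring
  have fs : f (vec u b s) < 0 := by
    rw [hfe, ev_zero.mpr m3s, mul_zero, zero_sub]
    exact neg_neg_of_pos (mul_pos hδ0 (ev_pos hv4 k4s))
  have ft : 0 < f (vec u b t) := by
    rw [hfe, ev_zero.mpr m4t, mul_zero, sub_zero]
    exact mul_pos hα0 (ev_pos hv3 k3t)
  have Dsxt := bf_pos h hB ho hs hx ht xo hsx hxt
  have fq : 0 < f (vec u b q) := by
    by_cases hqt : q = t
    · rw [hqt]
      exact ft
    · rcases bf_total h hB ho hq ht qo tno hqt with h1 | h1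
      · have hr := rel4_ev hB f (vec_mem (b := b) (u := u) hs) (vec_mem hx) (vec_mem ht)
          (vec_mem hq)
        have D1 := bf_pos h hB ho hx hq ht qo hxq h1
        have D2 := bf_pos h hB ho hs hx hq xo hsx hxq
        rw [Dt_swap B (vec u b x) (vec u b q) (vec u b t), fx] at hr
        by_contra hc
        push Not at hc
        have e1 := mul_pos_of_neg_of_neg (neg_neg_of_pos D1) fs
        have e2 := mul_pos D2 ft
        have e3 := mul_nonpos_of_nonneg_of_nonpos Dsxt.le hc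
        linarith
      · exact (no_between h hB ho hL h5 hx ht hq xo tno qo tc hxt h1).elim
  have fp : f (vec u b p) < 0 := by
    by_cases hps : p = s
    · rw [hps]
      exact fs
    · rcases bf_total h hB ho hs hp so po (Ne.symm hps) with h1 | h1
      · have hr := rel4_ev hB f (vec_mem (b := b) (u := u) hs) (vec_mem hp) (vec_mem hx)
          (vec_mem ht)
        have D1 := bf_pos h hB ho hp hx ht xo hpx hxt
        have D2 := bf_pos h hB ho hs hp hx po h1 hpx
        rw [fx] at hr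
        by_contra hc
        push Not at hc
        have e1 := mul_neg_of_pos_of_neg D1 fs
        have e2 := mul_pos D2 ft
        have e3 := mul_nonneg Dsxt.le hc
        linarith
      · exact (no_between h hB ho hL h5 hp hs hx po so xo ta h1 hsx).elim
  have q1 : 0 < ev v1 (vec u b q) := ev_pos hv1 k1q
  have p2 : 0 < ev v2 (vec u b p) := ev_pos hv2 k2p
  set β : ℝ := f (vec u b q) / ev v1 (vec u b q) with hβ
  set γ : ℝ := -f (vec u b p) / ev v2 (vec u b p) with hγ
  have hβ0 : 0 < β := div_pos fq q1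
  have hγ0 : 0 < γ := div_pos (neg_pos.mpr fp) p2
  set Φ : (E4 × ℝ) →ₗ[ℝ] ℝ := f + γ • ev v2 - β • ev v1 with hΦ
  have hΦe : ∀ w, Φ w = f w + γ * ev v2 w - β * ev v1 w := fun w => rfl
  have Φp : Φ (vec u b p) = 0 := by
    rw [hΦe, ev_zero.mpr m1p, mul_zero, sub_zero, hγ, div_mul_cancel₀ _ p2.ne']
    ring
  have Φx : Φ (vec u b x) = 0 := by
    rw [hΦe, fx, ev_zero.mpr m1x, ev_zero.mpr m2x]
    ring
  have Φq : Φ (vec u b q) = 0 := by
    rw [hΦe, ev_zero.mpr m2q, hβ, div_mul_cancel₀ _ q1.ne']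
    ring
  have ΦE : ∀ w ∈ Sp u b L, Φ w = 0 := by
    intro w hw
    obtain ⟨r1, r2, r3, rfl⟩ := decomp h hv1 hL (ne_of hpx) m1p m1x k1q hp hx hq hw
    rw [map_add, map_add, map_smul, map_smul, map_smul, Φp, Φx, Φq]
    simp
  have Φy : Φ (vec u b y) = 0 := by
    rw [hΦe, hfe, ev_zero.mpr m1y, ev_zero.mpr m2y, ev_zero.mpr m3y, ev_zero.mpr m4y]
    ring
  have Φa : 0 < Φ (vec u b a) := by
    rw [hΦe, hfe, ev_zero.mpr m1a, ev_zero.mpr m4a]
    have e1 := mul_nonneg hα0.le (ev_nonneg (u := u) (b := b) hv3 a)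
    have e2 := mul_pos hγ0 (ev_pos hv2 k2a)
    linarith
  have Φc : Φ (vec u b c) < 0 := by
    rw [hΦe, hfe, ev_zero.mpr m3c, ev_zero.mpr m2c]
    have e1 := mul_nonneg hδ0.le (ev_nonneg (u := u) (b := b) hv4 c)
    have e2 := mul_pos hβ0 (ev_pos hv1 k1c)
    linarith
  have hker := ker_of_tet h hL h5 hA hp hx ta
  have hpl := om_plane A (vec u b y) (vec u b c) (vec u b a)
  rw [← LinearMap.mem_ker, hker] at hpl
  have hfin := ΦE _ hpl
  rw [map_sub, map_sub, map_smul, map_smul, map_smul, Φy, smul_zero, sub_zero, smul_eq_mul,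
    smul_eq_mul] at hfin
  have e1 := mul_pos sg Φa
  have e2 := mul_nonneg (mul_self_nonneg (om A (vec u b y) (vec u b a))) (neg_pos.mpr Φc).le
  have e3 : om A (vec u b y) (vec u b a) * om A (vec u b y) (vec u b c) * Φ (vec u b a) +
      om A (vec u b y) (vec u b a) * om A (vec u b y) (vec u b a) * -Φ (vec u b c) = 0 := by
    linear_combination om A (vec u b y) (vec u b a) * hfin
  linarith

end Quad56
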