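import Mathlib

/-!
# The planar polygons of the example

Working file of helper56 for MP_f8fadf_co.
-/

namespace Quad56

open Finset

/-- The slack of the edge `k` of the polygon with the vertices `(j, j^2)`, `0 ≤ j ≤ N`. -/
noncomputable def slk (N k : ℕ) (s h : ℝ) : ℝ :=
  if k = N then N * s - h else k * (k + 1) - (2 * k + 1) * s + h

theorem slk_lo {N k : ℕ} (hk : k ≠ N) (s h : ℝ) :
    slk N k s h = k * (k + 1) - (2 * k + 1) * s + h := if_neg hk

theorem slk_top (N : ℕ) (s h : ℝ) : slk N N s h = N * s - h := if_pos rfl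

/-- The polygon. -/
def KK (N : ℕ) (s h : ℝ) : Prop := ∀ k ≤ N, 0 ≤ slk N k s h

variable {N : ℕ} {s h : ℝ}

theorem KK.range (hN : 2 ≤ N) (H : KK N s h) : 0 ≤ s ∧ s ≤ N := by
  have h0 := H 0 (Nat.zero_le _)
  have h1 := H N le_rfl
  have h2 := H (N - 1) (by omega)
  rw [slk_lo (by omega)] at h0 h2
  rw [slk_top] at h1
  rw [Nat.cast_sub (by omega)] at h2
  push_cast at h0 h2
  have hN' : (2 : ℝ) ≤ N := by exact_mod_cast hN
  constructor
  · by_contra hc
    push Not at hc
    nlinarith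
  · by_contra hc
    push Not at hc
    nlinarith

theorem KK.cell (hN : 2 ≤ N) (H : KK N s h) : ∃ i : ℕ, i < N ∧ (i : ℝ) ≤ s ∧ s ≤ i + 1 := by
  obtain ⟨h0, h1⟩ := H.range hN
  rcases h1.eq_or_lt with h2 | h2
  · refine ⟨N - 1, by omega, ?_, ?_⟩
    · rw [h2]
      exact_mod_cast Nat.sub_le N 1
    · rw [h2, Nat.cast_sub (by omega)]
      push_cast
      linarith
  · exact ⟨⌊s⌋₊, (Nat.floor_lt h0).mpr h2, Nat.floor_le h0, (Nat.lt_floor_add_one s).le⟩

theorem KK.sq (hN : 2 ≤ N) (H : KK N s h) : s ^ 2 ≤ h := by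
  obtain ⟨i, hi, h1, h2⟩ := H.cell hN
  have h3 := H i hi.le
  rw [slk_lo hi.ne] at h3
  nlinarith [mul_nonneg (sub_nonneg.mpr h1) (sub_nonneg.mpr h2)]

theorem KK.le (hN : 2 ≤ N) (H : KK N s h) : h ≤ (N : ℝ) ^ 2 := by
  have h1 := H N le_rfl
  rw [slk_top] at h1
  have h2 := (H.range hN).2
  have hN' : (2 : ℝ) ≤ N := by exact_mod_cast hN
  nlinarith

theorem KK.lo_range (hN : 2 ≤ N) (H : KK N s h) {k : ℕ} (hk : k < N) (h0 : slk N k s h = 0) :
    (k : ℝ) ≤ s ∧ s ≤ k + 1 := by
  rw [slk_lo hk.ne] at h0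
  constructor
  · rcases Nat.eq_zero_or_pos k with hk0 | hk0
    · subst hk0
      have := (H.range hN).1
      simpa using this
    · have h1 := H (k - 1) (by omega)
      rw [slk_lo (by omega), Nat.cast_sub (by omega)] at h1
      push_cast at h1
      nlinarith
  · rcases Nat.lt_or_ge (k + 1) N with h2 | h2
    · have h1 := H (k + 1) h2.le
      rw [slk_lo h2.ne] at h1
      push_cast at h1
      nlinarith
    · have h3 : N = k + 1 := by omega
      have h4 := (H.range hN).2
      rw [h3] at h4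
      push_cast at h4
      exact h4

/-- The values at a vertex. -/
theorem slk_vert {k : ℕ} (hk : k ≠ N) (j : ℝ) :
    slk N k j (j ^ 2) = (j - k) * (j - k - 1) := by
  rw [slk_lo hk]; ring

theorem slk_vert_top (j : ℝ) : slk N N j (j ^ 2) = j * (N - j) := by
  rw [slk_top]; ring

/-- Two edges meet at a vertex. -/
theorem KK.two (hN : 2 ≤ N) (H : KK N s h) {k l : ℕ} (hk : k ≤ N) (hl : l ≤ N) (hkl : k < l)
    (h1 : slk N k s h = 0) (h2 : slk N l s h = 0) : ∃ j : ℕ, j ≤ N ∧ s = j ∧ h = (j : ℝ) ^ 2 := by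
  have hN' : (2 : ℝ) ≤ N := by exact_mod_cast hN
  have hkN : k < N := by omega
  have r1 := H.lo_range hN hkN h1
  rcases hl.eq_or_lt with hlN | hlN
  · -- the top edge
    subst hlN
    rw [slk_top] at h2
    rw [slk_lo hkN.ne] at h1
    have e1 : (k : ℝ) + 1 ≤ l := by exact_mod_cast hkN
    have e0 : (0 : ℝ) ≤ k := Nat.cast_nonneg k
    set θ : ℝ := s - k with hθ
    have hθ0 : 0 ≤ θ := by linarith [r1.1]
    have hθ1 : 0 ≤ 1 - θ := by linarith [r1.2]
    have a1 : 0 ≤ (1 - θ) * (k * (l - k)) := mul_nonneg hθ1 (mul_nonneg e0 (by linarith))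
    have a2 : 0 ≤ θ * ((k + 1) * (l - k - 1)) :=
      mul_nonneg hθ0 (mul_nonneg (by linarith) (by linarith))
    have a3 : (1 - θ) * (k * (l - k)) + θ * ((k + 1) * (l - k - 1)) = 0 := by
      have e : (1 - θ) * ((k : ℝ) * (l - k)) + θ * ((k + 1) * (l - k - 1)) =
        (l * s - h) + (k * (k + 1) - (2 * k + 1) * s + h) := by
        rw [hθ]; ring
      rw [e, h1, h2, add_zero]
    have a4 : (1 - θ) * ((k : ℝ) * (l - k)) = 0 := by linarith
    have a5 : θ * (((k : ℝ) + 1) * (l - k - 1)) = 0 := by linarith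
    have hlk : (l : ℝ) - k ≠ 0 := by
      have : (0 : ℝ) < l - k := by linarith
      exact this.ne'
    rcases mul_eq_zero.mp a4 with b1 | b1
    · -- `θ = 1`
      have hθe : θ = 1 := by linarith
      have b2 : (l : ℝ) - k - 1 = 0 := by
        rw [hθe, one_mul] at a5
        rcases mul_eq_zero.mp a5 with b3 | b3
        · linarith
        · exact b3
      refine ⟨l, le_rfl, by linarith, ?_⟩
      have hs : s = l := by linarith
      rw [hs] at h2
      nlinarith
    · have hk0 : (k : ℝ) = 0 := (mul_eq_zero.mp b1).resolve_right hlk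
      rcases mul_eq_zero.mp a5 with b2 | b2
      · refine ⟨0, Nat.zero_le _, ?_, ?_⟩
        · push_cast; linarith
        · have hs : s = 0 := by linarith
          rw [hs] at h2
          push_cast
          linarith
      · rcases mul_eq_zero.mp b2 with b3 | b3
        · linarith
        · linarith
  · have r2 := H.lo_range hN hlN h2
    have e1 : (k : ℝ) + 1 ≤ l := by exact_mod_cast hkl
    have hs : s = l := by linarith [r1.2, r2.1]
    refine ⟨l, hl, hs, ?_⟩
    rw [slk_lo hlN.ne, hs] at h2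
    nlinarith

/-- The edges at a vertex. -/
theorem zero_vert (hN : 2 ≤ N) {j k : ℕ} (hj : j ≤ N) (hk : k ≤ N)
    (h0 : slk N k j ((j : ℝ) ^ 2) = 0) : k = j ∨ k = if j = 0 then N else j - 1 := by
  rcases hk.eq_or_lt with hkN | hkN
  · subst hkN
    rw [slk_vert_top] at h0
    rcases mul_eq_zero.mp h0 with h1 | h1
    · right
      rw [if_pos (by exact_mod_cast h1)]
    · left
      have : (k : ℝ) = j := by linarith
      exact_mod_cast this
  · rw [slk_vert hkN.ne] at h0
    rcases mul_eq_zero.mp h0 with h1 | h1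
    · left
      have : (k : ℝ) = j := by linarith
      exact_mod_cast this
    · right
      have h2 : (j : ℝ) = ((k + 1 : ℕ) : ℝ) := by push_cast; linarith
      have h3 : j = k + 1 := by exact_mod_cast h2
      rw [if_neg (by omega)]
      omega

/-- The active edges. -/
noncomputable def Ac (N : ℕ) (s h : ℝ) : Finset (Fin (N + 1)) :=
  univ.filter fun k => slk N k s h = 0

theorem mem_Ac {k : Fin (N + 1)} : k ∈ Ac N s h ↔ slk N k s h = 0 := by simp [Ac]

theorem KK.vert (hN : 2 ≤ N) (H : KK N s h) (h2 : 2 ≤ (Ac N s h).card) :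
    ∃ j : ℕ, j ≤ N ∧ s = j ∧ h = (j : ℝ) ^ 2 := by
  obtain ⟨k, hk, l, hl, hkl⟩ := one_lt_card.mp (by omega : 1 < (Ac N s h).card)
  rw [mem_Ac] at hk hl
  rcases lt_or_gt_of_ne (fun hc => hkl (Fin.ext hc) : (k : ℕ) ≠ l) with h3 | h3
  · exact H.two hN (by omega) (by omega) h3 hk hl
  · exact H.two hN (by omega) (by omega) h3 hl hk

theorem KK.card (hN : 2 ≤ N) (H : KK N s h) : (Ac N s h).card ≤ 2 := by
  by_contra hc
  push Not at hc
  obtain ⟨j, hj, hs, hh⟩ := H.vert hN (by omega)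
  have hsub : (Ac N s h).image Fin.val ⊆ {j, if j = 0 then N else j - 1} := by
    intro k hk
    obtain ⟨k', hk', rfl⟩ := mem_image.mp hk
    rw [mem_Ac, hs, hh] at hk'
    rw [mem_insert, mem_singleton]
    exact zero_vert hN hj (by omega) hk'
  have h1 := card_le_card hsub
  rw [card_image_of_injective _ Fin.val_injective] at h1
  have h2 : ({j, if j = 0 then N else j - 1} : Finset ℕ).card ≤ 2 := card_le_two
  omega

/-! ### points with prescribed active edges -/

/-- The active edges at the point are those of `Z`. -/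
def Fac (N : ℕ) (s h : ℝ) (Z : Finset (Fin (N + 1))) : Prop :=
  ∀ k : Fin (N + 1), (k ∈ Z → slk N k s h = 0) ∧ (k ∉ Z → 0 < slk N k s h)

theorem Fac.kk {Z : Finset (Fin (N + 1))} (H : Fac N s h Z) : KK N s h := by
  intro k hk
  obtain ⟨h1, h2⟩ := H ⟨k, by omega⟩
  by_cases hZ : (⟨k, by omega⟩ : Fin (N + 1)) ∈ Z
  · exact (h1 hZ).ge
  · exact (h2 hZ).le

theorem slk_pt {k : ℕ} (hk : k ≠ N) (i θ : ℝ) :
    slk N k (i + θ) (i ^ 2 + (2 * i + 1) * θ) = (k - i) * (k - i + 1 - 2 * θ) := by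
  rw [slk_lo hk]; ring

theorem slk_pt_top (i θ : ℝ) :
    slk N N (i + θ) (i ^ 2 + (2 * i + 1) * θ) =
      (1 - θ) * (i * (N - i)) + θ * ((i + 1) * (N - i - 1)) := by
  rw [slk_top]; ring

theorem fac_edge (hN : 2 ≤ N) {i : ℕ} (hi : i < N) {θ : ℝ} (h0 : 0 < θ) (h1 : θ < 1) :
    Fac N (i + θ) ((i : ℝ) ^ 2 + (2 * i + 1) * θ) {⟨i, by omega⟩} := by
  intro k
  have hN' : (2 : ℝ) ≤ N := by exact_mod_cast hN
  have hi' : (i : ℝ) + 1 ≤ N := by exact_mod_cast hi
  have hi0 : (0 : ℝ) ≤ i := Nat.cast_nonneg i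
  constructor
  · intro hk
    rw [mem_singleton] at hk
    subst hk
    rw [slk_pt hi.ne, sub_self, zero_mul]
  · intro hk
    rw [mem_singleton] at hk
    have hki : (k : ℕ) ≠ i := fun hc => hk (Fin.ext hc)
    by_cases hkN : (k : ℕ) = N
    · rw [hkN, slk_pt_top]
      rcases Nat.eq_zero_or_pos i with hi00 | hi00
      · subst hi00
        push_cast
        nlinarith
      · have : (1 : ℝ) ≤ i := by exact_mod_cast hi00
        have a1 : 0 < (1 - θ) * (i * (N - i)) :=
          mul_pos (by linarith) (mul_pos (by linarith) (by linarith))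
        have a2 : 0 ≤ θ * ((i + 1) * ((N : ℝ) - i - 1)) :=
          mul_nonneg h0.le (mul_nonneg (by linarith) (by linarith))
        linarith
    · rw [slk_pt hkN]
      rcases Nat.lt_or_gt_of_ne hki with h2 | h2
      · have : (k : ℝ) + 1 ≤ i := by exact_mod_cast h2
        exact mul_pos_of_neg_of_neg (by linarith) (by linarith)
      · have : (i : ℝ) + 1 ≤ (k : ℕ) := by exact_mod_cast h2
        exact mul_pos (by linarith) (by linarith)

theorem fac_vert {i : ℕ} (hi0 : 1 ≤ i) (hi : i < N) :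
    Fac N i ((i : ℝ) ^ 2) {⟨i - 1, by omega⟩, ⟨i, by omega⟩} := by
  intro k
  have hi' : (i : ℝ) + 1 ≤ N := by exact_mod_cast hi
  have hi1 : (1 : ℝ) ≤ i := by exact_mod_cast hi0
  constructor
  · intro hk
    rw [mem_insert, mem_singleton] at hk
    rcases hk with rfl | rfl
    · rw [slk_vert (by simp only; omega), Nat.cast_sub hi0]
      push_cast
      ring
    · rw [slk_vert hi.ne, sub_self, zero_mul]
  · intro hk
    rw [mem_insert, mem_singleton, not_or] at hk
    have hki : (k : ℕ) ≠ i := fun hc => hk.2 (Fin.ext hc)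
    have hki' : (k : ℕ) ≠ i - 1 := fun hc => hk.1 (Fin.ext hc)
    by_cases hkN : (k : ℕ) = N
    · rw [hkN, slk_vert_top]
      exact mul_pos (by linarith) (by linarith)
    · rw [slk_vert hkN]
      rcases Nat.lt_or_gt_of_ne hki with h2 | h2
      · have h3 : (k : ℕ) + 2 ≤ i := by omega
        have : (k : ℝ) + 2 ≤ i := by exact_mod_cast h3
        exact mul_pos (by linarith) (by linarith)
      · have : (i : ℝ) + 1 ≤ (k : ℕ) := by exact_mod_cast h2
        exact mul_pos_of_neg_of_neg (by linarith) (by linarith)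

theorem fac_top (hN : 2 ≤ N) : Fac N (N / 2) ((N : ℝ) ^ 2 / 2) {⟨N, by omega⟩} := by
  intro k
  have hN' : (2 : ℝ) ≤ N := by exact_mod_cast hN
  constructor
  · intro hk
    rw [mem_singleton] at hk
    subst hk
    rw [slk_top]
    ring
  · intro hk
    rw [mem_singleton] at hk
    have hkN : (k : ℕ) ≠ N := fun hc => hk (Fin.ext hc)
    rw [slk_lo hkN]
    nlinarith [sq_nonneg ((N : ℝ) / 2 - (k : ℕ) - 1 / 2)]

theorem fac_safe (hN : 2 ≤ N) : Fac N (N / 2) ((N : ℝ) ^ 2 / 2 - 1 / 2) ∅ := by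
  intro k
  have hN' : (2 : ℝ) ≤ N := by exact_mod_cast hN
  refine ⟨fun hk => absurd hk (notMem_empty _), fun _ => ?_⟩
  by_cases hkN : (k : ℕ) = N
  · rw [hkN, slk_top]
    nlinarith
  · rw [slk_lo hkN]
    nlinarith [sq_nonneg ((N : ℝ) / 2 - (k : ℕ) - 1 / 2)]

/-- The point above the centre of a cut. -/
theorem fac_cut {a : ℕ} {ε : ℝ} (h0 : 0 < ε) (h1 : ε < 2 * (a * (N - a))) :
    Fac N a ((a : ℝ) ^ 2 + ε / 2) ∅ := by
  intro k
  refine ⟨fun hk => absurd hk (notMem_empty _), fun _ => ?_⟩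
  by_cases hkN : (k : ℕ) = N
  · rw [hkN, slk_top]
    nlinarith
  · rw [slk_lo hkN]
    have h2 : 0 ≤ ((a : ℝ) - (k : ℕ)) * (a - (k : ℕ) - 1) := by
      rcases Nat.lt_or_ge (k : ℕ) a with h3 | h3
      · have : ((k : ℕ) : ℝ) + 1 ≤ a := by exact_mod_cast h3
        exact mul_nonneg (by linarith) (by linarith)
      · have : (a : ℝ) ≤ (k : ℕ) := by exact_mod_cast h3
        exact mul_nonneg_of_nonpos_of_nonpos (by linarith) (by linarith)
    nlinarith

end Quad56
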