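import Pool.Agent.Quad56.Asm
import Pool.Agent.Quad56.Pl

/-!
# The example: a product of two polygons with cut vertices

Working file of helper56 for MP_f8fadf_co.
-/

namespace Quad56

open Finset
open scoped InnerProductSpace

/-- The index type of the inequalities. -/
abbrev Idx (N M G1 G2 : ℕ) := Fin (N + 1) ⊕ (Fin (M + 1) ⊕ (Fin G1 × Fin G2))

/-- The centres of the cuts. -/
def cen (q t : ℕ) : ℕ := (20 * q + 3) * t + (10 * q + 1)

noncomputable def eps (q : ℕ) : ℝ := (10 * q : ℝ) ^ 2 - 1 / 2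

/-- The slack of a cut. -/
noncomputable def cut (q t1 t2 : ℕ) (s h s' h' : ℝ) : ℝ :=
  (h - 2 * cen q t1 * s + (cen q t1 : ℝ) ^ 2) + (h' - 2 * cen q t2 * s' + (cen q t2 : ℝ) ^ 2) -
    eps q

noncomputable def nrm (N k : ℕ) : ℝ × ℝ := if k = N then (-(N : ℝ), 1) else (2 * k + 1, -1)

noncomputable def rhs (N k : ℕ) : ℝ := if k = N then 0 else k * (k + 1)

theorem slk_eq (N k : ℕ) (s h : ℝ) :
    rhs N k - ((nrm N k).1 * s + (nrm N k).2 * h) = slk N k s h := by
  unfold rhs nrm slk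
  split_ifs <;> ring

variable {q N M G1 G2 n : ℕ}

noncomputable def UU (q : ℕ) : Idx N M G1 G2 → E4
  | .inl k => !₂[(nrm N k).1, (nrm N k).2, 0, 0]
  | .inr (.inl k) => !₂[0, 0, (nrm M k).1, (nrm M k).2]
  | .inr (.inr t) => !₂[2 * cen q t.1, -1, 2 * cen q t.2, -1]

noncomputable def BB (q : ℕ) : Idx N M G1 G2 → ℝ
  | .inl k => rhs N k
  | .inr (.inl k) => rhs M k
  | .inr (.inr t) => (cen q t.1 : ℝ) ^ 2 + (cen q t.2 : ℝ) ^ 2 - eps q

noncomputable def SS (q : ℕ) (p : E4) : Idx N M G1 G2 → ℝ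
  | .inl k => slk N k (p 0) (p 1)
  | .inr (.inl k) => slk M k (p 2) (p 3)
  | .inr (.inr t) => cut q t.1 t.2 (p 0) (p 1) (p 2) (p 3)

theorem inner4 (a b c d : ℝ) (p : E4) :
    ⟪(!₂[a, b, c, d] : E4), p⟫_ℝ = a * p 0 + b * p 1 + c * p 2 + d * p 3 := by
  rw [PiLp.inner_apply, Fin.sum_univ_four]
  simp only [RCLike.inner_apply, conj_trivial, Matrix.cons_val_zero, Matrix.cons_val_one,
    Matrix.cons_val]
  ring

theorem slack (p : E4) (i : Idx N M G1 G2) : BB q i - ⟪UU q i, p⟫_ℝ = SS q p i := by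
  rcases i with k | k | t
  · change rhs N k - ⟪(!₂[(nrm N k).1, (nrm N k).2, 0, 0] : E4), p⟫_ℝ = slk N k (p 0) (p 1)
    rw [inner4, ← slk_eq]
    ring
  · change rhs M k - ⟪(!₂[0, 0, (nrm M k).1, (nrm M k).2] : E4), p⟫_ℝ = slk M k (p 2) (p 3)
    rw [inner4, ← slk_eq]
    ring
  · change (cen q t.1 : ℝ) ^ 2 + (cen q t.2 : ℝ) ^ 2 - eps q -
      ⟪(!₂[2 * cen q t.1, -1, 2 * cen q t.2, -1] : E4), p⟫_ℝ =
      cut q t.1 t.2 (p 0) (p 1) (p 2) (p 3)
    rw [inner4]
    unfold cut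
    ring

section Poly

variable (e : Idx N M G1 G2 ≃ Fin n)

/-- The normals with the indices `Fin n`. -/
noncomputable def ue (q : ℕ) (e : Idx N M G1 G2 ≃ Fin n) (i : Fin n) : E4 := UU q (e.symm i)

noncomputable def be (q : ℕ) (e : Idx N M G1 G2 ≃ Fin n) (i : Fin n) : ℝ := BB q (e.symm i)

theorem mem_poly {p : E4} : p ∈ Poly (ue q e) (be q e) ↔ ∀ i, 0 ≤ SS q p (e.symm i) := by
  constructor
  · intro h i
    rw [← slack]
    exact sub_nonneg.mpr (h i)
  · intro h i
    have := h i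
    rw [← slack] at this
    exact sub_nonneg.mp this

theorem mem_poly' {p : E4} : p ∈ Poly (ue q e) (be q e) ↔ KK N (p 0) (p 1) ∧ KK M (p 2) (p 3) ∧
    ∀ t : Fin G1 × Fin G2, 0 ≤ cut q t.1 t.2 (p 0) (p 1) (p 2) (p 3) := by
  rw [mem_poly]
  constructor
  · intro h
    refine ⟨fun k hk => ?_, fun k hk => ?_, fun t => ?_⟩
    · have := h (e (.inl ⟨k, by omega⟩))
      rw [Equiv.symm_apply_apply] at this
      exact this
    · have := h (e (.inr (.inl ⟨k, by omega⟩)))
      rw [Equiv.symm_apply_apply] at this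
      exact this
    · have := h (e (.inr (.inr t)))
      rw [Equiv.symm_apply_apply] at this
      exact this
  · rintro ⟨h1, h2, h3⟩ i
    rcases e.symm i with k | k | t
    · exact h1 k (by omega)
    · exact h2 k (by omega)
    · exact h3 t

/-- The active set of a point. -/
noncomputable def AI (q : ℕ) (p : E4) : Finset (Idx N M G1 G2) :=
  (Ac N (p 0) (p 1)).disjSum ((Ac M (p 2) (p 3)).disjSum
    (univ.filter fun t : Fin G1 × Fin G2 => cut q t.1 t.2 (p 0) (p 1) (p 2) (p 3) = 0))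

theorem mem_AI {p : E4} {i : Idx N M G1 G2} : i ∈ AI q p ↔ SS q p i = 0 := by
  unfold AI
  rcases i with k | k | t
  · rw [inl_mem_disjSum, mem_Ac]
    rfl
  · rw [inr_mem_disjSum, inl_mem_disjSum, mem_Ac]
    rfl
  · rw [inr_mem_disjSum, inr_mem_disjSum, mem_filter]
    simp only [mem_univ, true_and]
    rfl

theorem act_eq (p : E4) : act (ue q e) (be q e) p = (AI q p).map e.toEmbedding := by
  ext i
  rw [mem_act, mem_map_equiv, mem_AI, ← slack]
  unfold ue be
  constructor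
  · intro h
    rw [h, sub_self]
  · intro h
    linarith

end Poly

/-! ### the cuts -/

theorem cen_dist {t t' : ℕ} (h : t ≠ t') : (20 * q + 3 : ℝ) ≤ |(cen q t : ℝ) - cen q t'| := by
  unfold cen
  push_cast
  have h1 : (1 : ℝ) ≤ |(t : ℝ) - t'| := by
    have h2 : (1 : ℤ) ≤ |(t : ℤ) - t'| := Int.one_le_abs (by omega)
    exact_mod_cast h2
  have h3 : ((20 * q + 3 : ℝ) * t + (10 * q + 1)) - ((20 * q + 3 : ℝ) * t' + (10 * q + 1)) =
      (20 * q + 3) * (t - t') := by ring
  rw [h3, abs_mul, abs_of_nonneg (by positivity : (0 : ℝ) ≤ 20 * q + 3)]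
  have h4 : (0 : ℝ) ≤ 20 * q + 3 := by positivity
  nlinarith

theorem cut_ge (hN : 2 ≤ N) (hM : 2 ≤ M) {s h s' h' : ℝ} (H1 : KK N s h) (H2 : KK M s' h')
    (t1 t2 : ℕ) : (s - cen q t1) ^ 2 + (s' - cen q t2) ^ 2 - eps q ≤ cut q t1 t2 s h s' h' := by
  have h1 := H1.sq hN
  have h2 := H2.sq hM
  unfold cut
  nlinarith

theorem cut_near (hN : 2 ≤ N) (hM : 2 ≤ M) {s h s' h' : ℝ} (H1 : KK N s h) (H2 : KK M s' h')
    {t1 t2 : ℕ} (h0 : cut q t1 t2 s h s' h' ≤ 0) :
    |s - cen q t1| ≤ 10 * q ∧ |s' - cen q t2| ≤ 10 * q := by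
  have h1 := cut_ge (q := q) hN hM H1 H2 t1 t2
  unfold eps at h1
  have h2 : (0 : ℝ) ≤ 10 * q := by positivity
  constructor
  · apply abs_le_of_sq_le_sq _ h2
    nlinarith [sq_nonneg (s' - cen q t2)]
  · apply abs_le_of_sq_le_sq _ h2
    nlinarith [sq_nonneg (s - cen q t1)]

theorem cut_far (hN : 2 ≤ N) (hM : 2 ≤ M) {s h s' h' : ℝ} (H1 : KK N s h) (H2 : KK M s' h')
    {t1 t2 t1' t2' : ℕ} (hs : |s - cen q t1| ≤ 10 * q) (hs' : |s' - cen q t2| ≤ 10 * q)
    (hne : t1' ≠ t1 ∨ t2' ≠ t2) : 0 < cut q t1' t2' s h s' h' := by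
  by_contra hc
  push Not at hc
  obtain ⟨k1, k2⟩ := cut_near hN hM H1 H2 hc
  rcases hne with hne | hne
  · have h1 := cen_dist (q := q) hne
    have h2 : |(cen q t1' : ℝ) - cen q t1| ≤ |s - cen q t1'| + |s - cen q t1| := by
      calc |(cen q t1' : ℝ) - cen q t1| = |(s - cen q t1) - (s - cen q t1')| := by
            congr 1; ring
        _ ≤ |s - cen q t1| + |s - cen q t1'| := abs_sub _ _
        _ = _ := add_comm _ _
    linarith
  · have h1 := cen_dist (q := q) hne
    have h2 : |(cen q t2' : ℝ) - cen q t2| ≤ |s' - cen q t2'| + |s' - cen q t2| := by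
      calc |(cen q t2' : ℝ) - cen q t2| = |(s' - cen q t2) - (s' - cen q t2')| := by
            congr 1; ring
        _ ≤ |s' - cen q t2| + |s' - cen q t2'| := abs_sub _ _
        _ = _ := add_comm _ _
    linarith

theorem cut_vert (t1 t2 : ℕ) (x y : ℝ) : cut q t1 t2 x (x ^ 2) y (y ^ 2) =
    (x - cen q t1) ^ 2 + (y - cen q t2) ^ 2 - eps q := by
  unfold cut; ring

theorem cut_int (t1 t2 j j' : ℕ) : cut q t1 t2 j ((j : ℝ) ^ 2) j' ((j' : ℝ) ^ 2) ≠ 0 := by
  rw [cut_vert]
  unfold eps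
  intro h
  have h1 : (((2 * (((j : ℤ) - cen q t1) ^ 2 + ((j' : ℤ) - cen q t2) ^ 2 - (10 * q) ^ 2) + 1 :
      ℤ)) : ℝ) = 0 := by
    push_cast
    linarith
  have h2 : (2 * (((j : ℤ) - cen q t1) ^ 2 + ((j' : ℤ) - cen q t2) ^ 2 - (10 * q) ^ 2) + 1 :
      ℤ) = 0 := by exact_mod_cast h1
  omega

/-- The parameters are admissible. -/
structure Adm (q N M G1 G2 : ℕ) : Prop where
  hq : 1 ≤ q
  h1 : 1 ≤ G1
  h2 : 1 ≤ G2
  hN : (20 * q + 3) * G1 ≤ N
  hM : (20 * q + 3) * G2 ≤ M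

theorem Adm.N2 (A : Adm q N M G1 G2) : 20 * q + 3 ≤ N :=
  le_trans (Nat.le_mul_of_pos_right _ A.h1) A.hN

theorem Adm.M2 (A : Adm q N M G1 G2) : 20 * q + 3 ≤ M :=
  le_trans (Nat.le_mul_of_pos_right _ A.h2) A.hM

theorem cen_le {G t : ℕ} (ht : t < G) (hN : (20 * q + 3) * G ≤ N) :
    cen q t + (10 * q + 2) ≤ N := by
  have h1 : (20 * q + 3) * (t + 1) ≤ (20 * q + 3) * G := Nat.mul_le_mul_left _ ht
  unfold cen
  rw [Nat.mul_add] at h1
  omega

theorem cc_card (A : Adm q N M G1 G2) {s h s' h' : ℝ} (H1 : KK N s h) (H2 : KK M s' h') :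
    (univ.filter fun t : Fin G1 × Fin G2 => cut q t.1 t.2 s h s' h' = 0).card ≤ 1 := by
  have hN := A.N2
  have hM := A.M2
  rw [card_le_one]
  intro t ht t' ht'
  simp only [mem_filter, mem_univ, true_and] at ht ht'
  by_contra hne
  obtain ⟨k1, k2⟩ := cut_near (by omega) (by omega) H1 H2 ht.le
  have := cut_far (q := q) (by omega) (by omega) H1 H2 (t1' := t'.1) (t2' := t'.2) k1 k2 (by
    by_contra hc
    push Not at hc
    exact hne (Prod.ext (Fin.ext hc.1.symm) (Fin.ext hc.2.symm)))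
  rw [ht'] at this
  exact lt_irrefl _ this

theorem simple_card (A : Adm q N M G1 G2) (e : Idx N M G1 G2 ≃ Fin n) {p : E4}
    (hp : p ∈ Poly (ue q e) (be q e)) : (act (ue q e) (be q e) p).card ≤ 4 := by
  have hN := A.N2
  have hM := A.M2
  obtain ⟨H1, H2, H3⟩ := (mem_poly' e).mp hp
  rw [act_eq, card_map]
  unfold AI
  rw [card_disjSum, card_disjSum]
  have c1 := H1.card (by omega)
  have c2 := H2.card (by omega)
  have c3 := cc_card A H1 H2
  by_contra hc
  push Not at hc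
  obtain ⟨j, hj, hs, hh⟩ := H1.vert (by omega) (by omega)
  obtain ⟨j', hj', hs', hh'⟩ := H2.vert (by omega) (by omega)
  have hne : (univ.filter fun t : Fin G1 × Fin G2 =>
      cut q t.1 t.2 (p 0) (p 1) (p 2) (p 3) = 0).Nonempty := by
    rw [← card_pos]
    omega
  obtain ⟨t, ht⟩ := hne
  simp only [mem_filter, mem_univ, true_and] at ht
  rw [hs, hh, hs', hh'] at ht
  exact cut_int _ _ _ _ ht

/-- A point with prescribed coordinates. -/
noncomputable def mk (s h s' h' : ℝ) : E4 := !₂[s, h, s', h']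

theorem mk0 (s h s' h' : ℝ) : mk s h s' h' 0 = s := rfl
theorem mk1 (s h s' h' : ℝ) : mk s h s' h' 1 = h := rfl
theorem mk2 (s h s' h' : ℝ) : mk s h s' h' 2 = s' := rfl
theorem mk3 (s h s' h' : ℝ) : mk s h s' h' 3 = h' := rfl

theorem act_mk (e : Idx N M G1 G2 ≃ Fin n) {s h s' h' : ℝ} {Z1 : Finset (Fin (N + 1))}
    {Z2 : Finset (Fin (M + 1))} {Z3 : Finset (Fin G1 × Fin G2)} (F1 : Fac N s h Z1)
    (F2 : Fac M s' h' Z2)
    (F3 : ∀ t : Fin G1 × Fin G2, (t ∈ Z3 → cut q t.1 t.2 s h s' h' = 0) ∧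
      (t ∉ Z3 → 0 < cut q t.1 t.2 s h s' h')) :
    mk s h s' h' ∈ Poly (ue q e) (be q e) ∧
      act (ue q e) (be q e) (mk s h s' h') = (Z1.disjSum (Z2.disjSum Z3)).map e.toEmbedding := by
  constructor
  · rw [mem_poly', mk0, mk1, mk2, mk3]
    refine ⟨F1.kk, F2.kk, fun t => ?_⟩
    by_cases ht : t ∈ Z3
    · exact ((F3 t).1 ht).ge
    · exact ((F3 t).2 ht).le
  · rw [act_eq]
    congr 1
    unfold AI
    rw [mk0, mk1, mk2, mk3]
    congr 1
    · ext k
      rw [mem_Ac]
      constructor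
      · intro h0
        by_contra hk
        exact ((F1 k).2 hk).ne' h0
      · exact (F1 k).1
    · congr 1
      · ext k
        rw [mem_Ac]
        constructor
        · intro h0
          by_contra hk
          exact ((F2 k).2 hk).ne' h0
        · exact (F2 k).1
      · ext t
        simp only [mem_filter, mem_univ, true_and]
        constructor
        · intro h0
          by_contra hk
          exact ((F3 t).2 hk).ne' h0
        · exact (F3 t).1

theorem exists_fac (hN : 2 ≤ N) (k : Fin (N + 1)) : ∃ s h : ℝ, Fac N s h {k} := by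
  by_cases hk : (k : ℕ) = N
  · have := fac_top hN
    rw [show (⟨N, by omega⟩ : Fin (N + 1)) = k from Fin.ext hk.symm] at this
    exact ⟨_, _, this⟩
  · refine ⟨_, _, fac_edge hN (i := k) (by omega) (θ := 1 / 2) (by norm_num) (by norm_num)⟩

/-- No cut at a safe point. -/
theorem cut_safe1 (hN : 2 ≤ N) (hM : 20 * q + 3 ≤ M) {s h : ℝ} (H1 : KK N s h) (t1 t2 : ℕ) :
    0 < cut q t1 t2 s h ((M : ℝ) / 2) ((M : ℝ) ^ 2 / 2 - 1 / 2) := by
  have h1 := H1.sq hN
  have h2 : (20 * q + 3 : ℝ) ≤ M := by exact_mod_cast hM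
  have h3 : (0 : ℝ) ≤ q := Nat.cast_nonneg q
  unfold cut eps
  have h4 : (20 * (q : ℝ) + 3) ^ 2 ≤ (M : ℝ) ^ 2 := by
    apply pow_le_pow_left₀ (by positivity) h2
  nlinarith [sq_nonneg (s - cen q t1), sq_nonneg ((cen q t2 : ℝ) - M / 2)]

theorem cut_safe2 (hM : 2 ≤ M) (hN : 20 * q + 3 ≤ N) {s' h' : ℝ} (H2 : KK M s' h') (t1 t2 : ℕ) :
    0 < cut q t1 t2 ((N : ℝ) / 2) ((N : ℝ) ^ 2 / 2 - 1 / 2) s' h' := by
  have := cut_safe1 (q := q) hM hN H2 t2 t1
  unfold cut at *
  linarith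

theorem fac_cen {G t : ℕ} (hq : 1 ≤ q) (ht : t < G) (hN : (20 * q + 3) * G ≤ N) :
    Fac N (cen q t) ((cen q t : ℝ) ^ 2 + eps q / 2) ∅ := by
  have h1 := cen_le ht hN
  have h2 : 10 * q + 1 ≤ cen q t := Nat.le_add_left _ _
  have h1' : (cen q t : ℝ) + (10 * q + 2) ≤ N := by exact_mod_cast h1
  have h2' : (10 * q + 1 : ℝ) ≤ cen q t := by exact_mod_cast h2
  have hq' : (1 : ℝ) ≤ q := by exact_mod_cast hq
  apply fac_cut
  · unfold eps
    nlinarith
  · have h3 : (10 * q + 1 : ℝ) * (10 * q + 2) ≤ cen q t * (N - cen q t) :=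
      mul_le_mul h2' (by linarith) (by positivity) (by positivity)
    unfold eps
    nlinarith

/-- The example is a simple 4-polytope. -/
theorem simple4 (A : Adm q N M G1 G2) (e : Idx N M G1 G2 ≃ Fin n) :
    Simple4 (ue q e) (be q e) where
  bdd := by
    have hN := A.N2
    have hM := A.M2
    rw [isBounded_iff_forall_norm_le]
    refine ⟨N + (N : ℝ) ^ 2 + M + (M : ℝ) ^ 2, fun p hp => ?_⟩
    obtain ⟨H1, H2, -⟩ := (mem_poly' e).mp hp
    obtain ⟨a1, a2⟩ := H1.range (by omega)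
    obtain ⟨a3, a4⟩ := H2.range (by omega)
    have b1 := H1.le (by omega)
    have b2 := H2.le (by omega)
    have b3 : 0 ≤ p 1 := le_trans (sq_nonneg _) (H1.sq (by omega))
    have b4 : 0 ≤ p 3 := le_trans (sq_nonneg _) (H2.sq (by omega))
    apply le_of_sq_le_sq _ (by positivity)
    rw [EuclideanSpace.norm_sq_eq, Fin.sum_univ_four]
    simp only [Real.norm_eq_abs, sq_abs]
    have c1 : (p 0) ^ 2 ≤ (N : ℝ) ^ 2 := pow_le_pow_left₀ a1 a2 2
    have c2 : (p 1) ^ 2 ≤ ((N : ℝ) ^ 2) ^ 2 := pow_le_pow_left₀ b3 b1 2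
    have c3 : (p 2) ^ 2 ≤ (M : ℝ) ^ 2 := pow_le_pow_left₀ a3 a4 2
    have c4 : (p 3) ^ 2 ≤ ((M : ℝ) ^ 2) ^ 2 := pow_le_pow_left₀ b4 b2 2
    have d1 : (0 : ℝ) ≤ N := Nat.cast_nonneg N
    have d2 : (0 : ℝ) ≤ M := Nat.cast_nonneg M
    have d3 : (0 : ℝ) ≤ (N : ℝ) ^ 2 := sq_nonneg _
    have d4 : (0 : ℝ) ≤ (M : ℝ) ^ 2 := sq_nonneg _
    nlinarith [mul_nonneg d1 d3, mul_nonneg d1 d2, mul_nonneg d1 d4, mul_nonneg d3 d2,
      mul_nonneg d3 d4, mul_nonneg d2 d4]
  facet i := by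
    have hN := A.N2
    have hM := A.M2
    obtain ⟨j, rfl⟩ := e.surjective i
    rcases j with k | k | t
    · obtain ⟨s, h, hf⟩ := exists_fac (N := N) (by omega) k
      obtain ⟨p1, p2⟩ := act_mk e (q := q) (Z3 := ∅) hf (fac_safe (N := M) (by omega))
        fun t => ⟨fun ht => absurd ht (notMem_empty _),
          fun _ => cut_safe1 (by omega) hM hf.kk _ _⟩
      refine ⟨_, p1, ?_⟩
      rw [p2]
      ext x
      rw [mem_map_equiv, mem_singleton]
      constructor
      · intro hx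
        rw [← e.apply_symm_apply x]
        rcases h0 : e.symm x with y | y | y
        · rw [h0, inl_mem_disjSum, mem_singleton] at hx
          rw [hx]
        · rw [h0, inr_mem_disjSum, inl_mem_disjSum] at hx
          exact absurd hx (notMem_empty _)
        · rw [h0, inr_mem_disjSum, inr_mem_disjSum] at hx
          exact absurd hx (notMem_empty _)
      · rintro rfl
        rw [Equiv.symm_apply_apply, inl_mem_disjSum]
        exact mem_singleton_self _
    · obtain ⟨s, h, hf⟩ := exists_fac (N := M) (by omega) k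
      obtain ⟨p1, p2⟩ := act_mk e (q := q) (Z3 := ∅) (fac_safe (N := N) (by omega)) hf
        fun t => ⟨fun ht => absurd ht (notMem_empty _),
          fun _ => cut_safe2 (by omega) hN hf.kk _ _⟩
      refine ⟨_, p1, ?_⟩
      rw [p2]
      ext x
      rw [mem_map_equiv, mem_singleton]
      constructor
      · intro hx
        rw [← e.apply_symm_apply x]
        rcases h0 : e.symm x with y | y | y
        · rw [h0, inl_mem_disjSum] at hx
          exact absurd hx (notMem_empty _)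
        · rw [h0, inr_mem_disjSum, inl_mem_disjSum, mem_singleton] at hx
          rw [hx]
        · rw [h0, inr_mem_disjSum, inr_mem_disjSum] at hx
          exact absurd hx (notMem_empty _)
      · rintro rfl
        rw [Equiv.symm_apply_apply, inr_mem_disjSum, inl_mem_disjSum]
        exact mem_singleton_self _
    · have f1 := fac_cen (N := N) A.hq t.1.2 A.hN
      have f2 := fac_cen (N := M) A.hq t.2.2 A.hM
      obtain ⟨p1, p2⟩ := act_mk e (q := q) (Z3 := {t}) f1 f2 fun t' => by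
        constructor
        · intro ht'
          rw [mem_singleton] at ht'
          subst ht'
          unfold cut
          ring
        · intro ht'
          rw [mem_singleton] at ht'
          refine cut_far (by omega) (by omega) f1.kk f2.kk (t1 := t.1) (t2 := t.2) ?_ ?_ ?_
          · rw [sub_self, abs_zero]
            positivity
          · rw [sub_self, abs_zero]
            positivity
          · by_contra hc
            push Not at hc
            exact ht' (Prod.ext (Fin.ext hc.1) (Fin.ext hc.2))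
      refine ⟨_, p1, ?_⟩
      rw [p2]
      ext x
      rw [mem_map_equiv, mem_singleton]
      constructor
      · intro hx
        rw [← e.apply_symm_apply x]
        rcases h0 : e.symm x with y | y | y
        · rw [h0, inl_mem_disjSum] at hx
          exact absurd hx (notMem_empty _)
        · rw [h0, inr_mem_disjSum, inl_mem_disjSum] at hx
          exact absurd hx (notMem_empty _)
        · rw [h0, inr_mem_disjSum, inr_mem_disjSum, mem_singleton] at hx
          rw [hx]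
      · rintro rfl
        rw [Equiv.symm_apply_apply, inr_mem_disjSum, inr_mem_disjSum]
        exact mem_singleton_self _
  simple p hp := simple_card A e hp

end Quad56
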