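import Pool.Agent.Quad56.Cnt

/-!
# The example with given numbers of facets

Working file of helper56 for MP_f8fadf_co.
-/

namespace Quad56

open Finset
open scoped InnerProductSpace

/-- The choice of the parameters. -/
theorem exists_par (m n : ℕ) (hm : 100 ≤ m) (hmn : 2 * m ≤ n) :
    ∃ q N M G1 G2 : ℕ, Adm q N M G1 G2 ∧ N + 1 = m ∧ (N + 1) + ((M + 1) + G1 * G2) = n ∧
      (n : ℝ) * √m / 400 ≤ ((G1 * G2 * (2 * q) : ℕ) : ℝ) := by
  obtain ⟨d, hd⟩ : ∃ d, d = (m - 1) / 23 := ⟨_, rfl⟩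
  have hd4 : 4 ≤ d := by omega
  obtain ⟨g, hg⟩ : ∃ g, g = Nat.sqrt d := ⟨_, rfl⟩
  have hg1 : g ^ 2 ≤ d := by rw [hg]; exact Nat.sqrt_le' d
  have hg2 : d < (g + 1) ^ 2 := by rw [hg]; exact Nat.lt_succ_sqrt' d
  have hg3 : 2 ≤ g := by
    by_contra hc
    push Not at hc
    have : (g + 1) ^ 2 ≤ 2 ^ 2 := Nat.pow_le_pow_left (by omega) 2
    omega
  have hgg : 2 * g ≤ g ^ 2 := by nlinarith
  have h23 : 23 * g ^ 2 ≤ m - 1 := by omega
  obtain ⟨r, hr⟩ : ∃ r, r = (n - m - 1) / (21 * g + 3) := ⟨_, rfl⟩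
  have hr1 : (21 * g + 3) * r ≤ n - m - 1 := by rw [hr]; exact Nat.mul_div_le _ _
  have hr2 : n - m - 1 < (21 * g + 3) * (r + 1) := by
    rw [hr]; exact Nat.lt_mul_div_succ _ (by omega)
  have hr3 : 1 ≤ r := by
    rw [hr, Nat.one_le_div_iff (by omega)]
    omega
  have hgr : g * r ≤ n - m - 1 := by nlinarith
  refine ⟨g, m - 1, n - m - 1 - g * r, g, r, ⟨by omega, by omega, hr3, ?_, ?_⟩, by omega,
    by omega, ?_⟩
  · have : (20 * g + 3) * g ≤ 23 * g ^ 2 := by nlinarith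
    omega
  · have : (20 * g + 3) * r + g * r = (21 * g + 3) * r := by ring
    omega
  · -- the estimate
    have e1 : (m : ℝ) ≤ 23 * ((g : ℝ) + 1) ^ 2 := by
      have : m ≤ 23 * (g + 1) ^ 2 := by omega
      exact_mod_cast this
    have e2 : (2 : ℝ) ≤ g := by exact_mod_cast hg3
    have e3 : √(m : ℝ) ≤ 8 * g := by
      rw [Real.sqrt_le_iff]
      constructor
      · linarith
      · nlinarith
    have e4 : (n : ℝ) ≤ 2 * ((21 * g + 3) * (r + 1)) := by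
      have : n ≤ 2 * ((21 * g + 3) * (r + 1)) := by omega
      exact_mod_cast this
    have e5 : (1 : ℝ) ≤ r := by exact_mod_cast hr3
    have e6 : (n : ℝ) ≤ 90 * (g * r) := by
      have h1 : (21 * (g : ℝ) + 3) ≤ 45 / 2 * g := by linarith
      have h2 : ((r : ℝ) + 1) ≤ 2 * r := by linarith
      have h3 : (21 * (g : ℝ) + 3) * (r + 1) ≤ (45 / 2 * g) * (2 * r) :=
        mul_le_mul h1 h2 (by positivity) (by positivity)
      linarith
    have e7 : (0 : ℝ) ≤ √(m : ℝ) := Real.sqrt_nonneg _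
    have e8 : (n : ℝ) * √(m : ℝ) ≤ (90 * (g * r)) * (8 * g) :=
      mul_le_mul e6 e3 e7 (by positivity)
    push_cast
    rw [div_le_iff₀ (by norm_num)]
    have e9 : (0 : ℝ) ≤ g * r * (2 * g) := by positivity
    linarith

/-- The example. -/
theorem exm (m n : ℕ) (hm : 100 ≤ m) (hmn : 2 * m ≤ n) :
    ∃ (u : Fin n → E4) (b : Fin n → ℝ) (A B : Finset (Fin n)), Simple4 u b ∧ Disjoint A B ∧
      Pencil u b A ∧ Pencil u b B ∧ A.card = m ∧
      (∀ v ∈ Poly u b, (act u b v).card = 4 → Spc u b ![A, B] v) ∧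
      ∃ Q : Finset (Fin n × Fin n), (n : ℝ) * √m / 400 ≤ Q.card ∧ ∀ z ∈ Q, z.1 ∈ A ∧ z.2 ∈ B ∧
        (∃ k ∈ A, k ≠ z.1 ∧ ∃ l ∈ A, l ≠ z.1 ∧ k ≠ l ∧
          (∃ τ ∈ tets u b, z.1 ∈ τ ∧ z.2 ∈ τ ∧ k ∈ τ) ∧
          (∃ τ ∈ tets u b, z.1 ∈ τ ∧ z.2 ∈ τ ∧ l ∈ τ)) ∧
        5 ≤ ((tets u b).filter fun τ => z.1 ∈ τ ∧ z.2 ∈ τ).card := by
  obtain ⟨q, N, M, G1, G2, hA, hN, hn, hc⟩ := exists_par m n hm hmn
  have hcard : Fintype.card (Idx N M G1 G2) = n := by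
    rw [Fintype.card_sum, Fintype.card_sum, Fintype.card_prod, Fintype.card_fin,
      Fintype.card_fin, Fintype.card_fin, Fintype.card_fin]
    exact hn
  set e : Idx N M G1 G2 ≃ Fin n := Fintype.equivFinOfCardEq hcard
  obtain ⟨Q, hQ1, hQ2⟩ := exa_card hA e
  refine ⟨ue q e, be q e, L0 e, L1 e, simple4 hA e, L_disj e, pencil0 e, pencil1 e,
    by rw [L0_card, hN], fun v hv h4 => vert_spc hA e hv h4, Q, ?_, hQ2⟩
  rw [hQ1]
  exact hc

end Quad56
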