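import Pool.Agent.Quad56.Exa

/-!
# The pentagons of the example

Working file of helper56 for MP_f8fadf_co.
-/

namespace Quad56

open Finset
open scoped InnerProductSpace

variable {q N M G1 G2 n : ℕ}

/-- The facet set with prescribed parts. -/
def TT (e : Idx N M G1 G2 ≃ Fin n) (Z1 : Finset (Fin (N + 1))) (Z2 : Finset (Fin (M + 1)))
    (Z3 : Finset (Fin G1 × Fin G2)) : Finset (Fin n) :=
  (Z1.disjSum (Z2.disjSum Z3)).map e.toEmbedding

theorem mem_TT1 (e : Idx N M G1 G2 ≃ Fin n) {Z1 : Finset (Fin (N + 1))}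
    {Z2 : Finset (Fin (M + 1))} {Z3 : Finset (Fin G1 × Fin G2)} {k : Fin (N + 1)} :
    e (.inl k) ∈ TT e Z1 Z2 Z3 ↔ k ∈ Z1 := by
  unfold TT
  rw [mem_map_equiv, Equiv.symm_apply_apply, inl_mem_disjSum]

theorem mem_TT2 (e : Idx N M G1 G2 ≃ Fin n) {Z1 : Finset (Fin (N + 1))}
    {Z2 : Finset (Fin (M + 1))} {Z3 : Finset (Fin G1 × Fin G2)} {k : Fin (M + 1)} :
    e (.inr (.inl k)) ∈ TT e Z1 Z2 Z3 ↔ k ∈ Z2 := by
  unfold TT
  rw [mem_map_equiv, Equiv.symm_apply_apply, inr_mem_disjSum, inl_mem_disjSum]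

theorem tet_mem (e : Idx N M G1 G2 ≃ Fin n) {s h s' h' : ℝ} {Z1 : Finset (Fin (N + 1))}
    {Z2 : Finset (Fin (M + 1))} {Z3 : Finset (Fin G1 × Fin G2)} (F1 : Fac N s h Z1)
    (F2 : Fac M s' h' Z2)
    (F3 : ∀ t : Fin G1 × Fin G2, (t ∈ Z3 → cut q t.1 t.2 s h s' h' = 0) ∧
      (t ∉ Z3 → 0 < cut q t.1 t.2 s h s' h'))
    (hc : Z1.card + (Z2.card + Z3.card) = 4) :
    TT e Z1 Z2 Z3 ∈ tets (ue q e) (be q e) := by
  obtain ⟨h1, h2⟩ := act_mk e F1 F2 F3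
  rw [mem_tets]
  refine ⟨?_, _, h1, h2⟩
  unfold TT
  rw [card_map, card_disjSum, card_disjSum, hc]

theorem cuts_pos (hN : 2 ≤ N) (hM : 2 ≤ M) {s h s' h' : ℝ} (H1 : KK N s h) (H2 : KK M s' h')
    (t : Fin G1 × Fin G2) (hs : |s - cen q t.1| ≤ 10 * q) (hs' : |s' - cen q t.2| ≤ 10 * q)
    (own : 0 < cut q t.1 t.2 s h s' h') (t' : Fin G1 × Fin G2) :
    (t' ∈ (∅ : Finset (Fin G1 × Fin G2)) → cut q t'.1 t'.2 s h s' h' = 0) ∧
      (t' ∉ (∅ : Finset (Fin G1 × Fin G2)) → 0 < cut q t'.1 t'.2 s h s' h') := by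
  refine ⟨fun ht => absurd ht (notMem_empty _), fun _ => ?_⟩
  by_cases htt : t' = t
  · rw [htt]
    exact own
  · refine cut_far hN hM H1 H2 hs hs' ?_
    by_contra hc
    push Not at hc
    exact htt (Prod.ext (Fin.ext hc.1) (Fin.ext hc.2))

theorem cuts_zero (hN : 2 ≤ N) (hM : 2 ≤ M) {s h s' h' : ℝ} (H1 : KK N s h) (H2 : KK M s' h')
    (t : Fin G1 × Fin G2) (hs : |s - cen q t.1| ≤ 10 * q) (hs' : |s' - cen q t.2| ≤ 10 * q)
    (own : cut q t.1 t.2 s h s' h' = 0) (t' : Fin G1 × Fin G2) :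
    (t' ∈ ({t} : Finset (Fin G1 × Fin G2)) → cut q t'.1 t'.2 s h s' h' = 0) ∧
      (t' ∉ ({t} : Finset (Fin G1 × Fin G2)) → 0 < cut q t'.1 t'.2 s h s' h') := by
  constructor
  · intro ht
    rw [mem_singleton] at ht
    rw [ht]
    exact own
  · intro ht
    rw [mem_singleton] at ht
    refine cut_far hN hM H1 H2 hs hs' ?_
    by_contra hc
    push Not at hc
    exact ht (Prod.ext (Fin.ext hc.1) (Fin.ext hc.2))

theorem five_card {α : Type*} [DecidableEq α] {a b c d f : α} (h1 : a ≠ b) (h2 : a ≠ c)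
    (h3 : a ≠ d) (h4 : a ≠ f) (h5 : b ≠ c) (h6 : b ≠ d) (h7 : b ≠ f) (h8 : c ≠ d) (h9 : c ≠ f)
    (h0 : d ≠ f) : ({a, b, c, d, f} : Finset α).card = 5 := by
  rw [card_insert_of_notMem (by simp [h1, h2, h3, h4]), card_insert_of_notMem (by simp [h5, h6, h7]),
    card_insert_of_notMem (by simp [h8, h9]), card_insert_of_notMem (by simpa using h0),
    card_singleton]

/-- The 2-face near a cut is not a 4-gon. -/
theorem five (A : Adm q N M G1 G2) (e : Idx N M G1 G2 ≃ Fin n) (t : Fin G1 × Fin G2)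
    {i0 h0 : ℕ} (hi : i0 < 10 * q) (hh : h0 < 10 * q)
    (k00 : i0 ^ 2 + h0 ^ 2 < (10 * q) ^ 2) (k10 : (10 * q) ^ 2 ≤ (i0 + 1) ^ 2 + h0 ^ 2)
    (k01 : (10 * q) ^ 2 ≤ i0 ^ 2 + (h0 + 1) ^ 2) {i j : ℕ} (hie : i = cen q t.1 + i0)
    (hje : j = cen q t.2 + h0) (hiN : i < N + 1) (hjM : j < M + 1) :
    (∃ k, k ≠ ⟨i, hiN⟩ ∧ ∃ l, l ≠ ⟨i, hiN⟩ ∧ k ≠ l ∧
      (∃ τ ∈ tets (ue q e) (be q e), e (.inl ⟨i, hiN⟩) ∈ τ ∧ e (.inr (.inl ⟨j, hjM⟩)) ∈ τ ∧
        e (.inl k) ∈ τ) ∧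
      (∃ τ ∈ tets (ue q e) (be q e), e (.inl ⟨i, hiN⟩) ∈ τ ∧ e (.inr (.inl ⟨j, hjM⟩)) ∈ τ ∧
        e (.inl l) ∈ τ)) ∧
    5 ≤ ((tets (ue q e) (be q e)).filter fun τ =>
      e (.inl ⟨i, hiN⟩) ∈ τ ∧ e (.inr (.inl ⟨j, hjM⟩)) ∈ τ).card := by
  have hN := A.N2
  have hM := A.M2
  have c1 := cen_le t.1.2 A.hN
  have c2 := cen_le t.2.2 A.hM
  have d1 : 10 * q + 1 ≤ cen q t.1 := Nat.le_add_left _ _
  have d2 : 10 * q + 1 ≤ cen q t.2 := Nat.le_add_left _ _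
  have r00 : (i0 : ℝ) ^ 2 + (h0 : ℝ) ^ 2 + 1 ≤ (10 * q) ^ 2 := by exact_mod_cast k00
  have r10 : (10 * q : ℝ) ^ 2 ≤ ((i0 : ℝ) + 1) ^ 2 + (h0 : ℝ) ^ 2 := by exact_mod_cast k10
  have r01 : (10 * q : ℝ) ^ 2 ≤ (i0 : ℝ) ^ 2 + ((h0 : ℝ) + 1) ^ 2 := by exact_mod_cast k01
  have ri : (i : ℝ) = cen q t.1 + i0 := by rw [hie]; push_cast; ring
  have rj : (j : ℝ) = cen q t.2 + h0 := by rw [hje]; push_cast; ring
  have zi : (0 : ℝ) ≤ i0 := Nat.cast_nonneg _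
  have zj : (0 : ℝ) ≤ h0 := Nat.cast_nonneg _
  have qi : (i0 : ℝ) + 1 ≤ 10 * q := by exact_mod_cast hi
  have qj : (h0 : ℝ) + 1 ≤ 10 * q := by exact_mod_cast hh
  -- the facets at the vertices
  have F1 := fac_vert (N := N) (i := i + 1) (by omega) (by omega)
  have F2 := fac_vert (N := M) (i := j + 1) (by omega) (by omega)
  have F3 := fac_vert (N := N) (i := i) (by omega) (by omega)
  have F4 := fac_vert (N := M) (i := j) (by omega) (by omega)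
  set θ : ℝ := (eps q - (i0 : ℝ) ^ 2 - (h0 : ℝ) ^ 2) / (2 * i0 + 1) with hθ
  set θ' : ℝ := (eps q - (i0 : ℝ) ^ 2 - (h0 : ℝ) ^ 2) / (2 * h0 + 1) with hθ'
  have e1 : 0 < eps q - (i0 : ℝ) ^ 2 - (h0 : ℝ) ^ 2 := by unfold eps; linarith
  have e2 : (0 : ℝ) < 2 * i0 + 1 := by linarith
  have e3 : (0 : ℝ) < 2 * h0 + 1 := by linarith
  have t0 : 0 < θ := div_pos e1 e2
  have t0' : 0 < θ' := div_pos e1 e3
  have t1 : θ < 1 := by
    rw [hθ, div_lt_one e2]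
    unfold eps
    nlinarith
  have t1' : θ' < 1 := by
    rw [hθ', div_lt_one e3]
    unfold eps
    nlinarith
  have tm : θ * (2 * i0 + 1) = eps q - (i0 : ℝ) ^ 2 - (h0 : ℝ) ^ 2 :=
    div_mul_cancel₀ _ e2.ne'
  have tm' : θ' * (2 * h0 + 1) = eps q - (i0 : ℝ) ^ 2 - (h0 : ℝ) ^ 2 :=
    div_mul_cancel₀ _ e3.ne'
  have F5 := fac_edge (N := N) (i := i) (by omega) (by omega) t0 t1
  have F6 := fac_edge (N := M) (i := j) (by omega) (by omega) t0' t1'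
  have a0 : |(i : ℝ) - cen q t.1| ≤ 10 * q := by
    rw [ri, add_sub_cancel_left, abs_of_nonneg zi]; linarith
  have a1 : |((i + 1 : ℕ) : ℝ) - cen q t.1| ≤ 10 * q := by
    rw [show ((i + 1 : ℕ) : ℝ) - cen q t.1 = i0 + 1 by push_cast; rw [ri]; ring,
      abs_of_nonneg (by linarith)]
    exact qi
  have a2 : |((i : ℝ) + θ) - cen q t.1| ≤ 10 * q := by
    rw [show ((i : ℝ) + θ) - cen q t.1 = i0 + θ by rw [ri]; ring, abs_of_nonneg (by linarith)]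
    linarith
  have b0 : |(j : ℝ) - cen q t.2| ≤ 10 * q := by
    rw [rj, add_sub_cancel_left, abs_of_nonneg zj]; linarith
  have b1 : |((j + 1 : ℕ) : ℝ) - cen q t.2| ≤ 10 * q := by
    rw [show ((j + 1 : ℕ) : ℝ) - cen q t.2 = h0 + 1 by push_cast; rw [rj]; ring,
      abs_of_nonneg (by linarith)]
    exact qj
  have b2 : |((j : ℝ) + θ') - cen q t.2| ≤ 10 * q := by
    rw [show ((j : ℝ) + θ') - cen q t.2 = h0 + θ' by rw [rj]; ring, abs_of_nonneg (by linarith)]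
    linarith
  have m1 : TT e {⟨i + 1 - 1, by omega⟩, ⟨i + 1, by omega⟩} {⟨j + 1 - 1, by omega⟩,
      ⟨j + 1, by omega⟩} ∅ ∈ tets (ue q e) (be q e) := by
    refine tet_mem e F1 F2 (cuts_pos (by omega) (by omega) F1.kk F2.kk t a1 b1 ?_) ?_
    · rw [cut_vert, show ((i + 1 : ℕ) : ℝ) - cen q t.1 = i0 + 1 by push_cast; rw [ri]; ring,
        show ((j + 1 : ℕ) : ℝ) - cen q t.2 = h0 + 1 by push_cast; rw [rj]; ring]
      unfold eps
      nlinarith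
    · rw [card_pair (by simp), card_pair (by simp), card_empty]
  have m2 : TT e {⟨i + 1 - 1, by omega⟩, ⟨i + 1, by omega⟩} {⟨j - 1, by omega⟩,
      ⟨j, by omega⟩} ∅ ∈ tets (ue q e) (be q e) := by
    refine tet_mem e F1 F4 (cuts_pos (by omega) (by omega) F1.kk F4.kk t a1 b0 ?_) ?_
    · rw [cut_vert, show ((i + 1 : ℕ) : ℝ) - cen q t.1 = i0 + 1 by push_cast; rw [ri]; ring,
        show (j : ℝ) - cen q t.2 = h0 by rw [rj]; ring]
      unfold eps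
      nlinarith
    · rw [card_pair (by simp), card_pair (by simp; omega), card_empty]
  have m3 : TT e {⟨i - 1, by omega⟩, ⟨i, by omega⟩} {⟨j + 1 - 1, by omega⟩,
      ⟨j + 1, by omega⟩} ∅ ∈ tets (ue q e) (be q e) := by
    refine tet_mem e F3 F2 (cuts_pos (by omega) (by omega) F3.kk F2.kk t a0 b1 ?_) ?_
    · rw [cut_vert, show (i : ℝ) - cen q t.1 = i0 by rw [ri]; ring,
        show ((j + 1 : ℕ) : ℝ) - cen q t.2 = h0 + 1 by push_cast; rw [rj]; ring]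
      unfold eps
      nlinarith
    · rw [card_pair (by simp; omega), card_pair (by simp), card_empty]
  have m4 : TT e {⟨i, by omega⟩} {⟨j - 1, by omega⟩, ⟨j, by omega⟩} {t} ∈
      tets (ue q e) (be q e) := by
    refine tet_mem e F5 F4 (cuts_zero (by omega) (by omega) F5.kk F4.kk t a2 b0 ?_) ?_
    · unfold cut
      rw [ri, rj]
      linear_combination tm
    · rw [card_singleton, card_pair (by simp; omega), card_singleton]
  have m5 : TT e {⟨i - 1, by omega⟩, ⟨i, by omega⟩} {⟨j, by omega⟩} {t} ∈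
      tets (ue q e) (be q e) := by
    refine tet_mem e F3 F6 (cuts_zero (by omega) (by omega) F3.kk F6.kk t a0 b2 ?_) ?_
    · unfold cut
      rw [ri, rj]
      linear_combination tm'
    · rw [card_singleton, card_pair (by simp; omega), card_singleton]
  have sep : ∀ {τ τ' : Finset (Fin n)} (v : Fin n), v ∈ τ → v ∉ τ' → τ ≠ τ' := by
    rintro τ τ' v hv hv' rfl
    exact hv' hv
  constructor
  · refine ⟨⟨i - 1, by omega⟩, fun hc => ?_, ⟨i + 1, by omega⟩, fun hc => ?_, fun hc => ?_,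
      ⟨_, m3, by rw [mem_TT1]; simp, by rw [mem_TT2]; simp, by rw [mem_TT1]; simp⟩,
      ⟨_, m2, by rw [mem_TT1]; simp, by rw [mem_TT2]; simp, by rw [mem_TT1]; simp⟩⟩
    · have := Fin.mk.inj hc
      omega
    · have := Fin.mk.inj hc
      omega
    · have := Fin.mk.inj hc
      omega
  rw [← five_card (a := TT e {⟨i + 1 - 1, by omega⟩, ⟨i + 1, by omega⟩} {⟨j + 1 - 1, by omega⟩,
      ⟨j + 1, by omega⟩} ∅)
    (b := TT e {⟨i + 1 - 1, by omega⟩, ⟨i + 1, by omega⟩} {⟨j - 1, by omega⟩,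
      ⟨j, by omega⟩} ∅)
    (c := TT e {⟨i - 1, by omega⟩, ⟨i, by omega⟩} {⟨j + 1 - 1, by omega⟩,
      ⟨j + 1, by omega⟩} ∅)
    (d := TT e {⟨i, by omega⟩} {⟨j - 1, by omega⟩, ⟨j, by omega⟩} {t})
    (f := TT e {⟨i - 1, by omega⟩, ⟨i, by omega⟩} {⟨j, by omega⟩} {t})
    (sep (e (.inr (.inl ⟨j + 1, by omega⟩))) (by rw [mem_TT2]; simp)
      (by rw [mem_TT2]; simp only [mem_insert, mem_singleton, Fin.mk.injEq]; omega))
    (sep (e (.inl ⟨i + 1, by omega⟩)) (by rw [mem_TT1]; simp)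
      (by rw [mem_TT1]; simp only [mem_insert, mem_singleton, Fin.mk.injEq]; omega))
    (sep (e (.inl ⟨i + 1, by omega⟩)) (by rw [mem_TT1]; simp)
      (by rw [mem_TT1]; simp only [mem_singleton, Fin.mk.injEq]; omega))
    (sep (e (.inl ⟨i + 1, by omega⟩)) (by rw [mem_TT1]; simp)
      (by rw [mem_TT1]; simp only [mem_insert, mem_singleton, Fin.mk.injEq]; omega))
    (sep (e (.inl ⟨i + 1, by omega⟩)) (by rw [mem_TT1]; simp)
      (by rw [mem_TT1]; simp only [mem_insert, mem_singleton, Fin.mk.injEq]; omega))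
    (sep (e (.inl ⟨i + 1, by omega⟩)) (by rw [mem_TT1]; simp)
      (by rw [mem_TT1]; simp only [mem_singleton, Fin.mk.injEq]; omega))
    (sep (e (.inl ⟨i + 1, by omega⟩)) (by rw [mem_TT1]; simp)
      (by rw [mem_TT1]; simp only [mem_insert, mem_singleton, Fin.mk.injEq]; omega))
    (sep (e (.inr (.inl ⟨j + 1, by omega⟩))) (by rw [mem_TT2]; simp)
      (by rw [mem_TT2]; simp only [mem_insert, mem_singleton, Fin.mk.injEq]; omega))
    (sep (e (.inr (.inl ⟨j + 1, by omega⟩))) (by rw [mem_TT2]; simp)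
      (by rw [mem_TT2]; simp only [mem_singleton, Fin.mk.injEq]; omega))
    (sep (e (.inr (.inl ⟨j - 1, by omega⟩))) (by rw [mem_TT2]; simp)
      (by rw [mem_TT2]; simp only [mem_singleton, Fin.mk.injEq]; omega))]
  apply card_le_card
  intro τ hτ
  simp only [mem_insert, mem_singleton] at hτ
  rw [mem_filter]
  rcases hτ with rfl | rfl | rfl | rfl | rfl
  · exact ⟨m1, by rw [mem_TT1]; simp, by rw [mem_TT2]; simp⟩
  · exact ⟨m2, by rw [mem_TT1]; simp, by rw [mem_TT2]; simp⟩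
  · exact ⟨m3, by rw [mem_TT1]; simp, by rw [mem_TT2]; simp⟩
  · exact ⟨m4, by rw [mem_TT1]; simp, by rw [mem_TT2]; simp⟩
  · exact ⟨m5, by rw [mem_TT1]; simp, by rw [mem_TT2]; simp⟩

end Quad56
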