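import Pool.Agent.Quad56.Cross

/-!
# One pencil: the near facets

Working file of helper56 for MP_f8fadf_co.
-/

namespace Quad56

open Finset
open scoped InnerProductSpace

variable {n : ℕ} {u : Fin n → E4} {b : Fin n → ℝ}

/-- Every point lies in a face with a vertex. -/
theorem exists_tet (h : Simple4 u b) {p : E4} (hp : p ∈ Poly u b) :
    ∃ τ ∈ tets u b, act u b p ⊆ τ := by
  obtain ⟨m, hm⟩ : ∃ m, 4 - (act u b p).card = m := ⟨_, rfl⟩
  induction m using Nat.strong_induction_on generalizing p with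
  | _ m ih =>
    have hcard := h.simple p hp
    rcases hcard.eq_or_lt with h4 | h4
    · exact ⟨act u b p, mem_tets.mpr ⟨h4, p, hp, rfl⟩, Subset.rfl⟩
    · have hlt : Module.finrank ℝ
          (Submodule.span ℝ (Set.range fun i : act u b p => u i)) < 4 := by
        have h1 := finrank_range_le_card (R := ℝ) (fun i : act u b p => u i)
        rw [Set.finrank, Fintype.card_coe] at h1
        omega
      obtain ⟨d, hd, hd0⟩ := exists_orth _ hlt
      have hd1 : ∀ i ∈ act u b p, ⟪u i, d⟫_ℝ = 0 := fun i hi => hd0 ⟨i, hi⟩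
      obtain ⟨t, ht, hq, j, hj, hj'⟩ := move h hp hd fun i hi => (hd1 i hi).le
      have hsub : act u b p ⊆ act u b (p + t • d) := by
        intro i hi
        rw [mem_act, inner_add_smul, hd1 i hi, mul_zero, add_zero]
        exact mem_act.mp hi
      have hss : act u b p ⊂ act u b (p + t • d) :=
        (ssubset_iff_of_subset hsub).mpr ⟨j, hj', hj⟩
      have hlt2 := card_lt_card hss
      have hle2 := h.simple _ hq
      obtain ⟨τ, hτ, hτ'⟩ := ih (4 - (act u b (p + t • d)).card) (by omega) hq rfl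
      exact ⟨τ, hτ, hsub.trans hτ'⟩

theorem exists_fourth {τ : Finset (Fin n)} (h4 : τ.card = 4) {x y p : Fin n} (hxy : x ≠ y)
    (hxp : x ≠ p) (hyp : y ≠ p) (hx : x ∈ τ) (hy : y ∈ τ) (hp : p ∈ τ) :
    ∃ a, {x, y, p, a} = τ := by
  have h1 : ({x, y, p} : Finset (Fin n)) ⊆ τ := by
    intro z hz
    simp only [mem_insert, mem_singleton] at hz
    rcases hz with rfl | rfl | rfl
    · exact hx
    · exact hy
    · exact hp
  have h2 : ({x, y, p} : Finset (Fin n)).card = 3 := by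
    rw [card_eq_three]
    exact ⟨x, y, p, hxy, hxp, hyp, rfl⟩
  have h3 : (τ \ {x, y, p}).card = 1 := by
    rw [card_sdiff_of_subset h1]
    omega
  obtain ⟨a, ha⟩ := card_eq_one.mp h3
  refine ⟨a, ?_⟩
  have h5 := sdiff_union_of_subset h1
  rw [ha] at h5
  rw [← h5]
  ext z
  simp only [mem_insert, mem_singleton, mem_union]
  tauto

section

variable (h : Simple4 u b) {L : Finset (Fin n)} (hL : Pencil u b L) (h5 : 5 ≤ L.card)
  {A : (E4 × ℝ) →ₗ[ℝ] ℂ} (hA : Module.finrank ℝ (Sp u b L) = 3 → LinearMap.ker A = Sp u b L)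

include h hL h5 hA

/-- The two neighbours over an edge, with their sides. -/
theorem two_sides {x y p : Fin n} (hx : x ∈ L) (hp : p ∈ L) {a : Fin n}
    (hT : {x, y, p, a} ∈ tets u b) : ∃ a1 a2, {x, y, p, a1} ∈ tets u b ∧
      {x, y, p, a2} ∈ tets u b ∧ 0 < om A (vec u b y) (vec u b a1) ∧
      om A (vec u b y) (vec u b a2) < 0 := by
  obtain ⟨a', haa, hT', -⟩ := tet_other h hT
  have pm : ∀ z : Fin n, ({x, p, y, z} : Finset (Fin n)) = {x, y, p, z} := by
    intro z
    ext i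
    simp only [mem_insert, mem_singleton]
    tauto
  have hw := w3 h hL h5 hA hx hp (c := y) (d := a) (e := a') (by rw [pm]; exact hT)
    (by rw [pm]; exact hT') haa.symm
  rcases lt_trichotomy (om A (vec u b y) (vec u b a)) 0 with h1 | h1 | h1
  · refine ⟨a', a, hT', hT, ?_, h1⟩
    by_contra hc
    push Not at hc
    exact absurd hw (not_lt.mpr (mul_nonneg_of_nonpos_of_nonpos h1.le hc))
  · rw [h1, zero_mul] at hw
    exact absurd hw (lt_irrefl _)
  · refine ⟨a, a', hT, hT', h1, ?_⟩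
    by_contra hc
    push Not at hc
    exact absurd hw (not_lt.mpr (mul_nonneg h1.le hc))

/-- A crossing 2-face which is not a 4-gon. -/
theorem exists_letters {x y p q : Fin n} (hx : x ∈ L) (hp : p ∈ L) (hq : q ∈ L) (hpq : p ≠ q)
    {a c : Fin n} (hT : {x, y, p, a} ∈ tets u b) (hT' : {x, y, q, c} ∈ tets u b)
    (hdeg : ((tets u b).filter fun t => x ∈ t ∧ y ∈ t).card ≠ 4) :
    ∃ a c, a ≠ c ∧ {x, y, p, a} ∈ tets u b ∧ {x, y, q, c} ∈ tets u b ∧
      0 < om A (vec u b y) (vec u b a) * om A (vec u b y) (vec u b c) := by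
  obtain ⟨a1, a2, ha1, ha2, sa1, sa2⟩ := two_sides h hL h5 hA hx hp hT
  obtain ⟨c1, c2, hc1, hc2, sc1, sc2⟩ := two_sides h hL h5 hA hx hq hT'
  by_cases h1 : a1 = c1
  · by_cases h2 : a2 = c2
    · exfalso
      apply hdeg
      have C := core (k := 1) (Λ := fun _ => L) h
        (fun s t hst => absurd (Subsingleton.elim s t) hst) (fun _ => hL) (fun _ => A)
        (fun _ => hA) one_pos
      have pm : ∀ i j z w : Fin n, ({i, j, z, w} : Finset (Fin n)) = {i, j, w, z} := by
        intro i j z w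
        ext k
        simp only [mem_insert, mem_singleton]
        tauto
      have hne : a1 ≠ a2 := by
        rintro rfl
        linarith
      refine deg_four C (x := x) (y := y) (a := p) (c := a1) (d := q) (e := a2) hpq hne ha1 ?_ ?_
        ?_
      · rw [pm, h1]
        exact hc1
      · rw [h2]
        exact hc2
      · rw [pm]
        exact ha2
    · exact ⟨a2, c2, h2, ha2, hc2, mul_pos_of_neg_of_neg sa2 sc2⟩
  · exact ⟨a1, c1, h1, ha1, hc1, mul_pos sa1 sc1⟩

end

/-- The near data of a crossing 2-face. -/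
structure Nr (u : Fin n → E4) (b : Fin n → ℝ) (L : Finset (Fin n)) (A : (E4 × ℝ) →ₗ[ℝ] ℂ)
    (B : (E4 × ℝ) →ₗ[ℝ] (Fin 3 → ℝ)) (o x y p q a c : Fin n) : Prop where
  hx : x ∈ L
  hp : p ∈ L
  hq : q ∈ L
  xo : x ≠ o
  po : p ≠ o
  qo : q ≠ o
  px : bf u b B o p x
  xq : bf u b B o x q
  ta : {p, x, y, a} ∈ tets u b
  tc : {x, q, y, c} ∈ tets u b
  ac : a ≠ c
  sg : 0 < om A (vec u b y) (vec u b a) * om A (vec u b y) (vec u b c)

/-- The letter `c` does not occur before `x`. -/
def NF (u : Fin n → E4) (b : Fin n → ℝ) (L : Finset (Fin n)) (B : (E4 × ℝ) →ₗ[ℝ] (Fin 3 → ℝ))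
    (o x y c : Fin n) : Prop :=
  ∀ s ∈ L, s ≠ o → ∀ s' ∈ L, bf u b B o s x → bf u b B o s' x → {s, s', y, c} ∉ tets u b

/-- The letter `a` does not occur after `x`. -/
def NG (u : Fin n → E4) (b : Fin n → ℝ) (L : Finset (Fin n)) (B : (E4 × ℝ) →ₗ[ℝ] (Fin 3 → ℝ))
    (o x y a : Fin n) : Prop :=
  ∀ t ∈ L, t ≠ o → ∀ t' ∈ L, bf u b B o x t → bf u b B o x t' → {t, t', y, a} ∉ tets u b

section

variable (h : Simple4 u b) {L : Finset (Fin n)} (hL : Pencil u b L) (h5 : 5 ≤ L.card)
  {A : (E4 × ℝ) →ₗ[ℝ] ℂ} (hA : Module.finrank ℝ (Sp u b L) = 3 → LinearMap.ker A = Sp u b L)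
  {B : (E4 × ℝ) →ₗ[ℝ] (Fin 3 → ℝ)} (hB : ∀ w ∈ Sp u b L, B w = 0 → w = 0) {o : Fin n}
  (ho : o ∈ L)

include h hL h5 hA hB ho

theorem nf_or_ng {x y p q a c : Fin n} (H : Nr u b L A B o x y p q a c) :
    NF u b L B o x y c ∨ NG u b L B o x y a := by
  by_contra hc
  push Not at hc
  obtain ⟨h1, h2⟩ := hc
  unfold NF at h1
  unfold NG at h2
  push Not at h1 h2
  obtain ⟨s, hs, so, s', hs', hsx, hsx', ts⟩ := h1
  obtain ⟨t, ht, tno, t', ht', hxt, hxt', tt⟩ := h2
  exact cross h hL h5 hA hB ho H.hx H.hp H.hq hs hs' ht ht' H.xo H.po H.qo so tno H.px H.xq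
    H.ta H.tc H.ac H.sg hsx hsx' ts hxt hxt' tt

theorem nf_unique_aux {x y p q a c x' p' q' a' : Fin n} (H : Nr u b L A B o x y p q a c)
    (H' : Nr u b L A B o x' y p' q' a' c) (F' : NF u b L B o x' y c)
    (hxx : bf u b B o x x') : False := by
  by_cases hq : q = x'
  · -- `x` and `x'` are adjacent
    have htc : {x, x', y, c} ∈ tets u b := hq ▸ H.tc
    have hp : p' = x := by
      by_contra hne
      rcases bf_total h hB ho H'.hp H.hx H'.po H.xo hne with h1 | h1
      · exact no_between h hB ho hL h5 H'.hp H.hx H'.hx H'.po H.xo H'.xo H'.ta h1 hxx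
      · exact no_between h hB ho hL h5 H.hx H'.hp H'.hx H.xo H'.po H'.xo htc h1 H'.px
    have hta : {x, x', y, a'} ∈ tets u b := hp ▸ H'.ta
    have := w3 h hL h5 hA H.hx H'.hx hta htc H'.ac
    linarith [H'.sg]
  · rcases bf_total h hB ho H.hq H'.hx H.qo H'.xo hq with h1 | h1
    · exact F' x H.hx H.xo q H.hq hxx h1 H.tc
    · exact no_between h hB ho hL h5 H.hx H'.hx H.hq H.xo H'.xo H.qo H.tc hxx h1

theorem nf_unique {x y p q a c x' p' q' a' : Fin n} (H : Nr u b L A B o x y p q a c)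
    (F : NF u b L B o x y c) (H' : Nr u b L A B o x' y p' q' a' c) (F' : NF u b L B o x' y c) :
    x = x' := by
  by_contra hne
  rcases bf_total h hB ho H.hx H'.hx H.xo H'.xo hne with h1 | h1
  · exact nf_unique_aux h hL h5 hA hB ho H H' F' h1
  · exact nf_unique_aux h hL h5 hA hB ho H' H F h1

theorem ng_unique_aux {x y p q a c x' p' q' c' : Fin n} (H : Nr u b L A B o x y p q a c)
    (G : NG u b L B o x y a) (H' : Nr u b L A B o x' y p' q' a c')
    (hxx : bf u b B o x x') : False := by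
  by_cases hp : p' = x
  · -- `x` and `x'` are adjacent
    have hta : {x, x', y, a} ∈ tets u b := hp ▸ H'.ta
    have hq : q = x' := by
      by_contra hne
      rcases bf_total h hB ho H.hq H'.hx H.qo H'.xo hne with h1 | h1
      · exact no_between h hB ho hL h5 H.hx H.hq H'.hx H.xo H.qo H'.xo hta H.xq h1
      · exact no_between h hB ho hL h5 H.hx H'.hx H.hq H.xo H'.xo H.qo H.tc hxx h1
    have htc : {x, x', y, c} ∈ tets u b := hq ▸ H.tc
    have := w3 h hL h5 hA H.hx H'.hx hta htc H.ac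
    linarith [H.sg]
  · rcases bf_total h hB ho H'.hp H.hx H'.po H.xo hp with h1 | h1
    · exact no_between h hB ho hL h5 H'.hp H.hx H'.hx H'.po H.xo H'.xo H'.ta h1 hxx
    · exact G p' H'.hp H'.po x' H'.hx h1 hxx H'.ta

theorem ng_unique {x y p q a c x' p' q' c' : Fin n} (H : Nr u b L A B o x y p q a c)
    (G : NG u b L B o x y a) (H' : Nr u b L A B o x' y p' q' a c') (G' : NG u b L B o x' y a) :
    x = x' := by
  by_contra hne
  rcases bf_total h hB ho H.hx H'.hx H.xo H'.xo hne with h1 | h1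
  · exact ng_unique_aux h hL h5 hA hB ho H G H' h1
  · exact ng_unique_aux h hL h5 hA hB ho H' G' H h1

end

end Quad56
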