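import Pool.Agent.Quad56.Tet

/-!
# Pencils of facets

Working file of helper56 for MP_f8fadf_co.
-/

namespace Quad56

open Finset
open scoped InnerProductSpace

variable {n : ℕ} {u : Fin n → E4} {b : Fin n → ℝ}

/-- The homogeneous vector of an inequality. -/
def vec (u : Fin n → E4) (b : Fin n → ℝ) (i : Fin n) : E4 × ℝ := (u i, b i)

/-- The slack functional of a point. -/
noncomputable def ev (p : E4) : (E4 × ℝ) →ₗ[ℝ] ℝ where
  toFun w := w.2 - ⟪w.1, p⟫_ℝ
  map_add' x y := by
    simp only [Prod.snd_add, Prod.fst_add, inner_add_left]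
    ring
  map_smul' a x := by
    simp only [Prod.smul_snd, Prod.smul_fst, real_inner_smul_left, smul_eq_mul,
      RingHom.id_apply]
    ring

theorem ev_vec (p : E4) (i : Fin n) : ev p (vec u b i) = b i - ⟪u i, p⟫_ℝ := rfl

theorem ev_nonneg {p : E4} (hp : p ∈ Poly u b) (i : Fin n) : 0 ≤ ev p (vec u b i) := by
  rw [ev_vec]
  have := hp i
  linarith

theorem ev_zero {p : E4} {i : Fin n} : ev p (vec u b i) = 0 ↔ i ∈ act u b p := by
  rw [ev_vec, mem_act]
  constructor <;> intro h <;> linarith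

theorem ev_pos {p : E4} (hp : p ∈ Poly u b) {i : Fin n} (hi : i ∉ act u b p) :
    0 < ev p (vec u b i) :=
  lt_of_le_of_ne (ev_nonneg hp i) fun hc => hi (ev_zero.mp hc.symm)

/-- The span of the homogeneous vectors of a set of facets. -/
def Sp (u : Fin n → E4) (b : Fin n → ℝ) (L : Finset (Fin n)) : Submodule ℝ (E4 × ℝ) :=
  Submodule.span ℝ (vec u b '' (L : Set (Fin n)))

/-- A pencil: the hyperplanes of the facets contain a common line of the projective space. -/
def Pencil (u : Fin n → E4) (b : Fin n → ℝ) (L : Finset (Fin n)) : Prop :=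
  Module.finrank ℝ (Sp u b L) ≤ 3

theorem vec_mem {L : Finset (Fin n)} {i : Fin n} (hi : i ∈ L) : vec u b i ∈ Sp u b L :=
  Submodule.subset_span ⟨i, hi, rfl⟩

theorem indep_sum (h : Simple4 u b) {p : E4} (hp : p ∈ Poly u b) (g : Fin n → ℝ)
    (hg : ∑ i ∈ act u b p, g i • u i = 0) : ∀ i ∈ act u b p, g i = 0 := by
  have h1 : LinearIndepOn ℝ u (act u b p : Set (Fin n)) := indep h hp
  exact linearIndepOn_finset_iff.mp h1 g hg

theorem sum_ps {M : Type*} [AddCommGroup M] [Module ℝ M] {s : Finset (Fin n)} {y : Fin n}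
    (hy : y ∈ s) (α : ℝ) (w : Fin n → M) :
    ∑ i ∈ s, (Pi.single y α : Fin n → ℝ) i • w i = α • w y := by
  rw [Finset.sum_eq_single_of_mem y hy]
  · rw [Pi.single_eq_same]
  · intro i _ hi
    rw [Pi.single_eq_of_ne hi, zero_smul]

theorem pair_indep (h : Simple4 u b) {p : E4} (hp : p ∈ Poly u b) {x y : Fin n} (hxy : x ≠ y)
    (hx : x ∈ act u b p) (hy : y ∈ act u b p) {α β : ℝ}
    (h0 : α • vec u b x + β • vec u b y = 0) : α = 0 ∧ β = 0 := by
  have h1 : α • u x + β • u y = 0 := congrArg Prod.fst h0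
  have h2 := indep_sum h hp (Pi.single x α + Pi.single y β) (by
    simp only [Pi.add_apply, add_smul, sum_add_distrib]
    rw [sum_ps hx, sum_ps hy, h1])
  have h3 := h2 x hx
  have h4 := h2 y hy
  simp only [Pi.add_apply, Pi.single_eq_same, Pi.single_eq_of_ne hxy,
    Pi.single_eq_of_ne hxy.symm, add_zero, zero_add] at h3 h4
  exact ⟨h3, h4⟩

theorem quad_indep (h : Simple4 u b) {p : E4} (hp : p ∈ Poly u b) {x y z w : Fin n}
    (hd : x ≠ y ∧ x ≠ z ∧ x ≠ w ∧ y ≠ z ∧ y ≠ w ∧ z ≠ w)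
    (hx : x ∈ act u b p) (hy : y ∈ act u b p) (hz : z ∈ act u b p) (hw : w ∈ act u b p)
    {α β γ δ : ℝ}
    (h0 : α • vec u b x + β • vec u b y + γ • vec u b z + δ • vec u b w = 0) :
    α = 0 ∧ β = 0 ∧ γ = 0 ∧ δ = 0 := by
  have h1 : α • u x + β • u y + γ • u z + δ • u w = 0 := congrArg Prod.fst h0
  obtain ⟨d1, d2, d3, d4, d5, d6⟩ := hd
  have h2 := indep_sum h hp (Pi.single x α + Pi.single y β + Pi.single z γ + Pi.single w δ) (by
    simp only [Pi.add_apply, add_smul, sum_add_distrib]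
    rw [sum_ps hx, sum_ps hy, sum_ps hz, sum_ps hw, h1])
  have h3 := h2 x hx
  have h4 := h2 y hy
  have h5 := h2 z hz
  have h6 := h2 w hw
  simp only [Pi.add_apply, Pi.single_eq_same, Pi.single_eq_of_ne d1, Pi.single_eq_of_ne d1.symm,
    Pi.single_eq_of_ne d2, Pi.single_eq_of_ne d2.symm, Pi.single_eq_of_ne d3,
    Pi.single_eq_of_ne d3.symm, Pi.single_eq_of_ne d4, Pi.single_eq_of_ne d4.symm,
    Pi.single_eq_of_ne d5, Pi.single_eq_of_ne d5.symm, Pi.single_eq_of_ne d6,
    Pi.single_eq_of_ne d6.symm, add_zero, zero_add] at h3 h4 h5 h6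
  exact ⟨h3, h4, h5, h6⟩

theorem three_indep (h : Simple4 u b) {p : E4} (hp : p ∈ Poly u b) {x y z : Fin n} (hxy : x ≠ y)
    (hx : x ∈ act u b p) (hy : y ∈ act u b p) (hz : z ∉ act u b p) :
    LinearIndependent ℝ ![vec u b x, vec u b y, vec u b z] := by
  rw [Fintype.linearIndependent_iff]
  intro g hg
  rw [Fin.sum_univ_three] at hg
  simp only [Matrix.cons_val_zero, Matrix.cons_val_one, Matrix.cons_val] at hg
  have h1 := congrArg (ev p) hg
  rw [map_add, map_add, map_smul, map_smul, map_smul, ev_zero.mpr hx, ev_zero.mpr hy, map_zero,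
    smul_zero, smul_zero, zero_add, zero_add, smul_eq_mul] at h1
  have h2 : g 2 = 0 := (mul_eq_zero.mp h1).resolve_right (ev_pos hp hz).ne'
  rw [h2, zero_smul, add_zero] at hg
  obtain ⟨h3, h4⟩ := pair_indep h hp hxy hx hy hg
  intro i
  fin_cases i
  · exact h3
  · exact h4
  · exact h2

/-- Two facets of a pencil at a vertex and a third one span everything. -/
theorem span3 (h : Simple4 u b) {p : E4} (hp : p ∈ Poly u b) {L : Finset (Fin n)}
    (hL : Pencil u b L) {x y z : Fin n} (hxy : x ≠ y)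
    (hx : x ∈ act u b p) (hy : y ∈ act u b p) (hz : z ∉ act u b p)
    (hxL : x ∈ L) (hyL : y ∈ L) (hzL : z ∈ L) :
    Sp u b L = Submodule.span ℝ {vec u b x, vec u b y, vec u b z} ∧
      Module.finrank ℝ (Sp u b L) = 3 := by
  have h1 := finrank_span_eq_card (three_indep h hp hxy hx hy hz)
  have hr : Set.range ![vec u b x, vec u b y, vec u b z] = {vec u b x, vec u b y, vec u b z} := by
    ext w
    simp only [Set.mem_range, Set.mem_insert_iff, Set.mem_singleton_iff, Fin.exists_fin_succ,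
      Matrix.cons_val_zero, Matrix.cons_val_succ, IsEmpty.exists_iff, or_false, eq_comm]
  rw [hr, Fintype.card_fin] at h1
  have hle : Submodule.span ℝ {vec u b x, vec u b y, vec u b z} ≤ Sp u b L := by
    rw [Submodule.span_le]
    intro w hw
    simp only [Set.mem_insert_iff, Set.mem_singleton_iff] at hw
    rcases hw with rfl | rfl | rfl
    · exact vec_mem hxL
    · exact vec_mem hyL
    · exact vec_mem hzL
  have heq := Submodule.eq_of_le_of_finrank_le hle (by rw [h1]; exact hL)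
  exact ⟨heq.symm, by rw [← heq, h1]⟩

theorem decomp (h : Simple4 u b) {p : E4} (hp : p ∈ Poly u b) {L : Finset (Fin n)}
    (hL : Pencil u b L) {x y z : Fin n} (hxy : x ≠ y)
    (hx : x ∈ act u b p) (hy : y ∈ act u b p) (hz : z ∉ act u b p)
    (hxL : x ∈ L) (hyL : y ∈ L) (hzL : z ∈ L) {w : E4 × ℝ} (hw : w ∈ Sp u b L) :
    ∃ α β γ : ℝ, w = α • vec u b x + β • vec u b y + γ • vec u b z := by
  rw [(span3 h hp hL hxy hx hy hz hxL hyL hzL).1, Submodule.mem_span_triple] at hw
  obtain ⟨α, β, γ, hw⟩ := hw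
  exact ⟨α, β, γ, hw.symm⟩

/-- At most two facets of a large pencil at a point. -/
theorem le_two (h : Simple4 u b) {p : E4} (hp : p ∈ Poly u b) {L : Finset (Fin n)}
    (hL : Pencil u b L) (h5 : 5 ≤ L.card) {x y z : Fin n} (hxy : x ≠ y) (hxz : x ≠ z)
    (hyz : y ≠ z) (hx : x ∈ act u b p) (hy : y ∈ act u b p)
    (hz : z ∈ act u b p) (hxL : x ∈ L) (hyL : y ∈ L) (hzL : z ∈ L) : False := by
  -- the three vectors are independent, so they span
  obtain ⟨w, hwL, hw⟩ : ∃ w ∈ L, w ∉ act u b p := by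
    by_contra hc
    push Not at hc
    have := card_le_card (fun i hi => hc i hi : L ⊆ act u b p)
    have := h.simple p hp
    omega
  obtain ⟨α, β, γ, hd⟩ := decomp h hp hL hxy hx hy hw hxL hyL hwL (vec_mem (b := b) (u := u) hzL)
  have h1 := congrArg (ev p) hd
  rw [map_add, map_add, map_smul, map_smul, map_smul, ev_zero.mpr hx, ev_zero.mpr hy,
    ev_zero.mpr hz, smul_zero, smul_zero, zero_add, zero_add, smul_eq_mul] at h1
  have h2 : γ = 0 := (mul_eq_zero.mp h1.symm).resolve_right (ev_pos hp hw).ne'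
  rw [h2, zero_smul, add_zero] at hd
  have h3 : (-1 : ℝ) • u z + α • u x + β • u y = 0 := by
    have := congrArg Prod.fst hd
    change u z = α • u x + β • u y at this
    rw [this]
    module
  have h4 := indep_sum h hp (Pi.single z (-1) + Pi.single x α + Pi.single y β) (by
    simp only [Pi.add_apply, add_smul, sum_add_distrib]
    rw [sum_ps hx, sum_ps hy, sum_ps hz, h3])
  have h5 := h4 z hz
  simp only [Pi.add_apply, Pi.single_eq_same, Pi.single_eq_of_ne hxz.symm,
    Pi.single_eq_of_ne hyz.symm, add_zero] at h5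
  norm_num at h5

theorem exists_third {L : Finset (Fin n)} (h5 : 5 ≤ L.card) (x y : Fin n) :
    ∃ z ∈ L, z ≠ x ∧ z ≠ y := by
  by_contra hc
  push Not at hc
  have h1 : L ⊆ {x, y} := by
    intro z hz
    simp only [mem_insert, mem_singleton]
    by_cases hzx : z = x
    · exact Or.inl hzx
    · exact Or.inr (hc z hz hzx)
  have h2 := card_le_card h1
  have h3 : ({x, y} : Finset (Fin n)).card ≤ 2 := card_le_two
  omega

/-- The functionals of the vertices over a pair of facets of a pencil are proportional on the span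
of the pencil. -/
theorem coh (h : Simple4 u b) {L : Finset (Fin n)} (hL : Pencil u b L) (h5 : 5 ≤ L.card)
    {p q : E4} (hp : p ∈ Poly u b) (hq : q ∈ Poly u b) {x y : Fin n} (hxy : x ≠ y)
    (hxL : x ∈ L) (hyL : y ∈ L) (hx : x ∈ act u b p) (hy : y ∈ act u b p)
    (hx' : x ∈ act u b q) (hy' : y ∈ act u b q) {w : E4 × ℝ} (hw : w ∈ Sp u b L)
    (h0 : 0 < ev p w) : 0 < ev q w := by
  obtain ⟨z, hzL, hzx, hzy⟩ := exists_third h5 x y
  have hz : z ∉ act u b p := fun hc =>
    le_two h hp hL h5 hxy hzx.symm hzy.symm hx hy hc hxL hyL hzL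
  have hz' : z ∉ act u b q := fun hc =>
    le_two h hq hL h5 hxy hzx.symm hzy.symm hx' hy' hc hxL hyL hzL
  obtain ⟨α, β, γ, rfl⟩ := decomp h hp hL hxy hx hy hz hxL hyL hzL hw
  rw [map_add, map_add, map_smul, map_smul, map_smul, ev_zero.mpr hx, ev_zero.mpr hy,
    smul_zero, smul_zero, zero_add, zero_add, smul_eq_mul] at h0
  rw [map_add, map_add, map_smul, map_smul, map_smul, ev_zero.mpr hx', ev_zero.mpr hy',
    smul_zero, smul_zero, zero_add, zero_add, smul_eq_mul]
  have h1 := ev_pos hp hz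
  have h2 : 0 < γ := by
    by_contra hc
    push Not at hc
    have := mul_nonpos_of_nonpos_of_nonneg hc h1.le
    linarith
  exact mul_pos h2 (ev_pos hq hz')

/-- The projection along the span of a pencil. -/
theorem exists_proj (u : Fin n → E4) (b : Fin n → ℝ) (L : Finset (Fin n)) :
    ∃ A : (E4 × ℝ) →ₗ[ℝ] ℂ, Module.finrank ℝ (Sp u b L) = 3 → LinearMap.ker A = Sp u b L := by
  by_cases hf : Module.finrank ℝ (Sp u b L) = 3
  · have h1 := Submodule.finrank_quotient_add_finrank (Sp u b L)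
    rw [hf, Module.finrank_prod, finrank_euclideanSpace_fin, Module.finrank_self] at h1
    have h2 : Module.finrank ℝ ((E4 × ℝ) ⧸ Sp u b L) = Module.finrank ℝ ℂ := by
      rw [Complex.finrank_real_complex]
      omega
    refine ⟨(LinearEquiv.ofFinrankEq _ _ h2).toLinearMap ∘ₗ (Sp u b L).mkQ, fun _ => ?_⟩
    rw [LinearEquiv.ker_comp, Submodule.ker_mkQ]
  · exact ⟨0, fun h => absurd h hf⟩

/-- The alternating form of a projection. -/
noncomputable def om (A : (E4 × ℝ) →ₗ[ℝ] ℂ) (v w : E4 × ℝ) : ℝ :=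
  (A v).re * (A w).im - (A v).im * (A w).re

theorem om_comm (A : (E4 × ℝ) →ₗ[ℝ] ℂ) (v w : E4 × ℝ) : om A w v = - om A v w := by
  unfold om; ring

theorem om_self (A : (E4 × ℝ) →ₗ[ℝ] ℂ) (v : E4 × ℝ) : om A v v = 0 := by
  unfold om; ring

theorem om_comb (A : (E4 × ℝ) →ₗ[ℝ] ℂ) (v x y z : E4 × ℝ) (α β γ : ℝ) :
    om A v (α • x + β • y + γ • z) = α * om A v x + β * om A v y + γ * om A v z := by
  unfold om
  simp only [map_add, map_smul, Complex.add_re, Complex.add_im, Complex.real_smul,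
    Complex.re_ofReal_mul, Complex.im_ofReal_mul]
  ring

/-- The identity of the plane. -/
theorem om_plane (A : (E4 × ℝ) →ₗ[ℝ] ℂ) (x z c : E4 × ℝ) :
    A (om A x z • c - om A c z • x - om A x c • z) = 0 := by
  rw [map_sub, map_sub, map_smul, map_smul, map_smul]
  apply Complex.ext
  · simp only [Complex.sub_re, Complex.real_smul, Complex.re_ofReal_mul, Complex.zero_re]
    unfold om
    ring
  · simp only [Complex.sub_im, Complex.real_smul, Complex.im_ofReal_mul, Complex.zero_im]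
    unfold om
    ring

theorem om_dep (A : (E4 × ℝ) →ₗ[ℝ] ℂ) {v w : E4 × ℝ} (h : om A v w = 0) :
    ∃ α β : ℝ, (α ≠ 0 ∨ β ≠ 0) ∧ A (α • v + β • w) = 0 := by
  by_cases hv : A v = 0
  · refine ⟨1, 0, Or.inl one_ne_zero, ?_⟩
    rw [one_smul, zero_smul, add_zero, hv]
  · have hv' : 0 < (A v).re ^ 2 + (A v).im ^ 2 := by
      by_contra hc
      push Not at hc
      apply hv
      apply Complex.ext
      · have : (A v).re ^ 2 = 0 := le_antisymm (by nlinarith [sq_nonneg (A v).im]) (sq_nonneg _)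
        simpa using this
      · have : (A v).im ^ 2 = 0 := le_antisymm (by nlinarith [sq_nonneg (A v).re]) (sq_nonneg _)
        simpa using this
    refine ⟨(A v).re * (A w).re + (A v).im * (A w).im, -((A v).re ^ 2 + (A v).im ^ 2),
      Or.inr (neg_ne_zero.mpr hv'.ne'), ?_⟩
    unfold om at h
    rw [map_add, map_smul, map_smul]
    apply Complex.ext
    · simp only [Complex.add_re, Complex.real_smul, Complex.re_ofReal_mul, Complex.zero_re]
      linear_combination (A v).im * h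
    · simp only [Complex.add_im, Complex.real_smul, Complex.im_ofReal_mul, Complex.zero_im]
      linear_combination -(A v).re * h

section Link

variable (h : Simple4 u b) {L : Finset (Fin n)} (hL : Pencil u b L) (h5 : 5 ≤ L.card)
  {A : (E4 × ℝ) →ₗ[ℝ] ℂ} (hA : Module.finrank ℝ (Sp u b L) = 3 → LinearMap.ker A = Sp u b L)

include h hL h5 hA

theorem ker_of_tet {x y c d : Fin n} (hxL : x ∈ L) (hyL : y ∈ L)
    (hT : {x, y, c, d} ∈ tets u b) : LinearMap.ker A = Sp u b L := by
  obtain ⟨-, p, hp, hpa⟩ := mem_tets.mp hT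
  have hd := tet_distinct hT
  have hx : x ∈ act u b p := by rw [hpa]; simp
  have hy : y ∈ act u b p := by rw [hpa]; simp
  obtain ⟨z, hzL, hzx, hzy⟩ := exists_third h5 x y
  have hz : z ∉ act u b p := fun hc =>
    le_two h hp hL h5 hd.1 hzx.symm hzy.symm hx hy hc hxL hyL hzL
  exact hA (span3 h hp hL hd.1 hx hy hz hxL hyL hzL).2

/-- (w1) the two other facets of a vertex are independent modulo the pencil. -/
theorem w1 {x y c d : Fin n} (hxL : x ∈ L) (hyL : y ∈ L) (hT : {x, y, c, d} ∈ tets u b) :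
    om A (vec u b c) (vec u b d) ≠ 0 := by
  intro h0
  have hker := ker_of_tet h hL h5 hA hxL hyL hT
  obtain ⟨α, β, hne, hAz⟩ := om_dep A h0
  rw [← LinearMap.mem_ker, hker] at hAz
  obtain ⟨-, p, hp, hpa⟩ := mem_tets.mp hT
  have hd := tet_distinct hT
  have hx : x ∈ act u b p := by rw [hpa]; simp
  have hy : y ∈ act u b p := by rw [hpa]; simp
  have hc : c ∈ act u b p := by rw [hpa]; simp
  have hdd : d ∈ act u b p := by rw [hpa]; simp
  obtain ⟨z, hzL, hzx, hzy⟩ := exists_third h5 x y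
  have hz : z ∉ act u b p := fun hc =>
    le_two h hp hL h5 hd.1 hzx.symm hzy.symm hx hy hc hxL hyL hzL
  obtain ⟨s, t, r, hdec⟩ := decomp h hp hL hd.1 hx hy hz hxL hyL hzL hAz
  have h1 := congrArg (ev p) hdec
  rw [map_add, map_add, map_add, map_smul, map_smul, map_smul, map_smul, map_smul,
    ev_zero.mpr hx, ev_zero.mpr hy, ev_zero.mpr hc, ev_zero.mpr hdd, smul_zero, smul_zero,
    smul_zero, smul_zero, zero_add, zero_add, smul_eq_mul] at h1
  have h2 : r = 0 := (mul_eq_zero.mp h1.symm).resolve_right (ev_pos hp hz).ne'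
  rw [h2, zero_smul, add_zero] at hdec
  have h3 : (-s) • vec u b x + (-t) • vec u b y + α • vec u b c + β • vec u b d = 0 := by
    rw [add_assoc, hdec]
    module
  have h4 := quad_indep h hp hd hx hy hc hdd h3
  rcases hne with hne | hne
  · exact hne h4.2.2.1
  · exact hne h4.2.2.2

/-- (w2) no other element of the link of a pair of facets of the pencil is in the cone of a vertex
over it. -/
theorem w2 {x y c d e e' : Fin n} (hxL : x ∈ L) (hyL : y ∈ L) (hT : {x, y, c, d} ∈ tets u b)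
    (hT' : {x, y, e, e'} ∈ tets u b) (hec : e ≠ c) (hed : e ≠ d)
    (h1 : 0 ≤ om A (vec u b c) (vec u b e) * om A (vec u b c) (vec u b d))
    (h2 : 0 ≤ om A (vec u b e) (vec u b d) * om A (vec u b c) (vec u b d)) : False := by
  have h0 := w1 h hL h5 hA hxL hyL hT
  have hker := ker_of_tet h hL h5 hA hxL hyL hT
  obtain ⟨-, p, hp, hpa⟩ := mem_tets.mp hT
  obtain ⟨-, q, hq, hqa⟩ := mem_tets.mp hT'
  have hd := tet_distinct hT
  have hd' := tet_distinct hT'
  have hx : x ∈ act u b p := by rw [hpa]; simp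
  have hy : y ∈ act u b p := by rw [hpa]; simp
  have hc : c ∈ act u b p := by rw [hpa]; simp
  have hdd : d ∈ act u b p := by rw [hpa]; simp
  have hx' : x ∈ act u b q := by rw [hqa]; simp
  have hy' : y ∈ act u b q := by rw [hqa]; simp
  have he' : e ∈ act u b q := by rw [hqa]; simp
  have he : e ∉ act u b p := by
    rw [hpa]
    simp only [mem_insert, mem_singleton]
    rintro (hh | hh | hh | hh)
    · exact hd'.2.1 hh.symm
    · exact hd'.2.2.2.1 hh.symm
    · exact hec hh
    · exact hed hh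
  set k := om A (vec u b c) (vec u b d) with hk
  set w : E4 × ℝ := k • vec u b e - om A (vec u b e) (vec u b d) • vec u b c -
    om A (vec u b c) (vec u b e) • vec u b d with hw
  have hwA : w ∈ Sp u b L := by
    rw [← hker, LinearMap.mem_ker]
    exact om_plane A _ _ _
  -- multiply by `k` to have a positive coefficient
  have hkw : k • w ∈ Sp u b L := Submodule.smul_mem _ _ hwA
  have hpos : 0 < ev p (k • w) := by
    rw [map_smul, hw, map_sub, map_sub, map_smul, map_smul, map_smul, ev_zero.mpr hc,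
      ev_zero.mpr hdd, smul_zero, smul_zero, sub_zero, sub_zero, smul_eq_mul, smul_eq_mul,
      ← mul_assoc]
    exact mul_pos (mul_self_pos.mpr h0) (ev_pos hp he)
  have hpos' := coh h hL h5 hp hq hd.1 hxL hyL hx hy hx' hy' hkw hpos
  rw [map_smul, hw, map_sub, map_sub, map_smul, map_smul, map_smul, ev_zero.mpr he', smul_zero,
    smul_eq_mul, smul_eq_mul, smul_eq_mul] at hpos'
  have e1 := mul_nonneg h2 (ev_nonneg hq c)
  have e2 := mul_nonneg h1 (ev_nonneg hq d)
  nlinarith [e1, e2, hpos']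

/-- (w3) the two vertices over an edge of the polytope in two facets of the pencil are on
different sides. -/
theorem w3 {x y c d e : Fin n} (hxL : x ∈ L) (hyL : y ∈ L) (hT : {x, y, c, d} ∈ tets u b)
    (hT' : {x, y, c, e} ∈ tets u b) (hde : d ≠ e) :
    om A (vec u b c) (vec u b d) * om A (vec u b c) (vec u b e) < 0 := by
  have h1 := w1 h hL h5 hA hxL hyL hT
  have h2 := w1 h hL h5 hA hxL hyL hT'
  by_contra hneg
  push Not at hneg
  have h3 : 0 < om A (vec u b c) (vec u b d) * om A (vec u b c) (vec u b e) :=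
    lt_of_le_of_ne hneg (mul_ne_zero h1 h2).symm
  have hs : ∀ {i j : Fin n}, {x, y, i, j} ∈ tets u b → {x, y, j, i} ∈ tets u b := by
    intro i j hij
    rw [show ({x, y, j, i} : Finset (Fin n)) = {x, y, i, j} by
      ext; simp only [mem_insert, mem_singleton]; tauto]
    exact hij
  have hd := tet_distinct hT
  have hd' := tet_distinct hT'
  have h4 : om A (vec u b e) (vec u b d) * om A (vec u b c) (vec u b d) < 0 := by
    by_contra hc
    push Not at hc
    exact w2 h hL h5 hA hxL hyL hT (hs hT') hd'.2.2.2.2.2.symm hde.symm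
      (by rw [mul_comm]; exact h3.le) hc
  have h5' : om A (vec u b d) (vec u b e) * om A (vec u b c) (vec u b e) < 0 := by
    by_contra hc
    push Not at hc
    exact w2 h hL h5 hA hxL hyL hT' (hs hT) hd.2.2.2.2.2.symm hde h3.le hc
  have h6 := mul_pos_of_neg_of_neg h4 h5'
  rw [om_comm A (vec u b d) (vec u b e)] at h6
  have h7 := mul_nonneg (mul_self_nonneg (om A (vec u b d) (vec u b e))) h3.le
  nlinarith [h6, h7]

end Link

/-- (M2) a facet of a large pencil has at most two neighbours in the pencil. -/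
theorem m2 (h : Simple4 u b) {L : Finset (Fin n)} (hL : Pencil u b L) (h5 : 5 ≤ L.card)
    {y y1 y2 y3 c1 d1 c2 d2 c3 d3 : Fin n} (hy : y ∈ L) (hy1 : y1 ∈ L) (hy2 : y2 ∈ L)
    (hy3 : y3 ∈ L) (h12 : y1 ≠ y2) (h13 : y1 ≠ y3) (h23 : y2 ≠ y3)
    (hT1 : {y, y1, c1, d1} ∈ tets u b) (hT2 : {y, y2, c2, d2} ∈ tets u b)
    (hT3 : {y, y3, c3, d3} ∈ tets u b) : False := by
  obtain ⟨-, p1, hp1, hpa1⟩ := mem_tets.mp hT1
  obtain ⟨-, p2, hp2, hpa2⟩ := mem_tets.mp hT2
  obtain ⟨-, p3, hp3, hpa3⟩ := mem_tets.mp hT3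
  have n1 := (tet_distinct hT1).1
  have n2 := (tet_distinct hT2).1
  have n3 := (tet_distinct hT3).1
  have m1 : y ∈ act u b p1 := by rw [hpa1]; simp
  have m1' : y1 ∈ act u b p1 := by rw [hpa1]; simp
  have m2 : y ∈ act u b p2 := by rw [hpa2]; simp
  have m2' : y2 ∈ act u b p2 := by rw [hpa2]; simp
  have m3 : y ∈ act u b p3 := by rw [hpa3]; simp
  have m3' : y3 ∈ act u b p3 := by rw [hpa3]; simp
  have k12 : y2 ∉ act u b p1 := fun hc => le_two h hp1 hL h5 n1 n2 h12 m1 m1' hc hy hy1 hy2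
  have k13 : y3 ∉ act u b p1 := fun hc => le_two h hp1 hL h5 n1 n3 h13 m1 m1' hc hy hy1 hy3
  have k21 : y1 ∉ act u b p2 := fun hc => le_two h hp2 hL h5 n2 n1 h12.symm m2 m2' hc hy hy2 hy1
  have k23 : y3 ∉ act u b p2 := fun hc => le_two h hp2 hL h5 n2 n3 h23 m2 m2' hc hy hy2 hy3
  have k31 : y1 ∉ act u b p3 := fun hc => le_two h hp3 hL h5 n3 n1 h13.symm m3 m3' hc hy hy3 hy1
  have k32 : y2 ∉ act u b p3 := fun hc => le_two h hp3 hL h5 n3 n2 h23.symm m3 m3' hc hy hy3 hy2
  obtain ⟨α, β, γ, hd⟩ := decomp h hp1 hL n1 m1 m1' k12 hy hy1 hy2 (vec_mem (b := b) (u := u) hy3)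
  have e1 := congrArg (ev p1) hd
  have e2 := congrArg (ev p2) hd
  have e3 := congrArg (ev p3) hd
  rw [map_add, map_add, map_smul, map_smul, map_smul, ev_zero.mpr m1, ev_zero.mpr m1',
    smul_zero, smul_zero, zero_add, zero_add, smul_eq_mul] at e1
  rw [map_add, map_add, map_smul, map_smul, map_smul, ev_zero.mpr m2, ev_zero.mpr m2',
    smul_zero, smul_zero, zero_add, add_zero, smul_eq_mul] at e2
  rw [map_add, map_add, map_smul, map_smul, map_smul, ev_zero.mpr m3, ev_zero.mpr m3',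
    smul_zero, zero_add, smul_eq_mul, smul_eq_mul] at e3
  have p13 := ev_pos hp1 k13
  have p12 := ev_pos hp1 k12
  have p21 := ev_pos hp2 k21
  have p23 := ev_pos hp2 k23
  have p31 := ev_pos hp3 k31
  have p32 := ev_pos hp3 k32
  have hγ : 0 < γ := by
    by_contra hc
    push Not at hc
    nlinarith [mul_nonpos_of_nonpos_of_nonneg hc p12.le]
  have hβ : 0 < β := by
    by_contra hc
    push Not at hc
    nlinarith [mul_nonpos_of_nonpos_of_nonneg hc p21.le]
  nlinarith [mul_pos hγ p32, mul_pos hβ p31]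

/-- A facet `y` of the pencil `L` both of whose neighbours are on the same side. -/
def Ext (u : Fin n → E4) (b : Fin n → ℝ) (A : (E4 × ℝ) →ₗ[ℝ] ℂ) (L : Finset (Fin n))
    (y : Fin n) : Prop :=
  y ∈ L ∧ ∃ y1 ∈ L, ∃ y2 ∈ L, y1 ≠ y2 ∧ (∃ c d, {y, y1, c, d} ∈ tets u b) ∧
    (∃ c d, {y, y2, c, d} ∈ tets u b) ∧
    0 < om A (vec u b y) (vec u b y1) * om A (vec u b y) (vec u b y2)

theorem ext_side (h : Simple4 u b) {L : Finset (Fin n)} (hL : Pencil u b L) (h5 : 5 ≤ L.card)
    {A : (E4 × ℝ) →ₗ[ℝ] ℂ} {y : Fin n} (hy : Ext u b A L y) {z z' : Fin n} (hz : z ∈ L)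
    (hz' : z' ∈ L) (hzy : z ≠ y) (hzy' : z' ≠ y) :
    0 < om A (vec u b y) (vec u b z) * om A (vec u b y) (vec u b z') := by
  obtain ⟨hyL, y1, hy1, y2, hy2, h12, ⟨c1, d1, hT1⟩, ⟨c2, d2, hT2⟩, hpos⟩ := hy
  obtain ⟨-, p1, hp1, hpa1⟩ := mem_tets.mp hT1
  obtain ⟨-, p2, hp2, hpa2⟩ := mem_tets.mp hT2
  have n1 := (tet_distinct hT1).1
  have n2 := (tet_distinct hT2).1
  have m1 : y ∈ act u b p1 := by rw [hpa1]; simp
  have m1' : y1 ∈ act u b p1 := by rw [hpa1]; simp
  have m2 : y ∈ act u b p2 := by rw [hpa2]; simp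
  have m2' : y2 ∈ act u b p2 := by rw [hpa2]; simp
  have k12 : y2 ∉ act u b p1 := fun hc => le_two h hp1 hL h5 n1 n2 h12 m1 m1' hc hyL hy1 hy2
  have k21 : y1 ∉ act u b p2 := fun hc => le_two h hp2 hL h5 n2 n1 h12.symm m2 m2' hc hyL hy2 hy1
  have p12 := ev_pos hp1 k12
  have p21 := ev_pos hp2 k21
  -- every other element is a nonnegative combination modulo `y`
  have key : ∀ w ∈ L, w ≠ y → ∃ β γ : ℝ, 0 ≤ β ∧ 0 ≤ γ ∧ 0 < β + γ ∧
      om A (vec u b y) (vec u b w) =
        β * om A (vec u b y) (vec u b y1) + γ * om A (vec u b y) (vec u b y2) := by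
    intro w hw hwy
    obtain ⟨α, β, γ, hd⟩ := decomp h hp1 hL n1 m1 m1' k12 hyL hy1 hy2
      (vec_mem (b := b) (u := u) hw)
    have e1 := congrArg (ev p1) hd
    have e2 := congrArg (ev p2) hd
    rw [map_add, map_add, map_smul, map_smul, map_smul, ev_zero.mpr m1, ev_zero.mpr m1',
      smul_zero, smul_zero, zero_add, zero_add, smul_eq_mul] at e1
    rw [map_add, map_add, map_smul, map_smul, map_smul, ev_zero.mpr m2, ev_zero.mpr m2',
      smul_zero, smul_zero, zero_add, add_zero, smul_eq_mul] at e2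
    have w1 := ev_nonneg (u := u) (b := b) hp1 w
    have w2 := ev_nonneg (u := u) (b := b) hp2 w
    have hγ : 0 ≤ γ := by
      by_contra hc
      push Not at hc
      nlinarith [mul_neg_of_neg_of_pos hc p12]
    have hβ : 0 ≤ β := by
      by_contra hc
      push Not at hc
      nlinarith [mul_neg_of_neg_of_pos hc p21]
    refine ⟨β, γ, hβ, hγ, ?_, ?_⟩
    · by_contra hc
      push Not at hc
      have hβ0 : β = 0 := by linarith
      have hγ0 : γ = 0 := by linarith
      rw [hγ0, zero_mul] at e1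
      rw [hβ0, zero_mul] at e2
      have a1 : w ∈ act u b p1 := ev_zero.mp e1
      have a2 : w ∈ act u b p2 := ev_zero.mp e2
      by_cases hw1 : w = y1
      · exact k21 (hw1 ▸ a2)
      · exact le_two h hp1 hL h5 n1 (Ne.symm hwy) (Ne.symm hw1) m1 m1' a1 hyL hy1 hw
    · rw [hd, om_comb, om_self, mul_zero, zero_add]
  obtain ⟨β, γ, hβ, hγ, hβγ, e1⟩ := key z hz hzy
  obtain ⟨β', γ', hβ', hγ', hβγ', e2⟩ := key z' hz' hzy'
  rw [e1, e2]
  set P := om A (vec u b y) (vec u b y1)
  set Q := om A (vec u b y) (vec u b y2)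
  have hP : P ≠ 0 := fun hc => by rw [hc, zero_mul] at hpos; exact lt_irrefl _ hpos
  have hQ : Q ≠ 0 := fun hc => by rw [hc, mul_zero] at hpos; exact lt_irrefl _ hpos
  rcases lt_or_gt_of_ne hP with hP | hP
  · have hQ' : Q < 0 := by
      by_contra hc
      push Not at hc
      nlinarith [mul_nonpos_of_nonpos_of_nonneg hP.le hc]
    have f : ∀ s t : ℝ, 0 ≤ s → 0 ≤ t → 0 < s + t → s * P + t * Q < 0 := by
      intro s t hs ht hst
      rcases hs.eq_or_lt with rfl | hs
      · have : 0 < t := by linarith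
        nlinarith [mul_neg_of_pos_of_neg this hQ']
      · nlinarith [mul_neg_of_pos_of_neg hs hP, mul_nonpos_of_nonneg_of_nonpos ht hQ'.le]
    exact mul_pos_of_neg_of_neg (f _ _ hβ hγ hβγ) (f _ _ hβ' hγ' hβγ')
  · have hQ' : 0 < Q := by
      by_contra hc
      push Not at hc
      nlinarith [mul_nonpos_of_nonneg_of_nonpos hP.le hc]
    have f : ∀ s t : ℝ, 0 ≤ s → 0 ≤ t → 0 < s + t → 0 < s * P + t * Q := by
      intro s t hs ht hst
      rcases hs.eq_or_lt with rfl | hs
      · have : 0 < t := by linarith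
        nlinarith [mul_pos this hQ']
      · nlinarith [mul_pos hs hP, mul_nonneg ht hQ'.le]
    exact mul_pos (f _ _ hβ hγ hβγ) (f _ _ hβ' hγ' hβγ')

/-- At most two such facets. -/
theorem ext_two (h : Simple4 u b) {L : Finset (Fin n)} (hL : Pencil u b L) (h5 : 5 ≤ L.card)
    {A : (E4 × ℝ) →ₗ[ℝ] ℂ} {x y z : Fin n} (hx : Ext u b A L x) (hy : Ext u b A L y)
    (hz : Ext u b A L z) (hxy : x ≠ y) (hxz : x ≠ z) (hyz : y ≠ z) : False := by
  have h1 := ext_side h hL h5 hx hy.1 hz.1 hxy.symm hxz.symm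
  have h2 := ext_side h hL h5 hy hx.1 hz.1 hxy hyz.symm
  have h3 := ext_side h hL h5 hz hx.1 hy.1 hxz hyz
  rw [om_comm A (vec u b x) (vec u b y)] at h2
  rw [om_comm A (vec u b x) (vec u b z), om_comm A (vec u b y) (vec u b z)] at h3
  set P := om A (vec u b x) (vec u b y)
  set Q := om A (vec u b x) (vec u b z)
  set R := om A (vec u b y) (vec u b z)
  have h4 := mul_pos (mul_pos h1 h2) h3
  nlinarith [h4, mul_self_nonneg (P * Q * R)]

end Quad56
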