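import Pool.Agent.Quad56.Pen

/-!
# Sectors

Working file of helper56 for MP_f8fadf_co.
-/

namespace Quad56

open Finset
open scoped InnerProductSpace

variable {n : ℕ} {u : Fin n → E4} {b : Fin n → ℝ}

/-- The angle. -/
noncomputable def ang (A : (E4 × ℝ) →ₗ[ℝ] ℂ) (v : E4 × ℝ) : ℝ := Complex.arg (A v)

theorem om_sin (A : (E4 × ℝ) →ₗ[ℝ] ℂ) (v w : E4 × ℝ) :
    om A v w = ‖A v‖ * ‖A w‖ * Real.sin (ang A w - ang A v) := by
  unfold om ang
  rw [Real.sin_sub]
  have h1 := Complex.norm_mul_cos_arg (A v)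
  have h2 := Complex.norm_mul_sin_arg (A v)
  have h3 := Complex.norm_mul_cos_arg (A w)
  have h4 := Complex.norm_mul_sin_arg (A w)
  rw [← h1, ← h2, ← h3, ← h4]
  simp only [h1, h2, h3, h4]
  rw [← h1, ← h2, ← h3, ← h4]
  ring

theorem om_nonneg (A : (E4 × ℝ) →ₗ[ℝ] ℂ) {v w : E4 × ℝ} (h0 : 0 ≤ ang A w - ang A v)
    (h1 : ang A w - ang A v ≤ Real.pi) : 0 ≤ om A v w := by
  rw [om_sin]
  exact mul_nonneg (mul_nonneg (norm_nonneg _) (norm_nonneg _))
    (Real.sin_nonneg_of_nonneg_of_le_pi h0 h1)

theorem om_nonpos (A : (E4 × ℝ) →ₗ[ℝ] ℂ) {v w : E4 × ℝ} (h0 : Real.pi ≤ ang A w - ang A v)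
    (h1 : ang A w - ang A v ≤ 2 * Real.pi) : om A v w ≤ 0 := by
  rw [om_sin]
  have h2 : Real.sin (ang A w - ang A v) = - Real.sin (ang A w - ang A v - Real.pi) := by
    rw [Real.sin_sub_pi, neg_neg]
  rw [h2]
  have h3 : 0 ≤ Real.sin (ang A w - ang A v - Real.pi) :=
    Real.sin_nonneg_of_nonneg_of_le_pi (by linarith) (by linarith)
  have h4 := mul_nonneg (mul_nonneg (norm_nonneg (A v)) (norm_nonneg (A w))) h3
  linarith

theorem ang_bound (A : (E4 × ℝ) →ₗ[ℝ] ℂ) (v : E4 × ℝ) :
    -Real.pi < ang A v ∧ ang A v ≤ Real.pi :=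
  ⟨Complex.neg_pi_lt_arg _, Complex.arg_le_pi _⟩

/-- The rank of the angle. -/
noncomputable def rk (u : Fin n → E4) (b : Fin n → ℝ) (A : (E4 × ℝ) →ₗ[ℝ] ℂ) (i : Fin n) :
    Fin n := (Tuple.sort fun i => ang A (vec u b i)).symm i

theorem rk_inj (A : (E4 × ℝ) →ₗ[ℝ] ℂ) {i j : Fin n} (hij : rk u b A i = rk u b A j) : i = j :=
  (Tuple.sort fun i => ang A (vec u b i)).symm.injective hij

theorem rk_mono (A : (E4 × ℝ) →ₗ[ℝ] ℂ) {i j : Fin n} (hij : rk u b A i ≤ rk u b A j) :
    ang A (vec u b i) ≤ ang A (vec u b j) := by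
  have h1 := Tuple.monotone_sort (fun i => ang A (vec u b i)) hij
  simpa [rk] using h1

/-- The sector. -/
noncomputable def sec (u : Fin n → E4) (b : Fin n → ℝ) (A : (E4 × ℝ) →ₗ[ℝ] ℂ) (w : ℕ)
    (i : Fin n) : ℕ := (rk u b A i).1 / w

theorem sec_card (A : (E4 × ℝ) →ₗ[ℝ] ℂ) {w : ℕ} (hw : 0 < w) (c : ℕ) :
    (univ.filter fun i : Fin n => sec u b A w i = c).card ≤ w := by
  have h1 : ((univ.filter fun i : Fin n => sec u b A w i = c).card) ≤
      (Finset.Ico (c * w) (c * w + w)).card := by
    apply card_le_card_of_injOn (fun i => (rk u b A i).1)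
    · intro i hi
      simp only [coe_filter, mem_univ, true_and, Set.mem_ofPred_eq] at hi
      unfold sec at hi
      rw [coe_Ico, Set.mem_Ico]
      have h2 := Nat.div_add_mod (rk u b A i).1 w
      have h3 := Nat.mod_lt (rk u b A i).1 hw
      rw [hi] at h2
      have h4 : c * w = w * c := Nat.mul_comm _ _
      change c * w ≤ (rk u b A i).1 ∧ (rk u b A i).1 < c * w + w
      omega
    · intro i _ j _ hij
      exact rk_inj A (Fin.ext hij)
  rwa [Nat.card_Ico, Nat.add_sub_cancel_left] at h1

section Link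

variable (h : Simple4 u b) {L : Finset (Fin n)} (hL : Pencil u b L) (h5 : 5 ≤ L.card)
  {A : (E4 × ℝ) →ₗ[ℝ] ℂ} (hA : Module.finrank ℝ (Sp u b L) = 3 → LinearMap.ker A = Sp u b L)

include h hL h5 hA

theorem nc {x y c d e e' : Fin n} (hxL : x ∈ L) (hyL : y ∈ L) (hT : {x, y, c, d} ∈ tets u b)
    (hT' : {x, y, e, e'} ∈ tets u b)
    (hnc : ang A (vec u b d) - ang A (vec u b c) ≤ Real.pi)
    (h1 : ang A (vec u b c) ≤ ang A (vec u b e)) (h2 : ang A (vec u b e) ≤ ang A (vec u b d)) :
    e = c ∨ e = d := by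
  by_contra hc
  push Not at hc
  have e1 : 0 ≤ om A (vec u b c) (vec u b d) := om_nonneg A (by linarith) hnc
  have e2 : 0 ≤ om A (vec u b c) (vec u b e) := om_nonneg A (by linarith) (by linarith)
  have e3 : 0 ≤ om A (vec u b e) (vec u b d) := om_nonneg A (by linarith) (by linarith)
  exact w2 h hL h5 hA hxL hyL hT hT' hc.1 hc.2 (mul_nonneg e2 e1) (mul_nonneg e3 e1)

theorem cr {x y c d e e' : Fin n} (hxL : x ∈ L) (hyL : y ∈ L) (hT : {x, y, c, d} ∈ tets u b)
    (hT' : {x, y, e, e'} ∈ tets u b)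
    (hcr : Real.pi < ang A (vec u b d) - ang A (vec u b c)) (hec : e ≠ c) (hed : e ≠ d) :
    ang A (vec u b c) < ang A (vec u b e) ∧ ang A (vec u b e) < ang A (vec u b d) := by
  have b1 := ang_bound A (vec u b c)
  have b2 := ang_bound A (vec u b d)
  have b3 := ang_bound A (vec u b e)
  have e1 : om A (vec u b c) (vec u b d) ≤ 0 := om_nonpos A hcr.le (by linarith)
  constructor
  · by_contra hc
    push Not at hc
    have e2 : om A (vec u b e) (vec u b d) ≤ 0 := om_nonpos A (by linarith) (by linarith)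
    have e3 : 0 ≤ om A (vec u b e) (vec u b c) := om_nonneg A (by linarith) (by linarith)
    rw [om_comm] at e3
    exact w2 h hL h5 hA hxL hyL hT hT' hec hed
      (mul_nonneg_of_nonpos_of_nonpos (by linarith) e1)
      (mul_nonneg_of_nonpos_of_nonpos e2 e1)
  · by_contra hc
    push Not at hc
    have e2 : om A (vec u b c) (vec u b e) ≤ 0 := om_nonpos A (by linarith) (by linarith)
    have e3 : 0 ≤ om A (vec u b d) (vec u b e) := om_nonneg A (by linarith) (by linarith)
    rw [om_comm] at e3
    exact w2 h hL h5 hA hxL hyL hT hT' hec hed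
      (mul_nonneg_of_nonpos_of_nonpos e2 e1)
      (mul_nonneg_of_nonpos_of_nonpos (by linarith) e1)

/-- The number of the vertices over a pair of facets of the pencil whose other facets are in
different sectors. -/
theorem sector {w : ℕ} {x y : Fin n} (hxL : x ∈ L) (hyL : y ∈ L) :
    (univ.filter fun q : Fin n × Fin n => sec u b A w q.1 < sec u b A w q.2 ∧
      {x, y, q.1, q.2} ∈ tets u b).card ≤ n / w + 2 := by
  classical
  have hs : ∀ {i j : Fin n}, {x, y, i, j} ∈ tets u b → {x, y, j, i} ∈ tets u b := by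
    intro i j hij
    rw [show ({x, y, j, i} : Finset (Fin n)) = {x, y, i, j} by
      ext; simp only [mem_insert, mem_singleton]; tauto]
    exact hij
  set F := univ.filter fun q : Fin n × Fin n => sec u b A w q.1 < sec u b A w q.2 ∧
      {x, y, q.1, q.2} ∈ tets u b with hF
  set F1 := F.filter fun q => ang A (vec u b q.2) - ang A (vec u b q.1) ≤ Real.pi with hF1
  set F2 := F.filter fun q => ¬ ang A (vec u b q.2) - ang A (vec u b q.1) ≤ Real.pi with hF2
  have hsplit : F1.card + F2.card = F.card := card_filter_add_card_filter_not _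
  have hrk : ∀ {i j : Fin n}, sec u b A w i < sec u b A w j → rk u b A i < rk u b A j := by
    intro i j hij
    by_contra hc
    push Not at hc
    have h1 : (rk u b A j).1 ≤ (rk u b A i).1 := hc
    have h2 := Nat.div_le_div_right (c := w) h1
    unfold sec at hij
    omega
  have h1 : F1.card ≤ n / w + 1 := by
    have h2 : F1.card ≤ (range (n / w + 1)).card := by
      apply card_le_card_of_injOn (fun q => sec u b A w q.1)
      · intro q _
        rw [coe_range, Set.mem_Iio]
        exact Nat.lt_succ_of_le (Nat.div_le_div_right (rk u b A q.1).2.le)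
      · rintro ⟨c, d⟩ hq ⟨c', d'⟩ hq' hcc
        simp only [hF1, hF, coe_filter, mem_filter, mem_univ, true_and, Set.mem_ofPred_eq]
          at hq hq' hcc
        obtain ⟨⟨hlt, hT⟩, hn⟩ := hq
        obtain ⟨⟨hlt', hT'⟩, hn'⟩ := hq'
        -- the first elements agree
        have key : ∀ {c d c' d' : Fin n}, {x, y, c, d} ∈ tets u b → {x, y, c', d'} ∈ tets u b →
            ang A (vec u b d) - ang A (vec u b c) ≤ Real.pi →
            sec u b A w c < sec u b A w d → sec u b A w c = sec u b A w c' →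
            rk u b A c ≤ rk u b A c' → c = c' := by
          intro c d c' d' hT hT' hn hlt hcc hle
          have h3 : rk u b A c' < rk u b A d := hrk (hcc ▸ hlt)
          rcases nc h hL h5 hA hxL hyL hT hT' hn (rk_mono A hle) (rk_mono A h3.le) with h4 | h4
          · exact h4.symm
          · rw [h4] at h3
            exact absurd h3 (lt_irrefl _)
        have hc : c = c' := by
          rcases le_total (rk u b A c) (rk u b A c') with hle | hle
          · exact key hT hT' hn hlt hcc hle
          · exact (key hT' hT hn' hlt' hcc.symm hle).symm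
        subst hc
        have key2 : ∀ {d d' : Fin n}, {x, y, c, d} ∈ tets u b → {x, y, c, d'} ∈ tets u b →
            ang A (vec u b d') - ang A (vec u b c) ≤ Real.pi →
            sec u b A w c < sec u b A w d → rk u b A d ≤ rk u b A d' → d = d' := by
          intro d d' hT hT' hn hlt hle
          rcases nc h hL h5 hA hxL hyL hT' (hs hT) hn (rk_mono A (hrk hlt).le)
            (rk_mono A hle) with h4 | h4
          · rw [h4] at hlt
            exact absurd hlt (lt_irrefl _)
          · exact h4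
        have hd : d = d' := by
          rcases le_total (rk u b A d) (rk u b A d') with hle | hle
          · exact key2 hT hT' hn' hlt hle
          · exact (key2 hT' hT hn hlt' hle).symm
        rw [hd]
    rwa [card_range] at h2
  have h2 : F2.card ≤ 1 := by
    rw [card_le_one]
    rintro ⟨c, d⟩ hq ⟨c', d'⟩ hq'
    simp only [hF2, hF, mem_filter, mem_univ, true_and, not_le] at hq hq'
    obtain ⟨⟨hlt, hT⟩, hn⟩ := hq
    obtain ⟨⟨hlt', hT'⟩, hn'⟩ := hq'
    have b1 := ang_bound A (vec u b c)
    have b2 := ang_bound A (vec u b d)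
    have b1' := ang_bound A (vec u b c')
    have b2' := ang_bound A (vec u b d')
    have hdc : d' ≠ c := by
      rintro rfl
      linarith
    have hcd : d ≠ c' := by
      rintro rfl
      linarith
    have hd : d = d' := by
      by_contra hne
      have e1 := cr h hL h5 hA hxL hyL hT (hs hT') hn hdc (Ne.symm hne)
      have e2 := cr h hL h5 hA hxL hyL hT' (hs hT) hn' hcd hne
      linarith [e1.2, e2.2]
    have hc : c = c' := by
      by_contra hne
      have e1 := cr h hL h5 hA hxL hyL hT hT' hn (Ne.symm hne) (Ne.symm hcd)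
      have e2 := cr h hL h5 hA hxL hyL hT' hT hn' hne (Ne.symm hdc)
      linarith [e1.1, e2.1]
    rw [hc, hd]
  omega

end Link

end Quad56
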