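import Pool.Agent.Quad56.Geo

/-!
# The dual complex of a simple 4-polytope

Working file of helper56 for MP_f8fadf_co.
-/

namespace Quad56

open Finset
open scoped InnerProductSpace

variable {n : ℕ} {u : Fin n → E4} {b : Fin n → ℝ}

open Classical in
/-- The facet sets of the vertices. -/
noncomputable def tets (u : Fin n → E4) (b : Fin n → ℝ) : Finset (Finset (Fin n)) :=
  univ.filter fun t => t.card = 4 ∧ ∃ p ∈ Poly u b, act u b p = t

theorem mem_tets {t : Finset (Fin n)} :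
    t ∈ tets u b ↔ t.card = 4 ∧ ∃ p ∈ Poly u b, act u b p = t := by
  classical
  simp [tets]

theorem four_distinct {α : Type*} [DecidableEq α] {a b c d : α}
    (h : ({a, b, c, d} : Finset α).card = 4) :
    a ≠ b ∧ a ≠ c ∧ a ≠ d ∧ b ≠ c ∧ b ≠ d ∧ c ≠ d := by
  have key : ∀ x y z : α, ({x, y, z} : Finset α).card ≤ 3 := fun x y z => card_le_three
  refine ⟨?_, ?_, ?_, ?_, ?_, ?_⟩ <;> rintro rfl
  · have := key a c d
    rw [show ({a, a, c, d} : Finset α) = {a, c, d} by
      ext; simp only [mem_insert, mem_singleton]; tauto] at h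
    omega
  · have := key b a d
    rw [show ({a, b, a, d} : Finset α) = {b, a, d} by
      ext; simp only [mem_insert, mem_singleton]; tauto] at h
    omega
  · have := key a b c
    rw [show ({a, b, c, a} : Finset α) = {a, b, c} by
      ext; simp only [mem_insert, mem_singleton]; tauto] at h
    omega
  · have := key a b d
    rw [show ({a, b, b, d} : Finset α) = {a, b, d} by
      ext; simp only [mem_insert, mem_singleton]; tauto] at h
    omega
  · have := key a b c
    rw [show ({a, b, c, b} : Finset α) = {a, b, c} by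
      ext; simp only [mem_insert, mem_singleton]; tauto] at h
    omega
  · have := key a b c
    rw [show ({a, b, c, c} : Finset α) = {a, b, c} by
      ext; simp only [mem_insert, mem_singleton]; tauto] at h
    omega

theorem four_card {α : Type*} [DecidableEq α] {a b c d : α}
    (h : a ≠ b ∧ a ≠ c ∧ a ≠ d ∧ b ≠ c ∧ b ≠ d ∧ c ≠ d) :
    ({a, b, c, d} : Finset α).card = 4 := by
  obtain ⟨h1, h2, h3, h4, h5, h6⟩ := h
  rw [card_insert_of_notMem (by simp [h1, h2, h3]), card_insert_of_notMem (by simp [h4, h5]),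
    card_insert_of_notMem (by simpa using h6), card_singleton]

theorem tet_distinct {a c d e : Fin n} (h : {a, c, d, e} ∈ tets u b) :
    a ≠ c ∧ a ≠ d ∧ a ≠ e ∧ c ≠ d ∧ c ≠ e ∧ d ≠ e :=
  four_distinct (mem_tets.mp h).1

theorem perm4_eq {α : Type*} [DecidableEq α] {a b c d x : α} (hx : x ∉ ({a, b, c} : Finset α))
    (h : ({a, b, c, x} : Finset α) = {a, b, c, d}) : x = d := by
  have h1 : x ∈ ({a, b, c, d} : Finset α) := by rw [← h]; simp
  simp only [mem_insert, mem_singleton] at h1 hx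
  tauto

/-- The two facets opposite to each other over an edge of the polytope. -/
theorem tet_other (h : Simple4 u b) {x y z d : Fin n} (hT : {x, y, z, d} ∈ tets u b) :
    ∃ d', d' ≠ d ∧ {x, y, z, d'} ∈ tets u b ∧
      ∀ e, {x, y, z, e} ∈ tets u b → e = d ∨ e = d' := by
  have hd := tet_distinct hT
  obtain ⟨hc, p, hp, hpa⟩ := mem_tets.mp hT
  have hins : ∀ e : Fin n, insert e ({x, y, z} : Finset (Fin n)) = {x, y, z, e} := by
    intro e
    ext i
    simp only [mem_insert, mem_singleton]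
    tauto
  have hs3 : ({x, y, z} : Finset (Fin n)).card = 3 := by
    rw [card_eq_three]
    exact ⟨x, y, z, hd.1, hd.2.1, hd.2.2.2.1, rfl⟩
  have hds : d ∉ ({x, y, z} : Finset (Fin n)) := by
    simp only [mem_insert, mem_singleton]
    rintro (rfl | rfl | rfl)
    · exact hd.2.2.1 rfl
    · exact hd.2.2.2.2.1 rfl
    · exact hd.2.2.2.2.2 rfl
  obtain ⟨q, hq, d', hd', hqa, huniq⟩ := edge h hp hds hs3 (by rw [hins, hpa])
  have hd's : d' ∉ ({x, y, z} : Finset (Fin n)) := fun hc => hd' (mem_insert_of_mem hc)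
  have hdd : d' ≠ d := fun hc => hd' (by rw [hc]; exact mem_insert_self _ _)
  refine ⟨d', hdd, ?_, ?_⟩
  · rw [mem_tets, ← hins, card_insert_of_notMem hd's, hs3]
    exact ⟨rfl, q, hq, hqa⟩
  · intro e he
    have hed := tet_distinct he
    have hes : e ∉ ({x, y, z} : Finset (Fin n)) := by
      simp only [mem_insert, mem_singleton]
      rintro (rfl | rfl | rfl)
      · exact hed.2.2.1 rfl
      · exact hed.2.2.2.2.1 rfl
      · exact hed.2.2.2.2.2 rfl
    obtain ⟨hc', r, hr, hra⟩ := mem_tets.mp he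
    rcases huniq r hr (by rw [hra, hc']) (by
      rw [hra]
      intro i hi
      simp only [mem_insert, mem_singleton] at hi ⊢
      tauto) with rfl | rfl
    · left
      exact perm4_eq hes (by rw [← hra, hpa])
    · right
      exact perm4_eq hes (by rw [← hra, hqa, hins])

/-- The link of a pair of facets is connected. -/
theorem tet_conn (h : Simple4 u b) {x y : Fin n} (S : Fin n → Prop)
    (hS : ∀ a c, S a → {x, y, a, c} ∈ tets u b → S c) {a0 c0 : Fin n} (ha0 : S a0)
    (h0 : {x, y, a0, c0} ∈ tets u b) {a1 c1 : Fin n} (h1 : {x, y, a1, c1} ∈ tets u b) :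
    S a1 := by
  classical
  by_contra hna
  have hcomm : ∀ {a c : Fin n}, {x, y, a, c} ∈ tets u b → {x, y, c, a} ∈ tets u b := by
    intro a c hac
    rw [show ({x, y, c, a} : Finset (Fin n)) = {x, y, a, c} by
      ext; simp only [mem_insert, mem_singleton]; tauto]
    exact hac
  have hnc : ¬ S c1 := fun hc => hna (hS c1 a1 hc (hcomm h1))
  obtain ⟨-, q, hq, hqa⟩ := mem_tets.mp h1
  -- the vertices whose facets are in `S`
  set A : Finset (Finset (Fin n)) := (tets u b).filter fun t =>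
    ∃ a c, S a ∧ t = {x, y, a, c} with hA
  have hAne : A.Nonempty := ⟨_, mem_filter.mpr ⟨h0, a0, c0, ha0, rfl⟩⟩
  have hpt : ∀ t ∈ tets u b, ∃ p ∈ Poly u b, act u b p = t := fun t ht => (mem_tets.mp ht).2
  choose! pt hpt1 hpt2 using hpt
  obtain ⟨t, ht, hmax⟩ := exists_max_image A
    (fun t => ⟪u a1, pt t⟫_ℝ + ⟪u c1, pt t⟫_ℝ) hAne
  obtain ⟨htT, a, c, hSa, rfl⟩ := mem_filter.mp ht
  have hSc : S c := hS a c hSa htT
  set p := pt {x, y, a, c} with hpdef
  have hp : p ∈ Poly u b := hpt1 _ htT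
  have hpa : act u b p = {x, y, a, c} := hpt2 _ htT
  have hd := tet_distinct htT
  have h4 : (act u b p).card = 4 := by rw [hpa]; exact (mem_tets.mp htT).1
  -- the two neighbours
  obtain ⟨c', hc', hT1, -⟩ := tet_other h htT
  obtain ⟨a', ha', hT2, -⟩ := tet_other h (hcomm htT)
  have hm1 : {x, y, a, c'} ∈ A := mem_filter.mpr ⟨hT1, a, c', hSa, rfl⟩
  have hm2 : {x, y, c, a'} ∈ A := mem_filter.mpr ⟨hT2, c, a', hSc, rfl⟩
  set pa := pt {x, y, a, c'} with hpadef
  set pc := pt {x, y, c, a'} with hpcdef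
  have hpaP : pa ∈ Poly u b := hpt1 _ hT1
  have hpcP : pc ∈ Poly u b := hpt1 _ hT2
  have hpaa : act u b pa = {x, y, a, c'} := hpt2 _ hT1
  have hpca : act u b pc = {x, y, c, a'} := hpt2 _ hT2
  have hle1 := hmax _ hm1
  have hle2 := hmax _ hm2
  have ex : ∀ i, i ∈ act u b p → ⟪u i, p⟫_ℝ = b i := fun i hi => mem_act.mp hi
  have exa : ∀ i, i ∈ act u b pa → ⟪u i, pa⟫_ℝ = b i := fun i hi => mem_act.mp hi
  have exc : ∀ i, i ∈ act u b pc → ⟪u i, pc⟫_ℝ = b i := fun i hi => mem_act.mp hi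
  have exq : ∀ i, i ∈ act u b q → ⟪u i, q⟫_ℝ = b i := fun i hi => mem_act.mp hi
  have hcpa : c ∉ act u b pa := by
    rw [hpaa]
    simp only [mem_insert, mem_singleton]
    rintro (hc | hc | hc | hc)
    · exact hd.2.2.1 hc.symm
    · exact hd.2.2.2.2.1 hc.symm
    · exact hd.2.2.2.2.2 hc.symm
    · exact hc' hc.symm
  have hapc : a ∉ act u b pc := by
    rw [hpca]
    simp only [mem_insert, mem_singleton]
    rintro (hc | hc | hc | hc)
    · exact hd.2.1 hc.symm
    · exact hd.2.2.2.1 hc.symm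
    · exact hd.2.2.2.2.2 hc
    · exact ha' hc.symm
  have hc1 : ⟪u c, pa⟫_ℝ < b c := lt_of_le_of_ne (hpaP c) fun hc => hcpa (mem_act.mpr hc)
  have ha1 : ⟪u a, pc⟫_ℝ < b a := lt_of_le_of_ne (hpcP a) fun hc => hapc (mem_act.mpr hc)
  have hpx : ⟪u x, p⟫_ℝ = b x := ex x (by rw [hpa]; simp)
  have hpy : ⟪u y, p⟫_ℝ = b y := ex y (by rw [hpa]; simp)
  have hpa' : ⟪u a, p⟫_ℝ = b a := ex a (by rw [hpa]; simp)
  have hpc' : ⟪u c, p⟫_ℝ = b c := ex c (by rw [hpa]; simp)
  have hax : ⟪u x, pa⟫_ℝ = b x := exa x (by rw [hpaa]; simp)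
  have hay : ⟪u y, pa⟫_ℝ = b y := exa y (by rw [hpaa]; simp)
  have haa : ⟪u a, pa⟫_ℝ = b a := exa a (by rw [hpaa]; simp)
  have hcx : ⟪u x, pc⟫_ℝ = b x := exc x (by rw [hpca]; simp)
  have hcy : ⟪u y, pc⟫_ℝ = b y := exc y (by rw [hpca]; simp)
  have hcc : ⟪u c, pc⟫_ℝ = b c := exc c (by rw [hpca]; simp)
  have hqx : ⟪u x, q⟫_ℝ = b x := exq x (by rw [hqa]; simp)
  have hqy : ⟪u y, q⟫_ℝ = b y := exq y (by rw [hqa]; simp)
  have hqa1 : ⟪u a1, q⟫_ℝ = b a1 := exq a1 (by rw [hqa]; simp)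
  have hqc1 : ⟪u c1, q⟫_ℝ = b c1 := exq c1 (by rw [hqa]; simp)
  -- the decomposition
  set α : ℝ := (⟪u c, q⟫_ℝ - b c) / (⟪u c, pa⟫_ℝ - b c) with hα
  set β : ℝ := (⟪u a, q⟫_ℝ - b a) / (⟪u a, pc⟫_ℝ - b a) with hβ
  have hα0 : 0 ≤ α := div_nonneg_of_nonpos (by linarith [hq c]) (by linarith)
  have hβ0 : 0 ≤ β := div_nonneg_of_nonpos (by linarith [hq a]) (by linarith)
  have hαm : α * (⟪u c, pa⟫_ℝ - b c) = ⟪u c, q⟫_ℝ - b c := by
    rw [hα, div_mul_cancel₀]
    linarith
  have hβm : β * (⟪u a, pc⟫_ℝ - b a) = ⟪u a, q⟫_ℝ - b a := by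
    rw [hβ, div_mul_cancel₀]
    linarith
  have hdec : (q - p) - (α • (pa - p) + β • (pc - p)) = 0 := by
    apply eq_zero_of_orth h hp h4
    intro i hi
    rw [inner_sub_right, inner_add_right, inner_smul_right, inner_smul_right, inner_sub_right,
      inner_sub_right, inner_sub_right]
    rw [hpa] at hi
    simp only [mem_insert, mem_singleton] at hi
    rcases hi with rfl | rfl | rfl | rfl
    · rw [hqx, hpx, hax, hcx]; ring
    · rw [hqy, hpy, hay, hcy]; ring
    · rw [hpa', haa]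
      linarith
    · rw [hpc', hcc]
      linarith
  have hdec2 : q - p = α • (pa - p) + β • (pc - p) := sub_eq_zero.mp hdec
  have hl : ∀ i, ⟪u i, q⟫_ℝ - ⟪u i, p⟫_ℝ =
      α * (⟪u i, pa⟫_ℝ - ⟪u i, p⟫_ℝ) + β * (⟪u i, pc⟫_ℝ - ⟪u i, p⟫_ℝ) := by
    intro i
    rw [← inner_sub_right, hdec2, inner_add_right, inner_smul_right, inner_smul_right,
      inner_sub_right, inner_sub_right]
  have hsum : (⟪u a1, q⟫_ℝ + ⟪u c1, q⟫_ℝ) - (⟪u a1, p⟫_ℝ + ⟪u c1, p⟫_ℝ) ≤ 0 := by
    have e1 := hl a1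
    have e2 := hl c1
    have e3 := mul_nonneg hα0 (sub_nonneg.mpr hle1)
    have e4 := mul_nonneg hβ0 (sub_nonneg.mpr hle2)
    linarith
  rw [hqa1, hqc1] at hsum
  have hpa1 : a1 ∈ act u b p := mem_act.mpr (by linarith [hp a1, hp c1])
  have hpc1 : c1 ∈ act u b p := mem_act.mpr (by linarith [hp a1, hp c1])
  rw [hpa] at hpa1 hpc1
  have hd1 := tet_distinct h1
  simp only [mem_insert, mem_singleton] at hpa1
  rcases hpa1 with hc | hc | hc | hc
  · exact hd1.2.1 hc.symm
  · exact hd1.2.2.2.1 hc.symm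
  · exact hna (hc ▸ hSa)
  · exact hna (hc ▸ hSc)

/-- The intersection of the facets `i` and `j`. -/
def Two (u : Fin n → E4) (b : Fin n → ℝ) (i j : Fin n) : Set E4 :=
  {p | p ∈ Poly u b ∧ ⟪u i, p⟫_ℝ = b i ∧ ⟪u j, p⟫_ℝ = b j}

theorem extreme_iff (h : Simple4 u b) {x y : Fin n} {p : E4} :
    p ∈ Set.extremePoints ℝ (Two u b x y) ↔
      p ∈ Poly u b ∧ (act u b p).card = 4 ∧ x ∈ act u b p ∧ y ∈ act u b p := by
  constructor
  · rintro ⟨⟨hp, hx, hy⟩, hext⟩
    refine ⟨hp, ?_, mem_act.mpr hx, mem_act.mpr hy⟩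
    by_contra hne
    have hle := h.simple p hp
    have hlt : Module.finrank ℝ (Submodule.span ℝ (Set.range fun i : act u b p => u i)) < 4 := by
      have h1 := finrank_range_le_card (R := ℝ) (fun i : act u b p => u i)
      rw [Set.finrank, Fintype.card_coe] at h1
      omega
    obtain ⟨d, hd, hd0⟩ := exists_orth _ hlt
    have hd1 : ∀ i ∈ act u b p, ⟪u i, d⟫_ℝ = 0 := fun i hi => hd0 ⟨i, hi⟩
    obtain ⟨t, ht, hq, -⟩ := move h hp hd fun i hi => (hd1 i hi).le
    obtain ⟨t', ht', hq', -⟩ := move h hp (neg_ne_zero.mpr hd) fun i hi => by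
      rw [inner_neg_right, hd1 i hi, neg_zero]
    have hm : ∀ s : ℝ, p + s • d ∈ Poly u b → p + s • d ∈ Two u b x y := by
      intro s hs
      refine ⟨hs, ?_, ?_⟩
      · rw [inner_add_smul, hd1 x (mem_act.mpr hx), mul_zero, add_zero, hx]
      · rw [inner_add_smul, hd1 y (mem_act.mpr hy), mul_zero, add_zero, hy]
    have hq2 : p + (-t') • d ∈ Poly u b := by
      rw [show (-t') • d = t' • -d by rw [neg_smul, smul_neg]]
      exact hq'
    have hseg : p ∈ openSegment ℝ (p + t • d) (p + (-t') • d) := by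
      have htt : 0 < t + t' := by linarith
      refine ⟨t' / (t + t'), t / (t + t'), div_pos ht' htt, div_pos ht htt, ?_, ?_⟩
      · rw [← add_div, add_comm t' t, div_self htt.ne']
      · have e1 : t' / (t + t') + t / (t + t') = 1 := by
          rw [← add_div, add_comm t' t, div_self htt.ne']
        rw [smul_add, smul_add, smul_smul, smul_smul]
        have e2 : t' / (t + t') * t + t / (t + t') * (-t') = 0 := by ring
        calc (t' / (t + t')) • p + (t' / (t + t') * t) • d +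
            ((t / (t + t')) • p + (t / (t + t') * (-t')) • d)
            = (t' / (t + t') + t / (t + t')) • p +
              (t' / (t + t') * t + t / (t + t') * (-t')) • d := by
              rw [add_smul, add_smul]; abel
          _ = p := by rw [e1, e2, one_smul, zero_smul, add_zero]
    have := hext (hm t hq) (hm (-t') hq2) hseg
    have h2 : t • d = 0 := by simpa using this
    rcases smul_eq_zero.mp h2 with h3 | h3
    · exact ht.ne' h3
    · exact hd h3
  · rintro ⟨hp, h4, hx, hy⟩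
    refine ⟨⟨hp, mem_act.mp hx, mem_act.mp hy⟩, ?_⟩
    intro q hq r hr hseg
    obtain ⟨s, t, hs, ht, hst, heq⟩ := hseg
    apply eq_of_act_sub h hp h4
    have h2 : q + t • (r - q) = p := by
      rw [← heq, eq_sub_iff_add_eq.mpr hst, sub_smul, smul_sub, one_smul]
      abel
    intro i hi
    rw [← h2, act_seg hq.1 hr.1 ht (by linarith)] at hi
    exact hi.1

/-- The number of vertices of a 2-face. -/
theorem ncard_extreme (h : Simple4 u b) (x y : Fin n) :
    (Set.extremePoints ℝ (Two u b x y)).ncard =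
      ((tets u b).filter fun t => x ∈ t ∧ y ∈ t).card := by
  classical
  rw [← Set.ncard_coe_finset]
  apply Set.ncard_congr (fun p _ => act u b p)
  · intro p hp
    rw [extreme_iff h] at hp
    rw [mem_coe, mem_filter, mem_tets]
    exact ⟨⟨hp.2.1, p, hp.1, rfl⟩, hp.2.2⟩
  · intro p q hp hq hpq
    rw [extreme_iff h] at hp hq
    exact eq_of_act_sub h hq.1 hq.2.1 (by rw [hpq])
  · intro t ht
    rw [mem_coe, mem_filter, mem_tets] at ht
    obtain ⟨⟨h4, p, hp, rfl⟩, hx, hy⟩ := ht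
    exact ⟨p, (extreme_iff h).mpr ⟨hp, h4, hx, hy⟩, rfl⟩

end Quad56
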